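import Pool.Agent.Run7.h634.Mur.Defs
import Pool.Agent.X308.S.TriMain
import Pool.Agent.X308.S.BBMain

/-!
# Murre's conjectures in one codimension
-/

set_option autoImplicit false

open CategoryTheory AlgebraicGeometry

universe u v w

namespace Pool.Agent.Run7.H634.Mur

open Pool.Agent.H914 Pool.Agent.H914.VarClass Pool.Agent.H914.VarClass.Obj Pool.Agent.W492.BB
  Pool.Agent.W550.Corr Pool.Agent.TH133 Pool.Agent.X308.S

set_option linter.unusedSectionVars false

variable {k : Type u} [Field k] {𝒱 : VarClass k} {C : TheoryData.{u, v, 0} 𝒱 ℚ}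
  [hC : IsChowProj C] {K : Type w} [Field K]
  {H : WeilTheoryData.{u, v, w} C K} [hH : IsWeilProj H] {X Y Z W : 𝒱.Obj}

include hC hH

/-- If phantoms act trivially on `CH^l(X)` then its filtration is independent of the
decomposition. -/
theorem le_of_phantomsOn {P P' : ℕ → Cor C X} (h : IsCK H X P) (hT : NoRaising C P) {i : ℕ}
    (hph : PhantomsZeroOn H X i) (h' : IsCK H X P') (n : ℕ) :
    ckFil C P i n = ckFil C P' i n := by
  have hPm : ∀ i, P i ∈ cor0 C X := h.deg
  have hPm' : ∀ i, P' i ∈ cor0 C X := h'.deg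
  have hact : ∀ (a b : Cor C X) (z : C.A X), actC C X (a * b) z = actC C X a (actC C X b z) :=
    fun a b z => by rw [map_mul]; rfl
  have hent : ∀ a b, a ≠ b → ∀ z ∈ C.gr X i, actC C X (P a * P' b * P a) z = 0 := by
    intro a b hab z hz
    refine hph (P a * P' b * P a) ((cor0 C X).mul_mem ((cor0 C X).mul_mem (hPm a) (hPm' b))
      (hPm a)) ?_ (entry_cl h h' hab) z hz
    have h1 := diag_mul h hT (hPm' b) (by have := h'.mul_eq b b; rwa [if_pos rfl] at this) a
    exact h1
  -- expansion of an entry
  have hexp : ∀ (γ : Cor C X), γ ∈ cor0 C X → ∀ (a : ℕ) (y : C.A X),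
      (∀ c, a < c → actC C X (P c) y = 0) →
      actC C X (P a * γ) y = actC C X (P a * γ * P a) y := by
    intro γ hγ a y hy
    have h1 : actC C X (P a * γ) y = ∑ c ∈ Finset.range (2 * X.dim + 1 + (a + 1)),
        actC C X (P a * γ * P c) y := by
      have h2 : P a * γ = ∑ c ∈ Finset.range (2 * X.dim + 1 + (a + 1)), P a * γ * P c := by
        rw [← Finset.mul_sum, X308.S.IsCK.sum_one h (by omega), mul_one]
      conv_lhs => rw [h2]
      rw [map_sum, LinearMap.sum_apply]
    rw [h1]
    apply Finset.sum_eq_single a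
    · intro c _ hc
      rcases lt_or_gt_of_ne hc with h4 | h4
      · rw [hT.mul_eq (H := H) hγ h4, map_zero, LinearMap.zero_apply]
      · rw [hact, hy c h4, map_zero]
    · intro h4
      exact absurd (Finset.mem_range.2 (by omega)) h4
  -- a class killed by the large `P c` is zero if all its leading components vanish
  have hlead : ∀ (N : ℕ) (y : C.A X), (∀ c, N ≤ c → actC C X (P c) y = 0) →
      ∀ (B : ℕ), (∀ a, B ≤ a → (∀ c, a < c → actC C X (P c) y = 0) → actC C X (P a) y = 0) →
      ∀ c, B ≤ c → actC C X (P c) y = 0 := by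
    intro N
    induction N with
    | zero => intro y hy B _ c _; exact hy c (Nat.zero_le c)
    | succ N ih =>
      intro y hy B hB c hc
      by_cases hBN : B ≤ N
      · refine ih y (fun c hc => ?_) B hB c hc
        rcases Nat.eq_or_lt_of_le hc with h5 | h5
        · rw [← h5]
          exact hB N hBN (fun c hc => hy c hc)
        · exact hy c h5
      · exact hy c (by omega)
  have hout : ∀ (y : C.A X) c, 2 * X.dim + 1 ≤ c → actC C X (P c) y = 0 := by
    intro y c hc
    have h1 : P c = 0 := h.out c (by omega)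
    rw [h1, map_zero, LinearMap.zero_apply]
  ext x
  rw [h.mem_ckFil, h'.mem_ckFil]
  constructor
  · rintro ⟨hx, hx1⟩
    refine ⟨hx, fun b hb => ?_⟩
    set y := actC C X (P' b) x with hy
    have hyi : y ∈ C.gr X i := actC_mem (H := H) (hPm' b) hx
    -- `y` lies in the same step of the filtration of `P`
    have hy1 : ∀ c, 2 * i + 1 - n ≤ c → actC C X (P c) y = 0 := by
      apply hlead _ y (hout y)
      intro a ha ha'
      -- `P a y = P a P' b x`, and only the components of `x` of weight `< a` contribute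
      have h1 : actC C X (P a) y = ∑ c ∈ Finset.range (2 * X.dim + 1 + (a + 1)),
          actC C X (P a * P' b * P c) x := by
        have h2 : P a * P' b = ∑ c ∈ Finset.range (2 * X.dim + 1 + (a + 1)),
            P a * P' b * P c := by
          rw [← Finset.mul_sum, X308.S.IsCK.sum_one h (by omega), mul_one]
        rw [hy, ← hact]
        conv_lhs => rw [h2]
        rw [map_sum, LinearMap.sum_apply]
      rw [h1]
      apply Finset.sum_eq_zero
      intro c _
      by_cases hc : 2 * i + 1 - n ≤ c
      · have h3 : actC C X (P c) x = 0 := hx1 c hc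
        rw [hact, h3, map_zero]
      · rw [hT.mul_eq (H := H) (hPm' b) (by omega), map_zero, LinearMap.zero_apply]
    have hyy : actC C X (P' b) y = y := by
      rw [hy, ← hact, h'.mul_eq, if_pos rfl]
    have hy2 : ∀ c, 0 ≤ c → actC C X (P c) y = 0 := by
      apply hlead _ y hy1
      intro a _ ha'
      have h1 : actC C X (P a) y = actC C X (P a * P' b) y := by rw [hact, hyy]
      by_cases hab : 2 * i + 1 - n ≤ a
      · exact hy1 a hab
      · rw [h1, hexp _ (hPm' b) a y ha', hent a b (by omega) y hyi]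
    have h1 : y = ∑ c ∈ Finset.range (2 * X.dim + 1), actC C X (P c) y := by
      rw [← LinearMap.sum_apply, ← map_sum, X308.S.IsCK.sum_one h le_rfl, map_one]
      rfl
    rw [Finset.sum_eq_zero (fun c _ => hy2 c (Nat.zero_le c))] at h1
    exact h1
  · rintro ⟨hx, hx1⟩
    refine ⟨hx, ?_⟩
    apply hlead _ x (hout x)
    intro a ha ha'
    have h1 : actC C X (P a) x = ∑ b ∈ Finset.range (2 * X.dim + 1),
        actC C X (P a * P' b) x := by
      have h2 : P a = ∑ b ∈ Finset.range (2 * X.dim + 1), P a * P' b := by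
        rw [← Finset.mul_sum, X308.S.IsCK.sum_one h' le_rfl, mul_one]
      conv_lhs => rw [h2]
      rw [map_sum, LinearMap.sum_apply]
    rw [h1]
    apply Finset.sum_eq_zero
    intro b _
    by_cases hb : 2 * i + 1 - n ≤ b
    · have h3 : actC C X (P' b) x = 0 := hx1 b hb
      rw [hact, h3, map_zero]
    · rw [hexp _ (hPm' b) a x ha', hent a b (by omega) x hx]

/-- If phantoms do not act trivially on `CH^l(X)` then some phantom which is an endomorphism of one
`h^a` acts as the identity on a non-zero class of `CH^l(X)`. -/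
lemma exists_phantomOn {P : ℕ → Cor C X} (h : IsCK H X P) (hT : NoRaising C P) {l : ℕ}
    (hph : ¬ PhantomsZeroOn H X l) :
    ∃ (a : ℕ) (e : Cor C X) (y : C.A X), l ≤ X.dim ∧ 1 ≤ l ∧ a ≤ 2 * X.dim ∧ e ∈ cor0 C X ∧
      e * e = e ∧ H.cl (X := X.prod X) e = 0 ∧ P a * e = e ∧ e * P a = e ∧ y ∈ C.gr X l ∧ y ≠ 0 ∧
      actC C X e y = y := by
  unfold PhantomsZeroOn at hph
  push Not at hph
  obtain ⟨p, hp, hpp, hcl, x, hx, hne⟩ := hph
  obtain ⟨a, e, y, ha, he, hee, hcle, hPe, heP, hy, hy0, hey⟩ :=
    exists_entry h hT (p := p) hp hpp hcl hx hne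
  refine ⟨a, e, y, ?_, ?_, ha, he, hee, hcle, hPe, heP, hy, hy0, hey⟩
  · by_contra hcon
    exact hy0 (hC.gr_top X l y hy (by omega))
  · by_contra hcon
    have hl : l = 0 := by omega
    subst hl
    apply hy0
    apply gr_zero_eq (H := H) (by exact_mod_cast hy)
    rw [← hey]
    exact cl_act_zero hcle y

/-- Independence of one step of the filtration of `CH^l(X)` implies that phantoms act trivially on
`CH^l(X)`. -/
theorem phantomsOn_of_step {P : ℕ → Cor C X} (h : IsCK H X P) (hT : NoRaising C P) {l n : ℕ}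
    (hn1 : 2 * l < n + 2 * X.dim) (hn2 : n ≤ 2 * l) (hind : StepIndep H X l n) :
    PhantomsZeroOn H X l := by
  by_contra hph
  obtain ⟨a, e, y, hl, hl1, ha, he, hee, hcle, hPe, heP, hy, hy0, hey⟩ :=
    exists_phantomOn h hT hph
  have hPy := act_of_phantom h hPe hey
  by_cases hac : 2 * l + 1 - n ≤ a
  · -- move down to the weight `0`
    have h0a : 0 ≠ a := by omega
    have hck := X308.S.IsCK.move h he hee hcle h0a hPe heP ha (by omega)
    have h1 := hind _ _ hck h
    have h2 : y ∈ ckFil C P l n := by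
      rw [← h1, hck.mem_ckFil]
      refine ⟨hy, fun j hj => ?_⟩
      have h3 := move_act h h0a hPe hey j
      rw [if_neg (by omega)] at h3
      exact h3
    rw [h.mem_ckFil] at h2
    have h3 := h2.2 a hac
    have h4 := hPy a
    rw [if_pos rfl] at h4
    exact hy0 (h4.symm.trans h3)
  · -- move up to the weight `2 l + 1 - n`
    have hja : 2 * l + 1 - n ≠ a := by omega
    have hck := X308.S.IsCK.move h he hee hcle hja hPe heP ha (by omega)
    have h1 := hind _ _ h hck
    have h2 : y ∈ ckFil C P l n := by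
      rw [h.mem_ckFil]
      refine ⟨hy, fun j hj => ?_⟩
      have h3 := hPy j
      rw [if_neg (by omega)] at h3
      exact h3
    rw [h1, hck.mem_ckFil] at h2
    have h3 := h2.2 (2 * l + 1 - n) le_rfl
    have h4 := move_act h hja hPe hey (2 * l + 1 - n)
    rw [if_pos rfl] at h4
    exact hy0 (h4.symm.trans h3)

/-- The step `F^n CH^l(X)`, for one `n`, is independent if and only if phantoms act trivially on
`CH^l(X)`, and then all steps are. -/
theorem stepIndep_iff {P : ℕ → Cor C X} (h : IsCK H X P) (hT : NoRaising C P) {l n : ℕ}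
    (hn1 : 2 * l < n + 2 * X.dim) (hn2 : n ≤ 2 * l) :
    StepIndep H X l n ↔ PhantomsZeroOn H X l := by
  refine ⟨phantomsOn_of_step h hT hn1 hn2, fun hph π π' hπ hπ' => ?_⟩
  rw [← le_of_phantomsOn h hT hph hπ n]
  exact le_of_phantomsOn h hT hph hπ' n

end Pool.Agent.Run7.H634.Mur
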