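import Pool.Agent.Run7.h634.Mur.SDefs

/-!
# Direct summands of motives of varieties: definitions
-/

set_option autoImplicit false

open CategoryTheory AlgebraicGeometry

universe u v w

namespace Pool.Agent.Run7.H634.Mur

open Pool.Agent.H914 Pool.Agent.H914.VarClass Pool.Agent.H914.VarClass.Obj Pool.Agent.W492.BB
  Pool.Agent.W550.Corr Pool.Agent.TH133

variable {k : Type u} [Field k] {𝒱 : VarClass k}

/-- The motive of `X` is a direct summand of the `n`-th Tate twist of the motive of `Y`: there are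
correspondences `a ∈ CH^(dim X - n)(X × Y)` and `b ∈ CH^(dim Y + n)(Y × X)` with `b ∘ a = Δ_X`. For
`n = 0` this is so if there is a surjective morphism from `Y` to `X`. -/
def IsSummandOf (C : TheoryData.{u, v, 0} 𝒱 ℚ) (X Y : 𝒱.Obj) (n : ℤ) : Prop :=
  ∃ (a : C.A (X.prod Y)) (b : C.A (Y.prod X)), C.Deg ((X.dim : ℤ) - n) a ∧
    C.Deg ((Y.dim : ℤ) + n) b ∧ C.comp a b = dg C X

end Pool.Agent.Run7.H634.Mur
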