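import Pool.Agent.TH133.Defs

/-!
# Murre's conjectures in one codimension: definitions
-/

set_option autoImplicit false

open CategoryTheory AlgebraicGeometry

universe u v w

namespace Pool.Agent.Run7.H634.Mur

open Pool.Agent.H914 Pool.Agent.H914.VarClass Pool.Agent.H914.VarClass.Obj Pool.Agent.W492.BB
  Pool.Agent.W550.Corr Pool.Agent.TH133

variable {k : Type u} [Field k] {𝒱 : VarClass k} {C : TheoryData.{u, v, 0} 𝒱 ℚ} {K : Type w}
  [Field K] (H : WeilTheoryData.{u, v, w} C K)

/-- Murre's conjecture (D) for `CH^l(X)` and all Chow-Kunneth decompositions of `X`: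
`F^1 CH^l(X)` is the group of homologically trivial cycles. -/
def MurreDIn (X : 𝒱.Obj) (l : ℕ) : Prop :=
  ∀ π, IsCK H X π → ∀ x : C.A X, x ∈ ckFil C π l 1 ↔ C.Deg l x ∧ H.cl x = 0

/-- The first half of Murre's conjecture (B) for `CH^l(X)` and all Chow-Kunneth decompositions:
`F^0 CH^l(X) = CH^l(X)`. -/
def MurreB0In (X : 𝒱.Obj) (l : ℕ) : Prop :=
  ∀ π, IsCK H X π → ckFil C π l 0 = C.gr X l

/-- The second half of Murre's conjecture (B) for `CH^l(X)` and all Chow-Kunneth decompositions: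
`F^(l+1) CH^l(X) = 0`. -/
def MurreB1In (X : 𝒱.Obj) (l : ℕ) : Prop :=
  ∀ π, IsCK H X π → ckFil C π l (l + 1) = ⊥

/-- The step `F^n CH^l(X)` is the same for all Chow-Kunneth decompositions. -/
def StepIndep (X : 𝒱.Obj) (l n : ℕ) : Prop :=
  ∀ π π', IsCK H X π → IsCK H X π' → ckFil C π l n = ckFil C π' l n

/-- The homologically trivial idempotent self-correspondences of degree zero of `X` act as zero on
`CH^l(X)`. -/
def PhantomsZeroOn (X : 𝒱.Obj) (l : ℕ) : Prop :=
  ∀ p : C.A (X.prod X), C.Deg X.dim p → C.comp p p = p → H.cl p = 0 →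
    ∀ x : C.A X, C.Deg l x → C.act p x = 0

end Pool.Agent.Run7.H634.Mur
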