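import Pool.Agent.Run7.h634.Mur.SDefs
import Pool.Agent.X308.S.TriMain
import Pool.Agent.X308.S.Good

/-!
# Strictly lowering Chow-Kunneth decompositions
-/

set_option autoImplicit false

open CategoryTheory AlgebraicGeometry

universe u v w

namespace Pool.Agent.Run7.H634.Mur

open Pool.Agent.H914 Pool.Agent.H914.VarClass Pool.Agent.H914.VarClass.Obj Pool.Agent.W492.BB
  Pool.Agent.W550.Corr Pool.Agent.TH133 Pool.Agent.X308.S

set_option linter.unusedSectionVars false

variable {k : Type u} [Field k] {𝒱 : VarClass k} {C : TheoryData.{u, v, 0} 𝒱 ℚ}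
  [hC : IsChowProj C] {K : Type w} [Field K]
  {H : WeilTheoryData.{u, v, w} C K} [hH : IsWeilProj H] {X Y Z W : 𝒱.Obj}

include hC hH

/-- The homologically trivial self-correspondences of degree zero. -/
def Triv (H : WeilTheoryData.{u, v, w} C K) [IsWeilProj H] (X : 𝒱.Obj) (γ : Cor C X) : Prop :=
  γ ∈ cor0 C X ∧ actH C X H γ = 0

lemma triv_iff {γ : Cor C X} (hγ : γ ∈ cor0 C X) :
    Triv H X γ ↔ H.cl (X := X.prod X) γ = 0 := by
  constructor
  · intro h
    apply hom_zero_of_act
    intro a
    exact LinearMap.congr_fun h.2 a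
  · intro h
    exact ⟨hγ, actH_of_cl h⟩

lemma Triv.mul_right {γ w : Cor C X} (h : Triv H X γ) (hw : w ∈ cor0 C X) :
    Triv H X (γ * w) := ⟨(cor0 C X).mul_mem h.1 hw, by rw [map_mul, h.2, zero_mul]⟩

lemma Triv.mul_left {γ w : Cor C X} (h : Triv H X γ) (hw : w ∈ cor0 C X) :
    Triv H X (w * γ) := ⟨(cor0 C X).mul_mem hw h.1, by rw [map_mul, h.2, mul_zero]⟩

lemma StrictFor.eq_zero {P : ℕ → Cor C X} (hs : StrictFor H P) {γ : Cor C X} (hγ : Triv H X γ)
    {a b : ℕ} (hab : a ≤ b) : P b * γ * P a = 0 := by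
  rw [mul_assoc]
  exact hs γ hγ.1 ((triv_iff hγ.1).1 hγ) a b hab

lemma sum_one {P : ℕ → Cor C X} (h : IsCK H X P) (N : ℕ) :
    ∑ i ∈ Finset.range (2 * X.dim + 1 + N), P i = 1 := X308.S.IsCK.sum_one h (by omega)

/-- Products of homologically trivial correspondences. -/
lemma StrictFor.prod_zero {P : ℕ → Cor C X} (h : IsCK H X P) (hs : StrictFor H P) :
    ∀ l : List (Cor C X), (∀ γ ∈ l, Triv H X γ) → ∀ a b : ℕ, a < b + l.length →
      P b * l.prod * P a = 0
  | [], _, a, b, hab => by
    rw [List.prod_nil, mul_one, h.mul_eq, if_neg (by simp at hab; omega)]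
  | γ :: l, hl, a, b, hab => by
    have h1 : P b * (γ :: l).prod * P a =
        ∑ c ∈ Finset.range (2 * X.dim + 1 + 0), (P b * γ * P c) * (P c * l.prod * P a) := by
      have h2 : ∀ c, (P b * γ * P c) * (P c * l.prod * P a) =
          P b * γ * P c * (l.prod * P a) := by
        intro c
        have h3 : P c * P c = P c := by rw [h.mul_eq, if_pos rfl]
        calc (P b * γ * P c) * (P c * l.prod * P a) = P b * γ * (P c * P c) * (l.prod * P a) := by
              simp only [mul_assoc]
          _ = P b * γ * P c * (l.prod * P a) := by rw [h3]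
      simp_rw [h2]
      rw [← Finset.sum_mul, ← Finset.mul_sum, sum_one h, mul_one, List.prod_cons]
      simp only [mul_assoc]
    rw [h1]
    apply Finset.sum_eq_zero
    intro c _
    by_cases hcb : c ≤ b
    · rw [hs.eq_zero (hl γ (List.mem_cons_self ..)) hcb, zero_mul]
    · rw [StrictFor.prod_zero h hs l (fun γ' hγ' => hl γ' (List.mem_cons_of_mem _ hγ')) a c
        (by simp at hab; omega), mul_zero]

lemma mul_expand {P : ℕ → Cor C X} (h : IsCK H X P) (x : Cor C X) :
    x = ∑ b ∈ Finset.range (2 * X.dim + 1), ∑ a ∈ Finset.range (2 * X.dim + 1),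
      P b * x * P a := by
  have h1 : ∑ i ∈ Finset.range (2 * X.dim + 1), P i = 1 := h.sum
  have h2 : ∀ b, ∑ a ∈ Finset.range (2 * X.dim + 1), P b * x * P a = P b * x := by
    intro b
    rw [← Finset.mul_sum, h1, mul_one]
  simp_rw [h2]
  rw [← Finset.sum_mul, h1, one_mul]

/-- Any product of `2 dim X + 1` homologically trivial correspondences vanishes. -/
lemma StrictFor.nil {P : ℕ → Cor C X} (h : IsCK H X P) (hs : StrictFor H P)
    (l : List (Cor C X)) (hl : ∀ γ ∈ l, Triv H X γ) (hn : 2 * X.dim + 1 ≤ l.length) :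
    l.prod = 0 := by
  rw [mul_expand h l.prod]
  apply Finset.sum_eq_zero
  intro b hb
  apply Finset.sum_eq_zero
  intro a ha
  rw [Finset.mem_range] at ha
  exact hs.prod_zero h l hl a b (by omega)

lemma compList_eq (l : List (Cor C X)) :
    (compList C X l : Cor C X) = (l.reverse).prod := by
  induction l with
  | nil => rfl
  | cons γ l ih =>
    rw [List.reverse_cons, List.prod_append, List.prod_singleton, ← ih]
    rfl

lemma StrictFor.nilpotent {P : ℕ → Cor C X} (h : IsCK H X P) (hs : StrictFor H P) :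
    NilpotentOfIndex H X (2 * X.dim + 1) := by
  have key : ∀ l : List (Cor C X), l.length = 2 * X.dim + 1 →
      (∀ γ ∈ l, γ ∈ cor0 C X ∧ H.cl (X := X.prod X) γ = 0) → l.reverse.prod = 0 := by
    intro l hn hl
    apply hs.nil h
    · intro γ hγ
      rw [List.mem_reverse] at hγ
      exact (triv_iff (hl γ hγ).1).2 (hl γ hγ).2
    · rw [List.length_reverse]
      exact hn.ge
  intro l hn hl
  exact (compList_eq (H := H) l).trans (key l hn hl)

/-- The intertwining unit between two decompositions. -/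
lemma exists_unit {P P' : ℕ → Cor C X} (h : IsCK H X P) (hs : StrictFor H P)
    (h' : IsCK H X P') :
    ∃ u v : Cor C X, u ∈ cor0 C X ∧ v ∈ cor0 C X ∧ u * v = 1 ∧ v * u = 1 ∧ Triv H X (u - 1) ∧
      Triv H X (v - 1) ∧ ∀ i, P' i = u * P i * v := by
  have hPm : ∀ i, P i ∈ cor0 C X := h.deg
  have hPm' : ∀ i, P' i ∈ cor0 C X := h'.deg
  let u : Cor C X := ∑ i ∈ Finset.range (2 * X.dim + 1), P' i * P i
  have hu : u ∈ cor0 C X := Subalgebra.sum_mem _ fun i _ => (cor0 C X).mul_mem (hPm' i) (hPm i)
  have huP : ∀ i, u * P i = P' i * P i := by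
    intro i
    by_cases hi : i < 2 * X.dim + 1
    · change (∑ j ∈ Finset.range (2 * X.dim + 1), P' j * P j) * P i = _
      rw [Finset.sum_mul, Finset.sum_eq_single i]
      · rw [mul_assoc, h.mul_eq, if_pos rfl]
      · intro j _ hj
        rw [mul_assoc, h.mul_eq, if_neg hj, mul_zero]
      · intro h1
        exact absurd (Finset.mem_range.2 hi) h1
    · have h0 : P i = 0 := h.out i (by omega)
      rw [h0, mul_zero, mul_zero]
  have hPu : ∀ i, P' i * u = P' i * P i := by
    intro i
    by_cases hi : i < 2 * X.dim + 1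
    · change P' i * (∑ j ∈ Finset.range (2 * X.dim + 1), P' j * P j) = _
      rw [Finset.mul_sum, Finset.sum_eq_single i]
      · rw [← mul_assoc, h'.mul_eq, if_pos rfl]
      · intro j _ hj
        rw [← mul_assoc, h'.mul_eq, if_neg (Ne.symm hj), zero_mul]
      · intro h1
        exact absurd (Finset.mem_range.2 hi) h1
    · have h0 : P' i = 0 := h'.out i (by omega)
      rw [h0, zero_mul, zero_mul]
  have hactu : actH C X H u = 1 := by
    apply ext_gr H
    intro m x hx
    have h1 : actH C X H u x =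
        ∑ i ∈ Finset.range (2 * X.dim + 1), actH C X H (P i) x := by
      change actH C X H (∑ i ∈ Finset.range (2 * X.dim + 1), P' i * P i) x = _
      rw [map_sum, LinearMap.sum_apply]
      apply Finset.sum_congr rfl
      intro i _
      rw [map_mul, Module.End.mul_apply, h.actH_eq' i m hx]
      split_ifs with hm
      · rw [h'.actH_eq' i m hx, if_pos hm]
      · rw [map_zero]
    rw [h1, ← LinearMap.sum_apply, ← map_sum, h.sum_eq, map_one]
  -- the inverse
  let N : Cor C X := 1 - u
  have hN : Triv H X N := ⟨(cor0 C X).sub_mem (cor0 C X).one_mem hu, by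
    change actH C X H (1 - u) = 0
    rw [map_sub, map_one, hactu, sub_self]⟩
  have hNn : N ^ (2 * X.dim + 1) = 0 := by
    rw [← List.prod_replicate]
    apply hs.nil h
    · intro γ hγ
      rw [List.eq_of_mem_replicate hγ]
      exact hN
    · rw [List.length_replicate]
  let v : Cor C X := ∑ i ∈ Finset.range (2 * X.dim + 1), N ^ i
  have hv : v ∈ cor0 C X := Subalgebra.sum_mem _ fun i _ => (cor0 C X).pow_mem hN.1 i
  have hNu : u = 1 - N := by
    change u = 1 - (1 - u)
    abel
  have huv : u * v = 1 := by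
    have h1 := mul_neg_geom_sum N (2 * X.dim + 1)
    rw [hNn, sub_zero] at h1
    rw [hNu]
    exact h1
  have hvu : v * u = 1 := by
    have h1 := geom_sum_mul_neg N (2 * X.dim + 1)
    rw [hNn, sub_zero] at h1
    rw [hNu]
    exact h1
  have hactv : actH C X H v = 1 := by
    have h1 : actH C X H (u * v) = 1 := by rw [huv, map_one]
    rwa [map_mul, hactu, one_mul] at h1
  refine ⟨u, v, hu, hv, huv, hvu, ⟨(cor0 C X).sub_mem hu (cor0 C X).one_mem, ?_⟩,
    ⟨(cor0 C X).sub_mem hv (cor0 C X).one_mem, ?_⟩, fun i => ?_⟩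
  · rw [map_sub, map_one, hactu, sub_self]
  · rw [map_sub, map_one, hactv, sub_self]
  · rw [huP, ← hPu, mul_assoc, huv, mul_one]

/-- Strictness for one decomposition implies strictness for all. -/
lemma StrictFor.all {P P' : ℕ → Cor C X} (h : IsCK H X P) (hs : StrictFor H P)
    (h' : IsCK H X P') : StrictFor H P' := by
  obtain ⟨u, v, hu, hv, huv, hvu, -, -, hP⟩ := exists_unit h hs h'
  have key : ∀ γ : Cor C X, Triv H X γ → ∀ a b : ℕ, a ≤ b → P' b * (γ * P' a) = 0 := by
    intro γ hγ a b hab
    have h1 : Triv H X (v * γ * u) := (hγ.mul_left hv).mul_right hu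
    rw [hP a, hP b]
    calc u * P b * v * (γ * (u * P a * v)) = u * (P b * (v * γ * u) * P a) * v := by
          simp only [mul_assoc]
      _ = 0 := by rw [hs.eq_zero h1 hab, mul_zero, zero_mul]
  intro γ hγ hcl a b hab
  exact key γ ((triv_iff (γ := γ) hγ).2 hcl) a b hab

lemma StrictFor.unique {P : ℕ → Cor C X} (h : IsCK H X P) (hs : StrictFor H P) :
    UniqueUpToConjugation H X := by
  intro π π' hπ hπ'
  have hs' := hs.all h hπ
  obtain ⟨u, v, hu, hv, huv, hvu, hu1, hv1, hP⟩ := exists_unit hπ hs' hπ'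
  refine ⟨u, v, hu, hv, hvu, huv, fun a => ?_, fun i => ?_⟩
  · have h1 : actH C X H u = 1 := by
      have h2 := hu1.2
      rwa [map_sub, map_one, sub_eq_zero] at h2
    exact LinearMap.congr_fun h1 a
  · refine (hP i).trans ?_
    exact mul_assoc u (π i : Cor C X) v

/-- Strictness implies (C). -/
lemma StrictFor.fil_le {P P' : ℕ → Cor C X} (h : IsCK H X P) (hs : StrictFor H P)
    (h' : IsCK H X P') (i n : ℕ) : ckFil C P i n ≤ ckFil C P' i n := by
  obtain ⟨u, v, hu, hv, huv, hvu, hu1, hv1, hP⟩ := exists_unit h hs h'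
  intro x hx
  rw [h.mem_ckFil] at hx
  rw [h'.mem_ckFil]
  have hact : ∀ (a b : Cor C X) (z : C.A X), actC C X (a * b) z = actC C X a (actC C X b z) :=
    fun a b z => by rw [map_mul]; rfl
  refine ⟨hx.1, fun j hj => ?_⟩
  change actC C X (P' j) x = 0
  have h1 : actC C X (P j * v) x = 0 := by
    have h2 : P j * v = P j + ∑ c ∈ Finset.range (2 * X.dim + 1 + 0), P j * (v - 1) * P c := by
      rw [← Finset.mul_sum, sum_one h, mul_one, mul_sub, mul_one]
      abel
    rw [h2, map_add, LinearMap.add_apply, map_sum, LinearMap.sum_apply]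
    have h3 : actC C X (P j) x = 0 := hx.2 j hj
    rw [h3, zero_add]
    apply Finset.sum_eq_zero
    intro c _
    by_cases hc : c ≤ j
    · rw [hs.eq_zero hv1 hc, map_zero, LinearMap.zero_apply]
    · have h4 : actC C X (P c) x = 0 := hx.2 c (by omega)
      rw [hact, h4, map_zero]
  rw [hP j, mul_assoc, hact, h1, map_zero]

lemma StrictFor.murreC {P : ℕ → Cor C X} (h : IsCK H X P) (hs : StrictFor H P) :
    MurreC H X := by
  intro π π' hπ hπ' i n
  exact le_antisymm ((hs.all h hπ).fil_le hπ hπ' i n) ((hs.all h hπ').fil_le hπ' hπ i n)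

/-- A homologically trivial component of large weight vanishes. -/
lemma StrictFor.comp_zero {P : ℕ → Cor C X} (h : IsCK H X P) (hs : StrictFor H P) {l j : ℕ}
    (hlj : 2 * l ≤ j) {x : C.A X} (hx : x ∈ C.gr X l) (hy : H.cl (C.act (P j) x) = 0) :
    C.act (P j) x = 0 := by
  by_cases hl : l ≤ X.dim
  swap
  · have h1 : x = 0 := hC.gr_top X l x hx (by omega)
    rw [h1, TheoryData.act_map_zero]
  obtain ⟨a, ha, b, hb, hab⟩ := exists_dual_pair (C := C) (H := H) X (l := l) hl
  set y := C.act (P j) x with hyd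
  have hym : y ∈ C.gr X l := act_mem0 C (h.deg j) hx
  -- the component of weight `2 l` of `a`
  set a' := C.act (P (2 * l)) a with ha'
  have ha'm : a' ∈ C.gr X l := act_mem0 C (h.deg (2 * l)) ha
  have hcl : H.cl a' = H.cl a := by
    rw [ha', cl_act]
    exact h.act_self (2 * l) _ (by
      have := H.cl_mem ha
      exact_mod_cast this)
  have hdeg : C.push (snd X X) (C.pull (fst X X) (b * a')) = 1 := by
    rw [← hab]
    apply deg_eq_of_cl (H := H)
    · have := C.mul_mem hb ha'm
      rwa [sub_add_cancel] at this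
    · have := C.mul_mem hb ha
      rwa [sub_add_cancel] at this
    · rw [map_mul, map_mul, hcl]
  set γ : Cor C X := C.ext b y with hγ
  have hγm : γ ∈ cor0 C X := by
    have := ext_mem (C := C) (H := H) hb hym
    rw [sub_add_cancel] at this
    exact this
  have hγcl : H.cl (X := X.prod X) γ = 0 := by
    have h1 : H.cl (X := X.prod X) (C.ext b y) = H.ext (H.cl b) (H.cl y) := by
      simp only [TheoryData.ext, map_mul, H.cl_pull]
    rw [hγ]
    refine h1.trans ?_
    rw [hy]
    simp only [TheoryData.ext, map_zero, mul_zero]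
  have hγt : Triv H X γ := (triv_iff hγm).2 hγcl
  have h1 : actC C X (P j * γ * P (2 * l)) a = y := by
    have h2 : C.act (X := X) (Y := X) γ a' = y := by
      rw [hγ]
      have h3 := act_ext (C := C) (H := H) b a' y
      rw [hdeg, one_mul] at h3
      exact h3
    have h4 : C.act (X := X) (Y := X) (P j) y = y := by
      rw [hyd, ← C.act_comp, h.idem]
    rw [map_mul, map_mul]
    change C.act (X := X) (Y := X) (P j) (C.act (X := X) (Y := X) γ a') = y
    rw [h2, h4]
  rw [hs.eq_zero hγt hlj, map_zero, LinearMap.zero_apply] at h1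
  exact h1.symm

lemma StrictFor.murreDFor {P : ℕ → Cor C X} (h : IsCK H X P) (hs : StrictFor H P) (l : ℕ) :
    MurreDFor H P l := by
  intro x
  constructor
  · intro hx
    refine ⟨?_, cl_of_mem_F1 h hx⟩
    rw [h.mem_ckFil] at hx
    exact hx.1
  · rintro ⟨hx, hcl⟩
    rw [h.mem_ckFil]
    refine ⟨hx, fun j hj => hs.comp_zero h (by omega) hx ?_⟩
    rw [cl_act, hcl, TheoryData.act_map_zero]

lemma StrictFor.murreD {P : ℕ → Cor C X} (h : IsCK H X P) (hs : StrictFor H P) :
    MurreD H X := fun _ hπ l => (hs.all h hπ).murreDFor hπ l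

lemma StrictFor.murreB0 {P : ℕ → Cor C X} (h : IsCK H X P) (hs : StrictFor H P) :
    MurreB0 H X := by
  rw [murreB0_iff]
  intro π hπ l j x hx hj
  refine (hs.all h hπ).comp_zero hπ (by omega) hx ?_
  rw [cl_act]
  exact hπ.act_ne j (2 * l) _ (by omega) (by
    have := H.cl_mem hx
    exact_mod_cast this)

/-- (D) for the one group `CH^d(X × X)` and one product decomposition is strictness. -/
lemma strictFor_iff {P : ℕ → Cor C X} (h : IsCK H X P) :
    MurreDFor H (prodCK C (dualCK C P) P) X.dim ↔ StrictFor H P := by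
  have hprod := h.dual.prod h
  constructor
  · intro hD γ hγ hcl a b hab
    by_cases ha : a ≤ 2 * X.dim
    · apply comp_zero_of_prod (H := H) h h ha
      have h1 := (hD γ).2 ⟨hγ, hcl⟩
      rw [hprod.mem_ckFil] at h1
      exact h1.2 _ (by omega)
    · rw [h.out a (by omega), zero_comp, zero_comp]
  · intro hs γ
    constructor
    · intro hx
      refine ⟨?_, cl_of_mem_F1 hprod hx⟩
      rw [hprod.mem_ckFil] at hx
      exact hx.1
    · rintro ⟨hγ, hcl⟩
      rw [hprod.mem_ckFil]
      refine ⟨hγ, fun m hm => ?_⟩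
      unfold prodCK
      rw [act_sum]
      apply Finset.sum_eq_zero
      intro i hi
      rw [Finset.mem_range] at hi
      rw [act_tens C (ch_comm C)]
      by_cases hi2 : i ≤ 2 * X.dim
      · have h3 : tp C (dualCK C P i) = P (2 * X.dim - i) := by
          unfold dualCK
          rw [if_pos hi2, tp_tp]
        rw [h3]
        exact hs γ hγ hcl _ _ (by omega)
      · have h3 : dualCK C P i = 0 := by
          unfold dualCK
          rw [if_neg hi2]
        rw [h3]
        have h4 : tp C (0 : C.A (X.prod X)) = 0 := map_zero _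
        rw [h4, zero_comp, zero_comp]

end Pool.Agent.Run7.H634.Mur
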