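import Pool.Agent.Run7.h634.Mur.FD
import Pool.Agent.Run7.h634.Mur.Strict
import Pool.Agent.Run7.h634.Mur.Codim

/-!
# Strict decompositions and direct summands
-/

set_option autoImplicit false

open CategoryTheory AlgebraicGeometry

universe u v w

namespace Pool.Agent.Run7.H634.Mur

open Pool.Agent.H914 Pool.Agent.H914.VarClass Pool.Agent.H914.VarClass.Obj Pool.Agent.W492.BB
  Pool.Agent.W550.Corr Pool.Agent.TH133 Pool.Agent.X308.S Pool.Agent.Y148.BB

set_option linter.unusedSectionVars false

variable {k : Type u} [Field k] {𝒱 : VarClass k} {C : TheoryData.{u, v, 0} 𝒱 ℚ}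
  [hC : IsChowProj C] {K : Type w} [Field K]
  {H : WeilTheoryData.{u, v, w} C K} [hH : IsWeilProj H] {X Y Z W N : 𝒱.Obj}

include hC hH

/-- Decompositions of an idempotent. -/
lemma exists_q {P : ℕ → Cor C N} (hP : IsCK H N P) (hs : StrictFor H P) {f : Cor C N}
    (hf : f ∈ cor0 C N) (hff : f * f = f) :
    ∃ q : ℕ → Cor C N, (∀ i, q i ∈ cor0 C N) ∧ (∀ i, 2 * N.dim + 1 ≤ i → q i = 0) ∧
      (∀ i j, q i * q j = if i = j then q i else 0) ∧
      (∑ i ∈ Finset.range (2 * N.dim + 1), q i = f) ∧
      (∀ i, i < 2 * N.dim + 1 → actH C N H (q i) = actH C N H f * actH C N H (P i)) := by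
  have hPm : ∀ i, P i ∈ cor0 C N := hP.deg
  let φ : cor0 C N →+* Module.End K (H.A N) := (actH C N H).comp ((cor0 C N).val : _ →+* _)
  have hφ : ∀ x : cor0 C N, φ x = actH C N H (x : Cor C N) := fun x => rfl
  have hnil : ∀ x, φ x = 0 → IsNilpotent x := by
    intro x hx
    refine ⟨2 * N.dim + 1, Subtype.ext ?_⟩
    change (x : Cor C N) ^ (2 * N.dim + 1) = 0
    rw [← List.prod_replicate]
    apply hs.nil hP
    · intro γ hγ
      rw [List.eq_of_mem_replicate hγ]
      exact ⟨x.2, hx⟩
    · rw [List.length_replicate]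
  obtain ⟨q0, hq0, hq1, hq2, hq3⟩ := exists_lift φ hnil (f := ⟨f, hf⟩) (Subtype.ext hff)
    (2 * N.dim + 1) (fun i => ⟨P i, hPm i⟩)
    (fun i j => by
      rw [← map_mul]
      have h5 : (⟨P i, hPm i⟩ * ⟨P j, hPm j⟩ : cor0 C N) = if i = j then ⟨P i, hPm i⟩ else 0 := by
        apply Subtype.ext
        change P i * P j = _
        rw [hP.mul_eq]
        split_ifs
        · rfl
        · rfl
      rw [h5]
      split_ifs
      · rfl
      · rw [map_zero])
    (fun i => by
      rw [hφ, hφ]
      apply ext_gr H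
      intro m x hx
      rw [Module.End.mul_apply, Module.End.mul_apply, hP.actH_eq' i m hx,
        hP.actH_eq' i m (actH_mem0 hf hx)]
      split_ifs
      · rfl
      · rw [map_zero])
    (by
      have h5 : ∀ i, φ ⟨P i, hPm i⟩ = actH C N H (P i) := fun i => rfl
      simp_rw [h5]
      rw [← map_sum, hP.sum_eq, map_one])
  refine ⟨fun i => (q0 i : Cor C N), fun i => (q0 i).2, fun i hi => ?_, fun i j => ?_, ?_,
    fun i hi => hq3 i hi⟩
  · change ((q0 i : cor0 C N) : Cor C N) = 0
    rw [hq0 i hi]
    rfl
  · have h5 := congrArg (fun x : cor0 C N => (x : Cor C N)) (hq1 i j)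
    change (q0 i : Cor C N) * (q0 j : Cor C N) =
      ((if i = j then q0 i else 0 : cor0 C N) : Cor C N) at h5
    rw [h5]
    split_ifs
    · rfl
    · rfl
  · have h5 := congrArg (fun x : cor0 C N => (cor0 C N).val x) hq2
    change (cor0 C N).val (∑ i ∈ Finset.range (2 * N.dim + 1), q0 i) = f at h5
    rw [map_sum] at h5
    exact h5

/-- A Chow-Kunneth decomposition compatible with an idempotent. -/
lemma exists_compatible {P : ℕ → Cor C N} (hP : IsCK H N P) (hs : StrictFor H P) {f : Cor C N}
    (hf : f ∈ cor0 C N) (hff : f * f = f) :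
    ∃ Q : ℕ → Cor C N, IsCK H N Q ∧ ∀ i, Q i * f = f * Q i := by
  obtain ⟨q, a1, a2, a3, a4, a5⟩ := exists_q hP hs hf hff
  have hg : 1 - f ∈ cor0 C N := (cor0 C N).sub_mem (cor0 C N).one_mem hf
  have hgg : (1 - f) * (1 - f) = 1 - f := by
    rw [mul_sub, mul_one, sub_mul, one_mul, hff, sub_self, sub_zero]
  obtain ⟨r, b1, b2, b3, b4, b5⟩ := exists_q hP hs hg hgg
  have hqf : ∀ i, q i * f = q i ∧ f * q i = q i := fun i =>
    dec_absorb (H := H) (X := N) (p := f) (π := q) (fun i hi => a2 i (by omega)) a3 a4 i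
  have hrf : ∀ i, r i * (1 - f) = r i ∧ (1 - f) * r i = r i := fun i =>
    dec_absorb (H := H) (X := N) (p := 1 - f) (π := r) (fun i hi => b2 i (by omega)) b3 b4 i
  have hfr : ∀ i, f * r i = 0 := by
    intro i
    rw [← (hrf i).2, ← mul_assoc, mul_sub, mul_one, hff, sub_self, zero_mul]
  have hrf0 : ∀ i, r i * f = 0 := by
    intro i
    rw [← (hrf i).1, mul_assoc, sub_mul, one_mul, hff, sub_self, mul_zero]
  have hqr : ∀ i j, q i * r j = 0 := by
    intro i j
    rw [← (hqf i).1, mul_assoc, hfr, mul_zero]
  have hrq : ∀ i j, r i * q j = 0 := by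
    intro i j
    rw [← (hqf j).2, ← mul_assoc, hrf0, zero_mul]
  refine ⟨fun i => q i + r i, ?_, fun i => ?_⟩
  · apply isCK_of
    · intro i
      exact (cor0 C N).add_mem (a1 i) (b1 i)
    · intro i hi
      change q i + r i = 0
      rw [a2 i (by omega), b2 i (by omega), add_zero]
    · intro i j
      change (q i + r i) * (q j + r j) = if i = j then q i + r i else 0
      rw [add_mul, mul_add, mul_add, hqr, hrq, a3, b3]
      split_ifs
      · abel
      · abel
    · rw [Finset.sum_add_distrib, a4, b4]
      abel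
    · intro i m a ha
      change actH C N H (q i + r i) a = _
      by_cases hi : i < 2 * N.dim + 1
      · rw [map_add, a5 i hi, b5 i hi, ← add_mul, ← map_add, add_sub_cancel, map_one, one_mul,
          hP.actH_eq' i m ha]
      · rw [a2 i (by omega), b2 i (by omega), add_zero, map_zero, LinearMap.zero_apply]
        have h1 := hP.actH_eq' i m ha
        have h2 : P i = 0 := hP.out i (by omega)
        rw [h2, map_zero, LinearMap.zero_apply] at h1
        exact h1
  · change (q i + r i) * f = f * (q i + r i)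
    rw [add_mul, mul_add, (hqf i).1, (hqf i).2, hrf0, hfr]

variable {a : C.A (X.prod N)} {b : C.A (N.prod X)}

/-- **Direct summands of varieties with a strict decomposition.** -/
theorem dominated {n : ℤ} (ha : C.Deg ((X.dim : ℤ) - n) a) (hb : C.Deg ((N.dim : ℤ) + n) b)
    (hab : C.comp a b = dg C X) {P : ℕ → Cor C N} (hP : IsCK H N P) (hs : StrictFor H P) :
    ∃ π : ℕ → Cor C X, IsCK H X π ∧ StrictFor H π ∧
      (MurreB1 H N → 0 ≤ n → ∀ (i j : ℕ) (x : C.A X), x ∈ C.gr X i → j < i →
        actC C X (π j) x = 0) := by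
  set f : Cor C N := cc b a with hf
  have hfm : f ∈ cor0 C N := comp_deg hb ha (by ring)
  have hff : f * f = f := by
    change C.comp (C.comp b a) (C.comp b a) = C.comp b a
    rw [comp_assoc C, ← comp_assoc C a, hab, dg_comp]
  obtain ⟨Q, hQ, hQf⟩ := exists_compatible hP hs hfm hff
  have hsQ := hs.all hP hQ
  have hQm : ∀ i, Q i ∈ cor0 C N := hQ.deg
  have hbf : C.comp b (dg C X) = b := comp_dg C b
  -- the members
  let t : ℕ → Cor C X := fun j => thr a b (Q j)
  have htm : ∀ j, t j ∈ cor0 C X := fun j => thr_mem ha hb (hQm j)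
  have hleft : ∀ g : Cor C N, thr a b (f * g) = thr a b g := by
    intro g
    change C.comp (C.comp a (C.comp g (C.comp b a))) b = C.comp (C.comp a g) b
    simp only [comp_assoc C]
    rw [hab, comp_dg]
  have htt : ∀ i j, t i * t j = if i = j then t i else 0 := by
    intro i j
    change thr a b (Q i) * thr a b (Q j) = _
    rw [thr_mul, ← hf, hQf, mul_assoc, hleft, hQ.mul_eq]
    split_ifs
    · rfl
    · exact thr_zero
  have htsum : ∑ j ∈ Finset.range (2 * N.dim + 1), t j = 1 := by
    change ∑ j ∈ Finset.range (2 * N.dim + 1), thr a b (Q j) = _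
    rw [← thr_sum, hQ.sum_eq, thr_one]
    exact hab
  have htact : ∀ (j : ℕ) (m : ℤ) (x : H.A X), x ∈ H.gr X m →
      actH C X H (t j) x = if m = j + 2 * n then x else 0 := by
    intro j m x hx
    have hax : H.act (H.cl a) x ∈ H.gr N (m - 2 * n) := actH_deg (H := H) ha hx (by ring)
    change actH C X H (thr a b (Q j)) x = _
    rw [actH_thr, hQ.actH_eq' j _ hax]
    by_cases hm : m = j + 2 * n
    · rw [if_pos (by omega), if_pos hm, ← actH_comp, hab, actH_dg]
    · rw [if_neg (by omega), if_neg hm]
      exact TheoryData.act_map_zero _ _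
  have htout : ∀ j, 2 * N.dim < j → t j = 0 := fun j hj => by
    have h1 : Q j = 0 := hQ.out j hj
    change thr a b (Q j) = 0
    rw [h1, thr_zero]
  -- strictness of the members
  have htstrict : ∀ γ : Cor C X, Triv H X γ → ∀ i j : ℕ, i ≤ j → t j * γ * t i = 0 := by
    intro γ hγ i j hij
    have h1 : t j * γ * t i = thr a b (Q j * (cc (C.comp b γ) a) * Q i) := by
      change C.comp (C.comp (C.comp a (Q i)) b) (C.comp γ (C.comp (C.comp a (Q j)) b)) =
        C.comp (C.comp a (C.comp (Q i) (C.comp (C.comp (C.comp b γ) a) (Q j)))) b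
      simp only [comp_assoc C]
    have h2 : Triv H N (cc (C.comp b γ) a) := by
      refine ⟨comp_deg (comp_deg hb hγ.1 rfl) ha (by ring), ?_⟩
      apply LinearMap.ext
      intro y
      rw [LinearMap.zero_apply]
      change H.act (H.cl (C.comp (C.comp b γ) a)) y = 0
      rw [actH_comp, actH_comp]
      have h3 : H.act (X := X) (Y := X) (H.cl (X := X.prod X) γ) (H.act (H.cl b) y) = 0 :=
        LinearMap.congr_fun hγ.2 _
      rw [h3]
      exact TheoryData.act_map_zero _ _
    rw [h1, hsQ.eq_zero h2 hij, thr_zero]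
  -- members of impossible weights vanish
  have htzero : ∀ j : ℕ, (j : ℤ) + 2 * n < 0 ∨ 2 * (X.dim : ℤ) < j + 2 * n → t j = 0 := by
    intro j hj
    have h5 : Triv H X (t j) := by
      refine ⟨htm j, ?_⟩
      apply ext_gr H
      intro m x hx
      rw [htact j m x hx, LinearMap.zero_apply]
      split_ifs with hm
      · rcases hj with hj | hj
        · exact hgr_neg hx (by omega)
        · rw [gr_top H (i := m) (by omega)] at hx
          exact (Submodule.mem_bot _).1 hx
      · rfl
    have h6 := htstrict (t j) h5 j j le_rfl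
    have h7 := htt j j
    rw [if_pos rfl] at h7
    rw [h7, h7] at h6
    exact h6
  -- the decomposition
  let π : ℕ → Cor C X := fun m => if 0 ≤ (m : ℤ) - 2 * n then t ((m : ℤ) - 2 * n).toNat else 0
  have hπ1 : ∀ m : ℕ, ∀ j : ℕ, (m : ℤ) = j + 2 * n → π m = t j := by
    intro m j hmj
    change (if 0 ≤ (m : ℤ) - 2 * n then t ((m : ℤ) - 2 * n).toNat else 0) = t j
    rw [if_pos (by omega)]
    congr 1
    omega
  have hπ0 : ∀ m : ℕ, (m : ℤ) - 2 * n < 0 → π m = 0 := by
    intro m hm
    change (if 0 ≤ (m : ℤ) - 2 * n then t ((m : ℤ) - 2 * n).toNat else 0) = 0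
    rw [if_neg (by omega)]
  have hcases : ∀ m : ℕ, (∃ j : ℕ, (m : ℤ) = j + 2 * n) ∨ (m : ℤ) - 2 * n < 0 := by
    intro m
    by_cases hm : 0 ≤ (m : ℤ) - 2 * n
    · exact Or.inl ⟨((m : ℤ) - 2 * n).toNat, by omega⟩
    · exact Or.inr (by omega)
  have hck : IsCK H X π := by
    apply isCK_of
    · intro m
      rcases hcases m with ⟨j, hj⟩ | hm
      · rw [hπ1 m j hj]
        exact htm j
      · rw [hπ0 m hm]
        exact (cor0 C X).zero_mem
    · intro m hm
      rcases hcases m with ⟨j, hj⟩ | hm'
      · rw [hπ1 m j hj]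
        exact htzero j (Or.inr (by omega))
      · exact hπ0 m hm'
    · intro m m'
      rcases hcases m with ⟨j, hj⟩ | hm
      · rcases hcases m' with ⟨j', hj'⟩ | hm'
        · rw [hπ1 m j hj, hπ1 m' j' hj', htt]
          by_cases hmm : m = m'
          · rw [if_pos (by omega), if_pos hmm]
          · rw [if_neg (by omega), if_neg hmm]
        · rw [hπ0 m' hm', mul_zero, if_neg (by rintro rfl; omega)]
      · rw [hπ0 m hm, zero_mul]
        split_ifs
        · rfl
        · rfl
    · rw [← htsum]
      have h1 : ∀ m ∈ Finset.range (2 * X.dim + 1), π m = ∑ j ∈ Finset.range (2 * N.dim + 1),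
          if (m : ℤ) = j + 2 * n then t j else 0 := by
        intro m _
        rcases hcases m with ⟨j, hj⟩ | hm
        · rw [hπ1 m j hj]
          by_cases hjN : j < 2 * N.dim + 1
          · rw [Finset.sum_eq_single j]
            · rw [if_pos hj]
            · intro j' _ hj'
              rw [if_neg (by omega)]
            · intro h6
              exact absurd (Finset.mem_range.2 hjN) h6
          · rw [htout j (by omega), Finset.sum_eq_zero]
            intro j' hj'
            rw [Finset.mem_range] at hj'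
            rw [if_neg (by omega)]
        · rw [hπ0 m hm, Finset.sum_eq_zero]
          intro j' _
          rw [if_neg (by omega)]
      rw [Finset.sum_congr rfl h1, Finset.sum_comm]
      apply Finset.sum_congr rfl
      intro j _
      by_cases hj : (j : ℤ) + 2 * n < 0 ∨ 2 * (X.dim : ℤ) < j + 2 * n
      · rw [htzero j hj]
        apply Finset.sum_eq_zero
        intro m _
        split_ifs
        · rfl
        · rfl
      · rw [Finset.sum_eq_single ((j : ℤ) + 2 * n).toNat]
        · rw [if_pos (by omega)]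
        · intro m _ hm
          rw [if_neg (by omega)]
        · intro h6
          exact absurd (Finset.mem_range.2 (by omega)) h6
    · intro i m x hx
      rcases hcases i with ⟨j, hj⟩ | hi
      · rw [hπ1 i j hj, htact j m x hx, hj]
      · rw [hπ0 i hi, map_zero, LinearMap.zero_apply]
        split_ifs with hm
        · -- `H^i(X)` injects into `H^(i - 2 n)(N) = 0`
          have hax : H.act (H.cl a) x ∈ H.gr N (m - 2 * n) :=
            actH_deg (H := H) ha hx (by ring)
          have hax0 : H.act (H.cl a) x = 0 := hgr_neg hax (by omega)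
          have h7 : x = H.act (H.cl b) (H.act (H.cl a) x) := by
            rw [← actH_comp, hab, actH_dg]
          rw [h7, hax0]
          exact (TheoryData.act_map_zero _ _).symm
        · rfl
  have hstr : ∀ γ : Cor C X, Triv H X γ → ∀ i j : ℕ, i ≤ j → π j * (γ * π i) = 0 := by
    intro γ hγt i j hij
    rw [← mul_assoc]
    rcases hcases j with ⟨j', hj'⟩ | hj
    · rcases hcases i with ⟨i', hi'⟩ | hi
      · rw [hπ1 j j' hj', hπ1 i i' hi']
        exact htstrict γ hγt i' j' (by omega)
      · rw [hπ0 i hi, mul_zero]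
    · rw [hπ0 j hj, zero_mul, zero_mul]
  refine ⟨π, hck, ?_, ?_⟩
  · intro γ hγ hcl i j hij
    exact hstr γ ((triv_iff (γ := γ) hγ).2 hcl) i j hij
  · intro hB hn i j x hx hji
    rcases hcases j with ⟨j', hj'⟩ | hj
    · rw [hπ1 j j' hj']
      have hax : C.act a x ∈ C.gr N (i - n) := act_deg ha hx (by ring)
      by_cases hin : 0 ≤ (i : ℤ) - n
      · obtain ⟨l, hl⟩ := Int.eq_ofNat_of_zero_le hin
        rw [hl] at hax
        have h1 : actC C N (Q j') (C.act a x) = 0 := by
          have h2 : actC C N (Q j') (C.act a x) ∈ ckFil C Q l (l + 1) := by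
            rw [hQ.mem_ckFil]
            refine ⟨actC_mem (H := H) (hQm j') hax, fun c hc => ?_⟩
            change actC C N (Q c) (actC C N (Q j') (C.act a x)) = 0
            rw [← Module.End.mul_apply, ← map_mul, hQ.mul_eq, if_neg (by omega), map_zero,
              LinearMap.zero_apply]
          rw [hB Q hQ l] at h2
          exact (Submodule.mem_bot _).1 h2
        change C.act (C.comp (C.comp a (Q j')) b) x = 0
        rw [C.act_comp, C.act_comp]
        have h3 : C.act (X := N) (Y := N) (Q j') (C.act a x) = 0 := h1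
        rw [h3]
        exact TheoryData.act_map_zero _ _
      · have hax0 : C.act a x = 0 := zero_of_neg hax (by omega)
        change C.act (C.comp (C.comp a (Q j')) b) x = 0
        rw [C.act_comp, C.act_comp, hax0]
        have h3 : C.act (X := N) (Y := N) (Q j') (0 : C.A N) = 0 := TheoryData.act_map_zero _ _
        rw [h3]
        exact TheoryData.act_map_zero _ _
    · rw [hπ0 j hj, map_zero, LinearMap.zero_apply]

end Pool.Agent.Run7.H634.Mur
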