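import Pool.Agent.Run7.h634.Mur.DDefs
import Pool.Agent.Run7.h634.Mur.Dom

/-!
# Murre's conjectures for dominated varieties
-/

set_option autoImplicit false

open CategoryTheory AlgebraicGeometry

universe u v w

namespace Pool.Agent.Run7.H634.Mur

open Pool.Agent.H914 Pool.Agent.H914.VarClass Pool.Agent.H914.VarClass.Obj Pool.Agent.W492.BB
  Pool.Agent.W550.Corr Pool.Agent.TH133 Pool.Agent.X308.S

set_option linter.unusedSectionVars false

variable {k : Type u} [Field k] {𝒱 : VarClass k} {C : TheoryData.{u, v, 0} 𝒱 ℚ}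
  [hC : IsChowProj C] {K : Type w} [Field K]
  {H : WeilTheoryData.{u, v, w} C K} [hH : IsWeilProj H] {X Y : 𝒱.Obj}

include hC hH

theorem dominated_main {n : ℤ} (h : IsSummandOf C X Y n) (ρ : ℕ → C.A (Y.prod Y))
    (hρ : IsCK H Y ρ) (hD : MurreDFor H (squareCK ρ) Y.dim) :
    (∃ π : ℕ → C.A (X.prod X), IsCK H X π) ∧
      (∀ π : ℕ → C.A (X.prod X), IsCK H X π → MurreDFor H (squareCK π) X.dim) ∧
      MurreD H X ∧ MurreB0 H X ∧ MurreC H X ∧ UniqueUpToConjugation H X ∧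
      NilpotentOfIndex H X (2 * X.dim + 1) ∧ (0 ≤ n → MurreB1 H Y → MurreB1 H X) := by
  obtain ⟨a, b, ha, hb, hab⟩ := h
  obtain ⟨π, hπ, hs, hB⟩ := dominated (H := H) (P := ρ) ha hb hab hρ ((strictFor_iff hρ).1 hD)
  refine ⟨⟨π, hπ⟩, fun π' hπ' => (strictFor_iff hπ').2 (hs.all hπ hπ'), hs.murreD hπ,
    hs.murreB0 hπ, hs.murreC hπ, hs.unique hπ, hs.nilpotent hπ, fun hn hB1 π' hπ' i => ?_⟩
  rw [hs.murreC hπ π' π hπ' hπ i (i + 1), eq_bot_iff]
  intro x hx
  have hx' := ((IsCK.mem_ckFil hπ i (i + 1) x).1 hx)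
  rw [Submodule.mem_bot]
  have h1 : x = ∑ j ∈ Finset.range (2 * X.dim + 1), actC C X (π j) x := by
    rw [← LinearMap.sum_apply, ← map_sum, hπ.sum_eq, map_one]
    rfl
  rw [h1]
  apply Finset.sum_eq_zero
  intro j _
  by_cases hj : i ≤ j
  · exact hx'.2 j (by omega)
  · exact hB hB1 hn i j x hx'.1 (by omega)

end Pool.Agent.Run7.H634.Mur
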