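import Mathlib

/-!
# Idempotents from algebraic elements, and lifting of idempotents below a given one
-/

set_option autoImplicit false

namespace Pool.Agent.Run7.H634.Mur

open Polynomial

/-- An algebraic element `c` has an idempotent `e = c r` with `1 - e = (1 - c) r'`, all polynomials
in `c`. -/
lemma exists_idem_of_alg {R : Type*} [Ring R] [Algebra ℚ R] (c : R) {f : ℚ[X]} (hf : f ≠ 0)
    (hc : aeval c f = 0) : ∃ e r r' : R, e ∈ Algebra.adjoin ℚ {c} ∧ r ∈ Algebra.adjoin ℚ {c} ∧
      r' ∈ Algebra.adjoin ℚ {c} ∧ e * e = e ∧ e = c * r ∧ 1 - e = (1 - c) * r' := by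
  obtain ⟨g, hg, hg0⟩ := exists_eq_pow_rootMultiplicity_mul_and_not_dvd f hf 0
  set k := f.rootMultiplicity 0 with hk
  rw [C_0, sub_zero] at hg hg0
  have hcop : IsCoprime ((X : ℚ[X]) ^ (k + 1)) g := by
    apply IsCoprime.pow_left
    exact (Irreducible.coprime_iff_not_dvd irreducible_X).2 hg0
  obtain ⟨u, v, huv⟩ := hcop
  let E : ℚ[X] := u * X ^ (k + 1)
  have hmem : ∀ h : ℚ[X], aeval c h ∈ Algebra.adjoin ℚ {c} := fun h =>
    aeval_mem_adjoin_singleton ℚ c
  have h1E : 1 - E = v * g := by rw [← huv]; simp only [E]; ring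
  have hEE : aeval c (E * (1 - E)) = 0 := by
    have h1 : E * (1 - E) = (u * v * X) * f := by
      rw [h1E, hg]; simp only [E]; ring
    rw [h1, map_mul, hc, mul_zero]
  have hXk : aeval c ((1 - E) * X ^ k) = 0 := by
    have h1 : (1 - E) * X ^ k = v * f := by rw [h1E, hg]; ring
    rw [h1, map_mul, hc, mul_zero]
  refine ⟨aeval c E, aeval c (u * X ^ k), aeval c ((1 - E) * ∑ i ∈ Finset.range k, X ^ i),
    hmem _, hmem _, hmem _, ?_, ?_, ?_⟩
  · rw [mul_sub, mul_one, map_sub, sub_eq_zero, map_mul (aeval c) E E] at hEE
    exact hEE.symm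
  · have h1 : E = X * (u * X ^ k) := by simp only [E]; ring
    conv_lhs => rw [h1]
    rw [map_mul, aeval_X]
  · have h1 : (1 : R) - c = aeval c (1 - X : ℚ[X]) := by rw [map_sub, map_one, aeval_X]
    have h2 : (1 : R) - aeval c E = aeval c (1 - E) := by rw [map_sub, map_one]
    rw [h1, h2, ← map_mul, ← sub_eq_zero, ← map_sub]
    have h3 : (1 - E) - (1 - X) * ((1 - E) * ∑ i ∈ Finset.range k, X ^ i) =
        (1 - E) * X ^ k := by
      have h4 := mul_neg_geom_sum (X : ℚ[X]) k
      linear_combination (-(1 - E)) * h4
    rw [h3]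
    exact hXk

/-- Lifting of orthogonal idempotents below a given idempotent. -/
lemma exists_lift {R S : Type*} [Ring R] [Ring S] (φ : R →+* S)
    (hnil : ∀ x, φ x = 0 → IsNilpotent x) {f : R} (hf : f * f = f) (n : ℕ) (ρ : ℕ → R)
    (hmul : ∀ i j, φ (ρ i) * φ (ρ j) = if i = j then φ (ρ i) else 0)
    (hcomm : ∀ i, φ (ρ i) * φ f = φ f * φ (ρ i))
    (hsum : ∑ i ∈ Finset.range n, φ (ρ i) = 1) :
    ∃ q : ℕ → R, (∀ i, n ≤ i → q i = 0) ∧ (∀ i j, q i * q j = if i = j then q i else 0) ∧
      (∑ i ∈ Finset.range n, q i = f) ∧ (∀ i, i < n → φ (q i) = φ f * φ (ρ i)) := by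
  have key : ∀ m ≤ n, ∃ q : ℕ → R, (∀ i, m ≤ i → q i = 0) ∧
      (∀ i j, q i * q j = if i = j then q i else 0) ∧
      (∀ i, (1 - f) * q i = 0) ∧ (∀ i, q i * (1 - f) = 0) ∧
      (∀ i, i < m → φ (q i) = φ f * φ (ρ i)) := by
    intro m
    induction m with
    | zero =>
      intro _
      exact ⟨fun _ => 0, fun _ _ => rfl, fun i j => by simp, fun i => by simp, fun i => by simp,
        fun i hi => absurd hi (Nat.not_lt_zero i)⟩
    | succ m ih =>
      intro hm
      obtain ⟨q, h1, h2, h3, h4, h5⟩ := ih (by omega)
      -- the idempotent to be avoided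
      let g : R := (1 - f) + ∑ i ∈ Finset.range m, q i
      have hqs : ∀ i, q i * ∑ j ∈ Finset.range m, q j = q i := by
        intro i
        rw [Finset.mul_sum]
        by_cases hi : i < m
        · rw [Finset.sum_eq_single i]
          · rw [h2, if_pos rfl]
          · intro j _ hj
            rw [h2, if_neg (Ne.symm hj)]
          · intro h6
            exact absurd (Finset.mem_range.2 hi) h6
        · rw [h1 i (by omega)]
          simp
      have hff : (1 - f) * (1 - f) = 1 - f := by
        rw [mul_sub, mul_one, sub_mul, one_mul, hf, sub_self, sub_zero]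
      have hg : g * g = g := by
        simp only [g]
        rw [add_mul, mul_add, mul_add, hff, Finset.sum_mul, Finset.mul_sum, Finset.sum_mul,
          Finset.sum_congr rfl (fun i _ => h3 i), Finset.sum_congr rfl (fun i _ => h4 i),
          Finset.sum_congr rfl (fun i _ => hqs i)]
        simp
      have he1 : (φ f * φ (ρ m)) * φ g = 0 := by
        simp only [g]
        rw [map_add, map_sub, map_one, map_sum, mul_add, mul_sub, mul_one, Finset.mul_sum]
        have h6 : φ f * φ (ρ m) * φ f = φ f * φ (ρ m) := by
          rw [mul_assoc, hcomm, ← mul_assoc, ← map_mul, hf]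
        rw [h6, sub_self, zero_add]
        apply Finset.sum_eq_zero
        intro i hi
        rw [Finset.mem_range] at hi
        rw [h5 i hi, ← mul_assoc, h6, mul_assoc, hmul, if_neg (by omega), mul_zero]
      have he2 : φ g * (φ f * φ (ρ m)) = 0 := by
        simp only [g]
        rw [map_add, map_sub, map_one, map_sum, add_mul, sub_mul, one_mul, Finset.sum_mul]
        have h6 : φ f * (φ f * φ (ρ m)) = φ f * φ (ρ m) := by
          rw [← mul_assoc, ← map_mul, hf]
        rw [h6, sub_self, zero_add]
        apply Finset.sum_eq_zero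
        intro i hi
        rw [Finset.mem_range] at hi
        rw [h5 i hi, ← hcomm, mul_assoc, h6, ← hcomm, ← mul_assoc, hmul, if_neg (by omega),
          zero_mul]
      have hee : IsIdempotentElem (φ f * φ (ρ m)) := by
        change φ f * φ (ρ m) * (φ f * φ (ρ m)) = φ f * φ (ρ m)
        have h6 : φ f * φ (ρ m) * φ f = φ f * φ (ρ m) := by
          rw [mul_assoc, hcomm, ← mul_assoc, ← map_mul, hf]
        rw [← mul_assoc, h6, mul_assoc, hmul, if_pos rfl]
      obtain ⟨e', ha, hb, hc, hd⟩ := exists_isIdempotentElem_mul_eq_zero_of_ker_isNilpotent φ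
        (fun x hx => hnil x hx) (φ f * φ (ρ m)) ⟨f * ρ m, by rw [map_mul]⟩ hee g hg he1 he2
      have hqg : ∀ i, i < m → q i * g = q i := by
        intro i _
        simp only [g]
        rw [mul_add, h4, zero_add, hqs]
      have hgq : ∀ i, i < m → g * q i = q i := by
        intro i hi
        simp only [g]
        rw [add_mul, h3, zero_add, Finset.sum_mul, Finset.sum_eq_single i]
        · rw [h2, if_pos rfl]
        · intro j _ hj
          rw [h2, if_neg hj]
        · intro h6
          exact absurd (Finset.mem_range.2 hi) h6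
      have hfg : (1 - f) * g = 1 - f := by
        simp only [g]
        rw [mul_add, hff, Finset.mul_sum, Finset.sum_congr rfl (fun i _ => h3 i)]
        simp
      have hgf : g * (1 - f) = 1 - f := by
        simp only [g]
        rw [add_mul, hff, Finset.sum_mul, Finset.sum_congr rfl (fun i _ => h4 i)]
        simp
      have hqe : ∀ i, i < m → q i * e' = 0 := fun i hi => by
        rw [← hqg i hi, mul_assoc, hd, mul_zero]
      have heq : ∀ i, i < m → e' * q i = 0 := fun i hi => by
        rw [← hgq i hi, ← mul_assoc, hc, zero_mul]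
      have hee' : e' * e' = e' := ha
      refine ⟨fun i => if i = m then e' else q i, fun i hi => ?_, fun i j => ?_, fun i => ?_,
        fun i => ?_, fun i hi => ?_⟩
      · change (if i = m then e' else q i) = 0
        rw [if_neg (by omega), h1 i (by omega)]
      · change (if i = m then e' else q i) * (if j = m then e' else q j) =
          if i = j then (if i = m then e' else q i) else 0
        by_cases hi : i = m
        · rw [if_pos hi]
          by_cases hj : j = m
          · rw [if_pos hj, if_pos (hi.trans hj.symm), hee']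
          · rw [if_neg hj, if_neg (fun h : i = j => hj (h.symm.trans hi))]
            by_cases hj2 : j < m
            · exact heq j hj2
            · rw [h1 j (by omega), mul_zero]
        · rw [if_neg hi]
          by_cases hj : j = m
          · rw [if_pos hj, if_neg (fun h => hi (h.trans hj))]
            by_cases hi2 : i < m
            · exact hqe i hi2
            · rw [h1 i (by omega), zero_mul]
          · rw [if_neg hj, h2]
      · change (1 - f) * (if i = m then e' else q i) = 0
        split_ifs
        · rw [← hfg, mul_assoc, hd, mul_zero]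
        · exact h3 i
      · change (if i = m then e' else q i) * (1 - f) = 0
        split_ifs
        · rw [← hgf, ← mul_assoc, hc, zero_mul]
        · exact h4 i
      · change φ (if i = m then e' else q i) = φ f * φ (ρ i)
        split_ifs with h6
        · rw [hb, h6]
        · exact h5 i (by omega)
  obtain ⟨q, h1, h2, h3, h4, h5⟩ := key n le_rfl
  refine ⟨q, h1, h2, ?_, h5⟩
  -- the rest of `f` is a nilpotent idempotent
  let s : R := ∑ i ∈ Finset.range n, q i
  have hqs : ∀ i, q i * s = q i := by
    intro i
    simp only [s]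
    rw [Finset.mul_sum]
    by_cases hi : i < n
    · rw [Finset.sum_eq_single i]
      · rw [h2, if_pos rfl]
      · intro j _ hj
        rw [h2, if_neg (Ne.symm hj)]
      · intro h6
        exact absurd (Finset.mem_range.2 hi) h6
    · rw [h1 i (by omega)]
      simp
  have hss : s * s = s := by
    change (∑ i ∈ Finset.range n, q i) * s = s
    rw [Finset.sum_mul, Finset.sum_congr rfl (fun i _ => hqs i)]
  have hfs : f * s = s := by
    have h6 : (1 - f) * s = 0 := by
      simp only [s]
      rw [Finset.mul_sum, Finset.sum_congr rfl (fun i _ => h3 i)]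
      simp
    rw [sub_mul, one_mul, sub_eq_zero] at h6
    exact h6.symm
  have hsf : s * f = s := by
    have h6 : s * (1 - f) = 0 := by
      simp only [s]
      rw [Finset.sum_mul, Finset.sum_congr rfl (fun i _ => h4 i)]
      simp
    rw [mul_sub, mul_one, sub_eq_zero] at h6
    exact h6.symm
  have hφ : φ (f - s) = 0 := by
    simp only [s]
    rw [map_sub, map_sum, Finset.sum_congr rfl
      (fun i hi => h5 i (Finset.mem_range.1 hi)), ← Finset.mul_sum, hsum, mul_one, sub_self]
  have hidem : (f - s) * (f - s) = f - s := by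
    rw [mul_sub, sub_mul, sub_mul, hf, hsf, hfs, hss, sub_self, sub_zero]
  obtain ⟨N, hN⟩ := hnil _ hφ
  have h0 : f - s = 0 := by
    have h6 : IsIdempotentElem (f - s) := hidem
    by_cases hN0 : N = 0
    · subst hN0
      rw [pow_zero] at hN
      calc f - s = 1 * (f - s) := (one_mul _).symm
        _ = 0 := by rw [hN, zero_mul]
    · rw [← h6.pow_eq hN0]
      exact hN
  exact (sub_eq_zero.1 h0).symm

end Pool.Agent.Run7.H634.Mur
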