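import Pool.Agent.Run7.h634.Mur.FDefs
import Pool.Agent.Run7.h634.Mur.Exch
import Pool.Agent.X308.S.CK

/-!
# Chow-Kunneth decompositions of sums of motives of surfaces and finite-dimensional motives
-/

set_option autoImplicit false

open CategoryTheory AlgebraicGeometry

universe u v w

namespace Pool.Agent.Run7.H634.Mur

open Pool.Agent.H914 Pool.Agent.H914.VarClass Pool.Agent.H914.VarClass.Obj Pool.Agent.W492.BB
  Pool.Agent.W550.Corr Pool.Agent.TH133 Pool.Agent.X308.S Pool.Agent.Y148.BB

set_option linter.unusedSectionVars false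

variable {k : Type u} [Field k] {𝒱 : VarClass k} {C : TheoryData.{u, v, 0} 𝒱 ℚ}
  [hC : IsChowProj C] {K : Type w} [Field K]
  {H : WeilTheoryData.{u, v, w} C K} [hH : IsWeilProj H] {X Y Z W N : 𝒱.Obj}

/-- Chow-Kunneth decompositions in terms of the ring of correspondences. -/
def Dec (H : WeilTheoryData.{u, v, w} C K) [IsWeilProj H] (X : 𝒱.Obj) (p : Cor C X) : Prop :=
  ∃ π : ℕ → Cor C X, (∀ i, π i ∈ cor0 C X) ∧ (∀ i, 2 * X.dim < i → π i = 0) ∧
    (∀ i j, π i * π j = if i = j then π i else 0) ∧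
    (∑ i ∈ Finset.range (2 * X.dim + 1), π i = p) ∧
    ∀ (i : ℕ) (m : ℤ) (a : H.A X), a ∈ H.gr X m →
      actH C X H (π i) a = if m = i then actH C X H p a else 0

include hC

/-! ### The correspondences through `N` -/

/-- The correspondence `b ∘ q ∘ a`. -/
noncomputable def thr (a : C.A (X.prod N)) (b : C.A (N.prod X)) (q : Cor C N) : Cor C X :=
  C.comp (C.comp a q) b

/-- The correspondence `a ∘ b`. -/
noncomputable def cc (b : C.A (N.prod X)) (a : C.A (X.prod N)) : Cor C N := C.comp b a

variable {a : C.A (X.prod N)} {b : C.A (N.prod X)}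

lemma thr_add (q q' : Cor C N) : thr a b (q + q') = thr a b q + thr a b q' := by
  unfold thr
  have h1 : C.comp a ((q + q' : Cor C N) : C.A (N.prod N)) = C.comp a q + C.comp a q' :=
    comp_add C a q q'
  rw [h1]
  exact add_comp C _ _ b

lemma thr_zero : thr a b (0 : Cor C N) = 0 := by
  unfold thr
  have h1 : C.comp a ((0 : Cor C N) : C.A (N.prod N)) = 0 := comp_zero C a
  rw [h1]
  exact zero_comp C b

lemma thr_sub (q q' : Cor C N) : thr a b (q - q') = thr a b q - thr a b q' := by
  rw [eq_sub_iff_add_eq, ← thr_add, sub_add_cancel]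

lemma thr_sum {ι : Type*} (s : Finset ι) (q : ι → Cor C N) :
    thr a b (∑ i ∈ s, q i) = ∑ i ∈ s, thr a b (q i) := by
  classical
  induction s using Finset.induction_on with
  | empty => rw [Finset.sum_empty, Finset.sum_empty, thr_zero]
  | insert i s hi ih => rw [Finset.sum_insert hi, Finset.sum_insert hi, thr_add, ih]

lemma thr_one : thr a b (1 : Cor C N) = C.comp a b := by
  unfold thr
  have h1 : C.comp a ((1 : Cor C N) : C.A (N.prod N)) = a := comp_dg C a
  rw [h1]

lemma thr_mul (q q' : Cor C N) :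
    thr a b q * thr a b q' = thr a b (q * cc b a * q') := by
  have h1 : C.comp (C.comp (C.comp a q') b) (C.comp (C.comp a q) b) =
      C.comp (C.comp a (C.comp q' (C.comp (C.comp b a) q))) b := by
    simp only [comp_assoc C]
  exact h1

lemma thr_mem {n : ℤ} (ha : C.Deg ((X.dim : ℤ) - n) a) (hb : C.Deg ((N.dim : ℤ) + n) b)
    {q : Cor C N} (hq : q ∈ cor0 C N) : thr a b q ∈ cor0 C X := by
  have h1 : C.comp a (q : C.A (N.prod N)) ∈ C.gr (X.prod N) ((X.dim : ℤ) - n) :=
    comp_deg ha hq (by ring)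
  exact comp_deg h1 hb (by ring)

lemma thr_left (u : Cor C X) (q : Cor C N) : u * thr a b q = thr a (C.comp b u) q := by
  change C.comp (C.comp (C.comp a q) b) u = C.comp (C.comp a q) (C.comp b u)
  rw [comp_assoc C]

lemma thr_right (u : Cor C X) (q : Cor C N) : thr a b q * u = thr (C.comp u a) b q := by
  change C.comp u (C.comp (C.comp a q) b) = C.comp (C.comp (C.comp u a) q) b
  simp only [comp_assoc C]

include hH

lemma Dec.mem {p : Cor C X} (h : Dec H X p) : p ∈ cor0 C X := by
  obtain ⟨π, h1, -, -, h4, -⟩ := h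
  rw [← h4]
  exact Subalgebra.sum_mem _ fun i _ => h1 i

lemma dec_absorb {p : Cor C X} {π : ℕ → Cor C X} (hout : ∀ i, 2 * X.dim < i → π i = 0)
    (hmul : ∀ i j, π i * π j = if i = j then π i else 0)
    (hsum : ∑ i ∈ Finset.range (2 * X.dim + 1), π i = p) (i : ℕ) :
    π i * p = π i ∧ p * π i = π i := by
  by_cases hi : i < 2 * X.dim + 1
  · constructor
    · rw [← hsum, Finset.mul_sum, Finset.sum_eq_single i]
      · rw [hmul, if_pos rfl]
      · intro j _ hj
        rw [hmul, if_neg (Ne.symm hj)]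
      · intro h6
        exact absurd (Finset.mem_range.2 hi) h6
    · rw [← hsum, Finset.sum_mul, Finset.sum_eq_single i]
      · rw [hmul, if_pos rfl]
      · intro j _ hj
        rw [hmul, if_neg hj]
      · intro h6
        exact absurd (Finset.mem_range.2 hi) h6
  · rw [hout i (by omega), zero_mul, mul_zero]
    exact ⟨rfl, rfl⟩

lemma Dec.add {p e : Cor C X} (hp : Dec H X p) (he : Dec H X e) (h1 : p * e = 0)
    (h2 : e * p = 0) : Dec H X (p + e) := by
  obtain ⟨π, a1, a2, a3, a4, a5⟩ := hp
  obtain ⟨ρ, b1, b2, b3, b4, b5⟩ := he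
  have c1 : ∀ i j, π i * ρ j = 0 := by
    intro i j
    rw [← (dec_absorb (H := H) a2 a3 a4 i).1, ← (dec_absorb (H := H) b2 b3 b4 j).2, mul_assoc,
      ← mul_assoc p, h1, zero_mul, mul_zero]
  have c2 : ∀ i j, ρ i * π j = 0 := by
    intro i j
    rw [← (dec_absorb (H := H) b2 b3 b4 i).1, ← (dec_absorb (H := H) a2 a3 a4 j).2, mul_assoc,
      ← mul_assoc e, h2, zero_mul, mul_zero]
  refine ⟨fun i => π i + ρ i, fun i => (cor0 C X).add_mem (a1 i) (b1 i), fun i hi => ?_,
    fun i j => ?_, ?_, fun i m a ha => ?_⟩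
  · change π i + ρ i = 0
    rw [a2 i hi, b2 i hi, add_zero]
  · change (π i + ρ i) * (π j + ρ j) = if i = j then π i + ρ i else 0
    rw [add_mul, mul_add, mul_add, c1, c2, a3, b3]
    split_ifs
    · abel
    · abel
  · rw [Finset.sum_add_distrib, a4, b4]
  · change actH C X H (π i + ρ i) a = _
    rw [map_add, LinearMap.add_apply, a5 i m a ha, b5 i m a ha, map_add, LinearMap.add_apply]
    split_ifs
    · rfl
    · rw [add_zero]

/-- Motives dominated by surfaces. -/
lemma dec_surface (hS : SurfaceProperties H) {p : Cor C X} (hpp : p * p = p)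
    (hp : (p : C.A (X.prod X)) ∈ throughSurfaces C X) : Dec H X p := by
  obtain ⟨s, q, h1, h2, h3, h4⟩ := exists_weights (H := H) hS hpp hp
  have hneg : ∀ w, w < 0 → q w = 0 := fun w hw => wt_neg hS hw (h1 w)
  have hbig : ∀ w, 2 * (X.dim : ℤ) < w → q w = 0 := fun w hw => wt_big hS hw (h1 w)
  have hsum : ∑ i ∈ Finset.range (2 * X.dim + 1), q (i : ℤ) = p := by
    rw [← h4]
    have e1 : ∑ i ∈ Finset.range (2 * X.dim + 1), q (i : ℤ) =
        ∑ w ∈ (Finset.range (2 * X.dim + 1)).image (fun i : ℕ => (i : ℤ)), q w := by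
      rw [Finset.sum_image (fun x _ y _ hxy => by simpa using hxy)]
    rw [e1]
    have e2 : ∀ w, w ∉ (Finset.range (2 * X.dim + 1)).image (fun i : ℕ => (i : ℤ)) → q w = 0 := by
      intro w hw
      by_cases hw0 : w < 0
      · exact hneg w hw0
      · apply hbig
        by_contra hcon
        apply hw
        rw [Finset.mem_image]
        exact ⟨w.toNat, Finset.mem_range.2 (by omega), by omega⟩
    exact (Finset.sum_subset Finset.subset_union_left (fun w _ hw => e2 w hw)).trans
      (Finset.sum_subset Finset.subset_union_right (fun w _ hw => h2 w hw)).symm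
  refine ⟨fun i => q (i : ℤ), fun i => wt_mem (h1 _), fun i hi => hbig _ (by omega),
    fun i j => ?_, hsum, fun i m a ha => ?_⟩
  · change q (i : ℤ) * q (j : ℤ) = if i = j then q (i : ℤ) else 0
    rw [h3]
    by_cases hij : i = j
    · rw [if_pos hij, if_pos (by rw [hij])]
    · rw [if_neg hij, if_neg (by exact_mod_cast hij)]
  · have hz : ∀ w : ℤ, m ≠ w → actH C X H (q w) a = 0 := fun w hw => wt_actH (h1 w) ha hw
    by_cases hm : m = i
    · rw [if_pos hm, ← h4, map_sum, LinearMap.sum_apply]
      change actH C X H (q (i : ℤ)) a = _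
      symm
      apply Finset.sum_eq_single (i : ℤ)
      · intro w _ hw
        exact hz w (fun h => hw (h.symm.trans hm))
      · intro h6
        rw [h2 _ h6, map_zero, LinearMap.zero_apply]
    · rw [if_neg hm]
      exact hz _ hm

lemma actH_thr (q : Cor C N) (x : H.A X) : actH C X H (thr a b q) x =
    H.act (H.cl b) (actH C N H q (H.act (H.cl a) x)) := by
  have h1 : H.act (H.cl (C.comp (C.comp a q) b)) x =
      H.act (H.cl b) (H.act (H.cl (X := N.prod N) q) (H.act (H.cl a) x)) := by
    rw [actH_comp, actH_comp]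
  exact h1

end Pool.Agent.Run7.H634.Mur
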