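import Pool.Agent.Run7.h634.Mur.FD

/-!
# Splitting off a finite-dimensional summand
-/

set_option autoImplicit false

open CategoryTheory AlgebraicGeometry

universe u v w

namespace Pool.Agent.Run7.H634.Mur

open Pool.Agent.H914 Pool.Agent.H914.VarClass Pool.Agent.H914.VarClass.Obj Pool.Agent.W492.BB
  Pool.Agent.W550.Corr Pool.Agent.TH133 Pool.Agent.X308.S Pool.Agent.Y148.BB

set_option linter.unusedSectionVars false

variable {k : Type u} [Field k] {𝒱 : VarClass k} {C : TheoryData.{u, v, 0} 𝒱 ℚ}
  [hC : IsChowProj C] {K : Type w} [Field K]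
  {H : WeilTheoryData.{u, v, w} C K} [hH : IsWeilProj H] {X Y Z W N : 𝒱.Obj}

include hC

lemma compList_replicate (γ : Cor C X) (i : ℕ) :
    (compList C X (List.replicate i γ) : Cor C X) = γ ^ i := by
  induction i with
  | zero => rw [pow_zero]; rfl
  | succ i ih =>
    rw [pow_succ, ← ih]
    rfl

include hH

lemma IsFinDim.alg' (hN : IsFinDim H N) {γ : Cor C N} (hγ : γ ∈ cor0 C N) :
    ∃ f : Polynomial ℚ, f ≠ 0 ∧ Polynomial.aeval γ f = 0 := by
  obtain ⟨n, q, ⟨i, hi, hqi⟩, h⟩ := hN.alg γ hγ
  refine ⟨∑ i ∈ Finset.range (n + 1), Polynomial.C (q i) * Polynomial.X ^ i, ?_, ?_⟩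
  · intro h0
    apply hqi
    have h1 := congrArg (fun p => Polynomial.coeff p i) h0
    simp only [Polynomial.finset_sum_coeff, Polynomial.coeff_C_mul, Polynomial.coeff_X_pow,
      Polynomial.coeff_zero] at h1
    rw [Finset.sum_eq_single i] at h1
    · simpa using h1
    · intro j _ hj
      rw [if_neg (Ne.symm hj), mul_zero]
    · intro h2
      exact absurd (Finset.mem_range.2 (by omega)) h2
  · have h1 : ∑ i ∈ Finset.range (n + 1), q i • γ ^ i = (0 : Cor C N) := by
      have h2 : ∀ i, q i • γ ^ i = (q i • (compList C N (List.replicate i γ)) : Cor C N) :=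
        fun i => by rw [compList_replicate]; rfl
      simp_rw [h2]
      exact h
    rw [map_sum, ← h1]
    apply Finset.sum_congr rfl
    intro i _
    rw [map_mul, map_pow, Polynomial.aeval_X, Polynomial.aeval_C, Algebra.smul_def]

lemma IsFinDim.nil' (hN : IsFinDim H N) {γ : Cor C N} (hγ : γ ∈ cor0 C N)
    (h : actH C N H γ = 0) : IsNilpotent γ := by
  have h1 : H.cl (X := N.prod N) γ = 0 := by
    apply hom_zero_of_act
    intro a
    exact LinearMap.congr_fun h a
  obtain ⟨n, hn⟩ := hN.nil γ hγ h1
  exact ⟨n, by rw [← compList_replicate]; exact hn⟩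

variable {a : C.A (X.prod N)} {b : C.A (N.prod X)}

/-- The summand of the motive of `X` which is isomorphic to a summand of the motive of `N`. -/
lemma dec_thr (hN : IsFinDim H N) {n : ℤ} (ha : C.Deg ((X.dim : ℤ) - n) a)
    (hb : C.Deg ((N.dim : ℤ) + n) b) {f κ : Cor C N} (hf : f ∈ cor0 C N) (hκ : κ ∈ cor0 C N)
    (hff : f * f = f) (h1 : κ * cc b a = f) (h4 : f * κ = κ) :
    Dec H X (thr a b κ) := by
  obtain ⟨ρ, hρ⟩ := hN.ck
  let P : ℕ → Cor C N := ρ
  have hP : IsCK H N P := hρ
  have hPm : ∀ i, P i ∈ cor0 C N := hP.deg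
  let φ : cor0 C N →+* Module.End K (H.A N) := (actH C N H).comp ((cor0 C N).val : _ →+* _)
  have hφ : ∀ x : cor0 C N, φ x = actH C N H (x : Cor C N) := fun x => rfl
  have hnil : ∀ x, φ x = 0 → IsNilpotent x := by
    intro x hx
    obtain ⟨m, hm⟩ := hN.nil' x.2 hx
    exact ⟨m, Subtype.ext hm⟩
  obtain ⟨q0, hq0, hq1, hq2, hq3⟩ := exists_lift φ hnil (f := ⟨f, hf⟩) (Subtype.ext hff)
    (2 * N.dim + 1) (fun i => ⟨P i, hPm i⟩)
    (fun i j => by
      rw [← map_mul]
      have h5 : (⟨P i, hPm i⟩ * ⟨P j, hPm j⟩ : cor0 C N) = if i = j then ⟨P i, hPm i⟩ else 0 := by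
        apply Subtype.ext
        change P i * P j = _
        rw [hP.mul_eq]
        split_ifs
        · rfl
        · rfl
      rw [h5]
      split_ifs
      · rfl
      · rw [map_zero])
    (fun i => by
      rw [hφ, hφ]
      apply ext_gr H
      intro m x hx
      rw [Module.End.mul_apply, Module.End.mul_apply, hP.actH_eq' i m hx,
        hP.actH_eq' i m (actH_mem0 hf hx)]
      split_ifs
      · rfl
      · rw [map_zero])
    (by
      have h5 : ∀ i, φ ⟨P i, hPm i⟩ = actH C N H (P i) := fun i => rfl
      simp_rw [h5]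
      rw [← map_sum, hP.sum_eq, map_one])
  let q : ℕ → Cor C N := fun i => (q0 i : Cor C N)
  have hqm : ∀ i, q i ∈ cor0 C N := fun i => (q0 i).2
  have hqo : ∀ i, 2 * N.dim + 1 ≤ i → q i = 0 := fun i hi => by
    change ((q0 i : cor0 C N) : Cor C N) = 0
    rw [hq0 i hi]
    rfl
  have hqq : ∀ i j, q i * q j = if i = j then q i else 0 := by
    intro i j
    have h5 := congrArg (fun x : cor0 C N => (x : Cor C N)) (hq1 i j)
    change q i * q j = ((if i = j then q0 i else 0 : cor0 C N) : Cor C N) at h5
    rw [h5]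
    split_ifs
    · rfl
    · rfl
  have hqs : ∑ i ∈ Finset.range (2 * N.dim + 1), q i = f := by
    have h5 := congrArg (fun x : cor0 C N => (cor0 C N).val x) hq2
    change (cor0 C N).val (∑ i ∈ Finset.range (2 * N.dim + 1), q0 i) = f at h5
    rw [map_sum] at h5
    exact h5
  have hqa : ∀ i, i < 2 * N.dim + 1 → actH C N H (q i) = actH C N H f * actH C N H (P i) :=
    fun i hi => hq3 i hi
  have hqf : ∀ i, q i * f = q i ∧ f * q i = q i := fun i =>
    dec_absorb (H := H) (X := N) (p := f) (π := q) (fun i hi => hqo i (by omega)) hqq hqs i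
  -- the members of the decomposition
  let t : ℕ → Cor C X := fun j => thr a b (q j * κ)
  have htm : ∀ j, t j ∈ cor0 C X := fun j => thr_mem ha hb ((cor0 C N).mul_mem (hqm j) hκ)
  have htt : ∀ i j, t i * t j = if i = j then t i else 0 := by
    intro i j
    change thr a b (q i * κ) * thr a b (q j * κ) = _
    rw [thr_mul]
    have h5 : q i * κ * cc b a * (q j * κ) = q i * q j * κ := by
      calc q i * κ * cc b a * (q j * κ) = q i * (κ * cc b a) * q j * κ := by
            simp only [mul_assoc]
        _ = q i * q j * κ := by rw [h1, (hqf i).1]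
    rw [h5, hqq]
    split_ifs
    · rfl
    · rw [zero_mul, thr_zero]
  have htact : ∀ (j : ℕ) (m : ℤ) (x : H.A X), x ∈ H.gr X m → j < 2 * N.dim + 1 →
      actH C X H (t j) x = if m = j + 2 * n then actH C X H (thr a b κ) x else 0 := by
    intro j m x hx hj
    have hax : H.act (H.cl a) x ∈ H.gr N (m - 2 * n) := actH_deg (H := H) ha hx (by ring)
    have hκx := actH_mem0 (H := H) hκ hax
    change actH C X H (thr a b (q j * κ)) x = _
    rw [actH_thr, actH_thr, map_mul, Module.End.mul_apply, hqa j hj, Module.End.mul_apply,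
      hP.actH_eq' j _ hκx]
    by_cases hm : m = j + 2 * n
    · rw [if_pos (by omega), if_pos hm, ← Module.End.mul_apply, ← map_mul, h4]
    · rw [if_neg (by omega), if_neg hm, map_zero]
      exact TheoryData.act_map_zero _ _
  have htzero : ∀ j : ℕ, (j : ℤ) + 2 * n < 0 ∨ 2 * (X.dim : ℤ) < j + 2 * n → t j = 0 := by
    intro j hj
    by_cases hjN : j < 2 * N.dim + 1
    swap
    · change thr a b (q j * κ) = 0
      rw [hqo j (by omega), zero_mul, thr_zero]
    have h5 : actH C X H (t j) = 0 := by
      apply ext_gr H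
      intro m x hx
      rw [htact j m x hx hjN, LinearMap.zero_apply]
      split_ifs with hm
      · have hx0 : x = 0 := by
          rcases hj with hj | hj
          · exact hgr_neg hx (by omega)
          · rw [gr_top H (i := m) (by omega)] at hx
            exact (Submodule.mem_bot _).1 hx
        rw [hx0, map_zero]
      · rfl
    have h6 : ∀ y : H.A N, actH C N H (q j) y = 0 := by
      intro y
      have h7 : q j = κ * cc (C.comp b (t j)) a := by
        have h8 : cc (C.comp b (t j)) a = cc b a * (q j * κ) * cc b a := by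
          change C.comp (C.comp b (C.comp (C.comp a (C.comp κ (q j))) b)) a =
            C.comp (C.comp b a) (C.comp (C.comp κ (q j)) (C.comp b a))
          simp only [comp_assoc C]
        rw [h8]
        calc q j = f * q j * f := by rw [(hqf j).2, (hqf j).1]
          _ = κ * cc b a * q j * (κ * cc b a) := by rw [h1]
          _ = κ * (cc b a * (q j * κ) * cc b a) := by simp only [mul_assoc]
      rw [h7, map_mul, Module.End.mul_apply]
      have h9 : actH C N H (cc (C.comp b (t j)) a) y = 0 := by
        change H.act (H.cl (C.comp (C.comp b (t j)) a)) y = 0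
        rw [actH_comp, actH_comp]
        have h10 : H.act (X := X) (Y := X) (H.cl (X := X.prod X) (t j)) (H.act (H.cl b) y) = 0 :=
          LinearMap.congr_fun h5 _
        rw [h10]
        exact TheoryData.act_map_zero _ _
      rw [h9, map_zero]
    have h7 : actH C N H (q j) = 0 := LinearMap.ext h6
    obtain ⟨m, hm⟩ := hN.nil' (hqm j) h7
    have h8 : q j = 0 := by
      have h9 : IsIdempotentElem (q j) := by
        have h10 := hqq j j
        rwa [if_pos rfl] at h10
      by_cases hm0 : m = 0
      · subst hm0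
        rw [pow_zero] at hm
        calc q j = 1 * q j := (one_mul _).symm
          _ = 0 := by rw [hm, zero_mul]
      · rw [← h9.pow_eq hm0]
        exact hm
    change thr a b (q j * κ) = 0
    rw [h8, zero_mul, thr_zero]
  have htsum : ∑ j ∈ Finset.range (2 * N.dim + 1), t j = thr a b κ := by
    change ∑ j ∈ Finset.range (2 * N.dim + 1), thr a b (q j * κ) = _
    rw [← thr_sum, ← Finset.sum_mul, hqs, h4]
  -- the decomposition
  let π : ℕ → Cor C X := fun m => ∑ j ∈ Finset.range (2 * N.dim + 1),
    if (m : ℤ) = j + 2 * n then t j else 0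
  refine ⟨π, fun m => Subalgebra.sum_mem _ fun j _ => ?_, fun m hm => ?_, fun m m' => ?_, ?_,
    fun i m x hx => ?_⟩
  · split_ifs
    · exact htm j
    · exact (cor0 C X).zero_mem
  · apply Finset.sum_eq_zero
    intro j _
    split_ifs with h5
    · exact htzero j (Or.inr (by omega))
    · rfl
  · change (∑ j ∈ Finset.range (2 * N.dim + 1), if (m : ℤ) = j + 2 * n then t j else 0) *
      (∑ j ∈ Finset.range (2 * N.dim + 1), if (m' : ℤ) = j + 2 * n then t j else 0) = _
    rw [Finset.sum_mul_sum]
    have h5 : ∀ i ∈ Finset.range (2 * N.dim + 1), ∑ j ∈ Finset.range (2 * N.dim + 1),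
        (if (m : ℤ) = i + 2 * n then t i else 0) * (if (m' : ℤ) = j + 2 * n then t j else 0) =
        if m = m' then (if (m : ℤ) = i + 2 * n then t i else 0) else 0 := by
      intro i hi
      rw [Finset.sum_eq_single i]
      · by_cases hm : (m : ℤ) = i + 2 * n
        · rw [if_pos hm]
          by_cases hmm : m = m'
          · rw [if_pos (by omega), if_pos hmm, htt, if_pos rfl]
          · rw [if_neg (by omega), if_neg hmm, mul_zero]
        · rw [if_neg hm, zero_mul]
          split_ifs
          · rfl
          · rfl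
      · intro j _ hj
        split_ifs
        · rw [htt, if_neg (Ne.symm hj)]
        · rw [mul_zero]
        · rw [zero_mul]
        · rw [mul_zero]
      · intro h6
        exact absurd hi h6
    rw [Finset.sum_congr rfl h5]
    by_cases hmm : m = m'
    · simp_rw [if_pos hmm]
      rfl
    · simp_rw [if_neg hmm]
      exact Finset.sum_const_zero
  · change ∑ m ∈ Finset.range (2 * X.dim + 1), (∑ j ∈ Finset.range (2 * N.dim + 1),
      if (m : ℤ) = j + 2 * n then t j else 0) = _
    rw [Finset.sum_comm, ← htsum]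
    apply Finset.sum_congr rfl
    intro j _
    by_cases hj : (j : ℤ) + 2 * n < 0 ∨ 2 * (X.dim : ℤ) < j + 2 * n
    · rw [htzero j hj]
      apply Finset.sum_eq_zero
      intro m _
      split_ifs
      · rfl
      · rfl
    · rw [Finset.sum_eq_single ((j : ℤ) + 2 * n).toNat]
      · rw [if_pos (by omega)]
      · intro m _ hm
        rw [if_neg (by omega)]
      · intro h6
        exact absurd (Finset.mem_range.2 (by omega)) h6
  · have h5 : actH C X H (π i) x = ∑ j ∈ Finset.range (2 * N.dim + 1),
        if (i : ℤ) = j + 2 * n then (if m = i then actH C X H (thr a b κ) x else 0) else 0 := by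
      change actH C X H (∑ j ∈ Finset.range (2 * N.dim + 1),
        if (i : ℤ) = j + 2 * n then t j else 0) x = _
      rw [map_sum, LinearMap.sum_apply]
      apply Finset.sum_congr rfl
      intro j hj
      rw [Finset.mem_range] at hj
      by_cases hij : (i : ℤ) = j + 2 * n
      · rw [if_pos hij, if_pos hij, htact j m x hx hj, ← hij]
      · rw [if_neg hij, if_neg hij, map_zero, LinearMap.zero_apply]
    rw [h5]
    by_cases hm : m = i
    · simp_rw [if_pos hm]
      by_cases hi : 0 ≤ (i : ℤ) - 2 * n ∧ (i : ℤ) - 2 * n ≤ 2 * N.dim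
      · rw [Finset.sum_eq_single ((i : ℤ) - 2 * n).toNat]
        · rw [if_pos (by omega)]
        · intro j _ hj
          rw [if_neg (by omega)]
        · intro h6
          exact absurd (Finset.mem_range.2 (by omega)) h6
      · rw [Finset.sum_eq_zero]
        · have hax : H.act (H.cl a) x ∈ H.gr N (m - 2 * n) := actH_deg (H := H) ha hx (by ring)
          have hax0 : H.act (H.cl a) x = 0 := by
            by_cases h6 : 0 ≤ (i : ℤ) - 2 * n
            · rw [gr_top H (i := m - 2 * n) (by omega)] at hax
              exact (Submodule.mem_bot _).1 hax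
            · exact hgr_neg hax (by omega)
          rw [actH_thr, hax0, map_zero]
          exact (TheoryData.act_map_zero _ _).symm
        · intro j hj
          rw [Finset.mem_range] at hj
          rw [if_neg (by omega)]
    · simp_rw [if_neg hm]
      apply Finset.sum_eq_zero
      intro j _
      split_ifs
      · rfl
      · rfl

/-- Splitting off the part of an idempotent `p = s + b ∘ a` which factors through `N`. -/
lemma split_off (hN : IsFinDim H N) {n : ℤ} (ha : C.Deg ((X.dim : ℤ) - n) a)
    (hb : C.Deg ((N.dim : ℤ) + n) b) {p s : Cor C X} (hp : p ∈ cor0 C X) (hpp : p * p = p)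
    (hpa : C.comp (p : C.A (X.prod X)) a = a) (hbp : C.comp b (p : C.A (X.prod X)) = b)
    (hsum : p = s + thr a b 1) :
    ∃ e w : Cor C X, Dec H X e ∧ w ∈ cor0 C X ∧ e * e = e ∧ p * e = e ∧ e * p = e ∧ p * w = w ∧
      p - e = (p - e) * s * w := by
  set c : Cor C N := cc b a with hc
  have hcm : c ∈ cor0 C N := comp_deg hb ha (by ring)
  obtain ⟨g, hg, hgc⟩ := hN.alg' hcm
  obtain ⟨f, r, r', hf, hr, hr', hff, hfr, hfr'⟩ := exists_idem_of_alg c hg hgc
  have hadj : ∀ x ∈ Algebra.adjoin ℚ {c}, x ∈ cor0 C N := fun x hx =>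
    Algebra.adjoin_le (Set.singleton_subset_iff.2 hcm) hx
  have hcomm : ∀ x ∈ Algebra.adjoin ℚ {c}, ∀ y ∈ Algebra.adjoin ℚ {c}, x * y = y * x := by
    intro x hx y hy
    have h2 := Algebra.isMulCommutative_adjoin ℚ (s := ({c} : Set (Cor C N)))
      (by
        intro a ha b hb
        rw [Set.mem_singleton_iff.1 ha, Set.mem_singleton_iff.1 hb])
    have h3 := h2.is_comm.comm (⟨x, hx⟩ : Algebra.adjoin ℚ {c}) ⟨y, hy⟩
    exact congrArg Subtype.val h3
  have hcadj : c ∈ Algebra.adjoin ℚ {c} := Algebra.subset_adjoin rfl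
  let κ : Cor C N := f * r
  have hκ : κ ∈ cor0 C N := (cor0 C N).mul_mem (hadj f hf) (hadj r hr)
  have h1 : κ * c = f := by
    change f * r * c = f
    rw [mul_assoc, hcomm r hr c hcadj, ← hfr, hff]
  have h4 : f * κ = κ := by
    change f * (f * r) = f * r
    rw [← mul_assoc, hff]
  have hpt : ∀ q : Cor C N, p * thr a b q = thr a b q := fun q => by rw [thr_left, hbp]
  have htp : ∀ q : Cor C N, thr a b q * p = thr a b q := fun q => by rw [thr_right, hpa]
  set e : Cor C X := thr a b κ with he
  have hee : e * e = e := by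
    rw [he, thr_mul]
    have h5 : κ * cc b a * κ = κ := by rw [← hc, h1, h4]
    rw [h5]
  have hem : e ∈ cor0 C X := thr_mem ha hb hκ
  have hpe : p * e = e := hpt κ
  have hep : e * p = e := htp κ
  refine ⟨e, p + thr a b r' * (p - e), dec_thr hN ha hb (hadj f hf) hκ hff h1 h4, ?_, hee, hpe,
    hep, ?_, ?_⟩
  · exact (cor0 C X).add_mem hp ((cor0 C X).mul_mem (thr_mem ha hb (hadj r' hr'))
      ((cor0 C X).sub_mem hp hem))
  · rw [mul_add, hpp, ← mul_assoc, hpt]
  · have h2 : c * κ = f := by
      change c * (f * r) = f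
      rw [← mul_assoc, hcomm c hcadj f hf, mul_assoc, ← hfr, hff]
    have hs : s = p - thr a b 1 := by rw [hsum]; abel
    -- `(p - e) T(f) = 0`
    have h5 : (p - e) * thr a b f = 0 := by
      rw [sub_mul, hpt, he, thr_mul, ← hc, h1, hff, sub_self]
    have h6 : (p - e) * thr a b 1 = (p - e) * thr a b (1 - f) := by
      rw [thr_sub, mul_sub, h5, sub_zero]
    have h7 : thr a b (1 - f) * (p - e) = thr a b (1 - f) := by
      rw [mul_sub, htp, he, thr_mul, ← hc, mul_assoc, h2, sub_mul, one_mul, hff, sub_self,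
        thr_zero, sub_zero]
    have h8 : s * thr a b r' = thr a b (1 - f) := by
      rw [hs, sub_mul, hpt, thr_mul, ← hc, one_mul, hfr', sub_mul, one_mul, thr_sub]
    have h9 : (p - e) * p = p - e := by rw [sub_mul, hpp, hep]
    have h10 : s * p = s := by rw [hs, sub_mul, hpp, htp]
    calc p - e = (p - e) - (p - e) * thr a b (1 - f) + (p - e) * thr a b (1 - f) := by abel
      _ = (p - e) * p - (p - e) * thr a b 1 + (p - e) * (thr a b (1 - f) * (p - e)) := by
          rw [h7, h9, h6]
      _ = (p - e) * s + (p - e) * (s * thr a b r' * (p - e)) := by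
          rw [h8, ← mul_sub, ← hs]
      _ = (p - e) * s * (p + thr a b r' * (p - e)) := by
          rw [mul_add, mul_assoc (p - e) s p, h10]
          simp only [mul_assoc]

end Pool.Agent.Run7.H634.Mur
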