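import Pool.Agent.Run7.h634.Mur.FD2

/-!
# Motives dominated by surfaces and finite-dimensional motives
-/

set_option autoImplicit false

open CategoryTheory AlgebraicGeometry

universe u v w

namespace Pool.Agent.Run7.H634.Mur

open Pool.Agent.H914 Pool.Agent.H914.VarClass Pool.Agent.H914.VarClass.Obj Pool.Agent.W492.BB
  Pool.Agent.W550.Corr Pool.Agent.TH133 Pool.Agent.X308.S Pool.Agent.Y148.BB

set_option linter.unusedSectionVars false

variable {k : Type u} [Field k] {𝒱 : VarClass k} {C : TheoryData.{u, v, 0} 𝒱 ℚ}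
  [hC : IsChowProj C] {K : Type w} [Field K]
  {H : WeilTheoryData.{u, v, w} C K} [hH : IsWeilProj H] {X Y Z W N : 𝒱.Obj}

/-- The correspondences which factor through one variety `N` with the property `IsFinDim`. -/
def Gen (H : WeilTheoryData.{u, v, w} C K) (X : 𝒱.Obj) (z : Cor C X) : Prop :=
  ∃ (N : 𝒱.Obj) (n : ℤ) (a : C.A (X.prod N)) (b : C.A (N.prod X)),
    IsFinDim H N ∧ C.Deg ((X.dim : ℤ) - n) a ∧ C.Deg ((N.dim : ℤ) + n) b ∧ z = C.comp a b

include hC hH

lemma Gen.mem {z : Cor C X} (h : Gen H X z) : z ∈ cor0 C X := by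
  obtain ⟨N, n, a, b, -, ha, hb, rfl⟩ := h
  exact comp_deg ha hb (by ring)

lemma Gen.mul {z u v : Cor C X} (h : Gen H X z) (hu : u ∈ cor0 C X) (hv : v ∈ cor0 C X) :
    Gen H X (u * z * v) := by
  obtain ⟨N, n, a, b, hN, ha, hb, rfl⟩ := h
  refine ⟨N, n, C.comp (v : C.A (X.prod X)) a, C.comp b (u : C.A (X.prod X)), hN,
    comp_deg hv ha (by ring), comp_deg hb hu (by ring), ?_⟩
  change C.comp v (C.comp (C.comp a b) u) = C.comp (C.comp v a) (C.comp b u)
  simp only [comp_assoc C]

lemma Gen.smul {z : Cor C X} (h : Gen H X z) (q : ℚ) : Gen H X (q • z) := by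
  obtain ⟨N, n, a, b, hN, ha, hb, rfl⟩ := h
  refine ⟨N, n, q • a, b, hN, Submodule.smul_mem _ q ha, hb, ?_⟩
  exact (smul_comp q a b).symm

lemma surf_mem {s : Cor C X} (h : (s : C.A (X.prod X)) ∈ throughSurfaces C X) :
    s ∈ cor0 C X := by
  have h1 : throughSurfaces C X ≤ C.gr (X.prod X) X.dim := by
    unfold throughSurfaces
    rw [Submodule.span_le]
    rintro _ ⟨S, n, a, b, hd, ha, hb, rfl⟩
    exact comp_deg ha hb (by rw [hd]; push_cast; ring)
  exact h1 h

lemma surf_mul {s u v : Cor C X} (h : (s : C.A (X.prod X)) ∈ throughSurfaces C X)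
    (hu : u ∈ cor0 C X) (hv : v ∈ cor0 C X) :
    ((u * s * v : Cor C X) : C.A (X.prod X)) ∈ throughSurfaces C X := by
  have key : ∀ s : C.A (X.prod X), s ∈ throughSurfaces C X →
      C.comp (v : C.A (X.prod X)) (C.comp s (u : C.A (X.prod X))) ∈ throughSurfaces C X := by
    intro s hs
    unfold throughSurfaces at hs
    induction hs using Submodule.span_induction with
    | mem s hs =>
      obtain ⟨S, n, a, b, hd, ha, hb, rfl⟩ := hs
      apply Submodule.subset_span
      refine ⟨S, n, C.comp (v : C.A (X.prod X)) a, C.comp b (u : C.A (X.prod X)), hd,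
        comp_deg hv ha (by ring), comp_deg hb hu (by ring), ?_⟩
      simp only [comp_assoc C]
    | zero => rw [zero_comp, comp_zero]; exact Submodule.zero_mem _
    | add x y _ _ hx hy => rw [add_comp, comp_add]; exact Submodule.add_mem _ hx hy
    | smul q x _ hx => rw [smul_comp, comp_smul]; exact Submodule.smul_mem _ q hx
  exact key s h

theorem dec_list (hS : SurfaceProperties H) : ∀ (n : ℕ) (l : List (Cor C X)), l.length = n →
    (∀ z ∈ l, Gen H X z) → ∀ p s₀ : Cor C X, (s₀ : C.A (X.prod X)) ∈ throughSurfaces C X →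
      p * p = p → p = s₀ + l.sum → Dec H X p := by
  intro n
  induction n with
  | zero =>
    intro l hl _ p s₀ hs₀ hpp hp
    rw [List.length_eq_zero_iff] at hl
    rw [hl, List.sum_nil, add_zero] at hp
    rw [hp] at hpp ⊢
    exact dec_surface hS hpp hs₀
  | succ n ih =>
    intro l hl hG p s₀ hs₀ hpp hp
    obtain ⟨z, l, rfl⟩ := List.exists_cons_of_length_eq_add_one hl
    have hls : l.sum ∈ cor0 C X :=
      Subalgebra.list_sum_mem _ fun z hz => (hG z (List.mem_cons_of_mem _ hz)).mem
    have hzm : z ∈ cor0 C X := (hG z (List.mem_cons_self ..)).mem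
    have hpm : p ∈ cor0 C X := by
      rw [hp, List.sum_cons]
      exact (cor0 C X).add_mem (surf_mem (H := H) hs₀) ((cor0 C X).add_mem hzm hls)
    obtain ⟨N, m, a, b, hN, ha, hb, hz⟩ := hG z (List.mem_cons_self ..)
    set a' := C.comp (p : C.A (X.prod X)) a with ha'
    set b' := C.comp b (p : C.A (X.prod X)) with hb'
    have ha'd : C.Deg ((X.dim : ℤ) - m) a' := comp_deg hpm ha (by ring)
    have hb'd : C.Deg ((N.dim : ℤ) + m) b' := comp_deg hb hpm (by ring)
    have hpp' : C.comp (p : C.A (X.prod X)) (p : C.A (X.prod X)) = p := hpp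
    have hpa : C.comp (p : C.A (X.prod X)) a' = a' := by
      rw [ha', ← comp_assoc C, hpp']
    have hbp : C.comp b' (p : C.A (X.prod X)) = b' := by
      rw [hb', comp_assoc C, hpp']
    have hsum : p = p * (s₀ + l.sum) * p + thr a' b' 1 := by
      have h1 : thr a' b' 1 = p * z * p := by
        rw [thr_one, hz]
        change C.comp (C.comp p a) (C.comp b p) = C.comp p (C.comp (C.comp a b) p)
        simp only [comp_assoc C]
      rw [h1, ← add_mul, ← mul_add]
      have h2 : s₀ + l.sum + z = p := by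
        rw [hp, List.sum_cons]
        abel
      rw [h2, hpp, hpp]
    obtain ⟨e, w, hDe, hw, hee, hpe, hep, hpw, hkey⟩ :=
      split_off hN ha'd hb'd hpm hpp hpa hbp hsum
    have hem := hDe.mem
    have hp'm : p - e ∈ cor0 C X := (cor0 C X).sub_mem hpm hem
    have hp'p : (p - e) * p = p - e := by rw [sub_mul, hpp, hep]
    have hp'p' : (p - e) * (p - e) = p - e := by
      rw [mul_sub, hp'p, sub_mul, hpe, hee, sub_self, sub_zero]
    have hkey' : p - e = (p - e) * s₀ * w + (l.map (fun z => (p - e) * z * w)).sum := by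
      have h1 : (l.map (fun z => (p - e) * z * w)).sum = (p - e) * l.sum * w := by
        have h2 : ∀ l : List (Cor C X), (l.map (fun z => (p - e) * z * w)).sum =
            (p - e) * l.sum * w := by
          intro l
          induction l with
          | nil => simp
          | cons y l ih => rw [List.map_cons, List.sum_cons, List.sum_cons, ih, mul_add, add_mul]
        exact h2 l
      rw [h1, ← add_mul, ← mul_add]
      calc p - e = (p - e) * (p * (s₀ + l.sum) * p) * w := hkey
        _ = (p - e) * p * (s₀ + l.sum) * (p * w) := by simp only [mul_assoc]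
        _ = (p - e) * (s₀ + l.sum) * w := by rw [hp'p, hpw]
    have hD' : Dec H X (p - e) := by
      apply ih (l.map (fun z => (p - e) * z * w)) (by
        rw [List.length_map]
        rw [List.length_cons] at hl
        omega) ?_ (p - e) ((p - e) * s₀ * w) (surf_mul (H := H) hs₀ hp'm hw) hp'p' hkey'
      intro y hy
      obtain ⟨z', hz', rfl⟩ := List.mem_map.1 hy
      exact (hG z' (List.mem_cons_of_mem _ hz')).mul hp'm hw
    have h1 := hD'.add hDe (by rw [sub_mul, hpe, hee, sub_self])
      (by rw [mul_sub, hep, hee, sub_self])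
    rwa [sub_add_cancel] at h1

lemma exists_list {z : C.A (X.prod X)} (hz : z ∈ throughFinDim H X) :
    ∃ l : List (Cor C X), (∀ y ∈ l, Gen H X y) ∧ (z : Cor C X) = l.sum := by
  unfold throughFinDim at hz
  induction hz using Submodule.span_induction with
  | mem z hz =>
    refine ⟨[z], fun y hy => ?_, (List.sum_singleton (α := Cor C X)).symm⟩
    rw [List.mem_singleton.1 hy]
    exact hz
  | zero => exact ⟨[], fun y hy => absurd hy (List.not_mem_nil), rfl⟩
  | add x y _ _ hx hy =>
    obtain ⟨l, h1, h2⟩ := hx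
    obtain ⟨l', h3, h4⟩ := hy
    refine ⟨l ++ l', fun y hy => ?_, ?_⟩
    · rcases List.mem_append.1 hy with h | h
      · exact h1 y h
      · exact h3 y h
    · rw [List.sum_append, ← h2, ← h4]
      rfl
  | smul q x _ hx =>
    obtain ⟨l, h1, h2⟩ := hx
    refine ⟨l.map (fun y => q • y), fun y hy => ?_, ?_⟩
    · obtain ⟨z', hz', rfl⟩ := List.mem_map.1 hy
      exact (h1 z' hz').smul q
    · rw [← List.smul_sum, ← h2]
      rfl

/-- **Main theorem.** -/
theorem dec_of_mem (hS : SurfaceProperties H) {p : C.A (X.prod X)} (hpp : C.comp p p = p)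
    (hp : p ∈ throughSurfaces C X ⊔ throughFinDim H X) : ∃ π, IsCKOf H p π := by
  obtain ⟨s₀, hs₀, z, hz, hsz⟩ := Submodule.mem_sup.1 hp
  obtain ⟨l, hl, hzl⟩ := exists_list hz
  obtain ⟨π, h1, h2, h3, h4, h5⟩ := dec_list hS l.length l rfl hl (p : Cor C X) s₀ hs₀ hpp
    (by rw [← hzl]; exact hsz.symm)
  refine ⟨π, h1, h2, fun i => ?_, fun i j hij => ?_, h4, fun i a ha => ?_, fun i m a hm ha => ?_⟩
  · have h6 := h3 i i
    rw [if_pos rfl] at h6
    exact h6
  · have h6 := h3 j i
    rw [if_neg (Ne.symm hij)] at h6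
    exact h6
  · have h6 := h5 i i a ha
    rw [if_pos rfl] at h6
    exact h6
  · have h6 := h5 i m a ha
    rw [if_neg hm] at h6
    exact h6

theorem ck_of_mem (hS : SurfaceProperties H)
    (hX : dg C X ∈ throughSurfaces C X ⊔ throughFinDim H X) : ∃ π, IsCK H X π := by
  obtain ⟨π, h⟩ := dec_of_mem hS (dg_comp C (dg C X)) hX
  refine ⟨π, h.deg, h.out, h.idem, h.orth, h.sum, fun i a ha => ?_, h.act_ne⟩
  rw [h.act_self i a ha, actH_dg]

end Pool.Agent.Run7.H634.Mur
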