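import Pool.Agent.X308.S.Defs

/-!
# Finite-dimensional motives with a Chow-Kunneth decomposition: definitions
-/

set_option autoImplicit false

open CategoryTheory AlgebraicGeometry

universe u v w

namespace Pool.Agent.Run7.H634.Mur

open Pool.Agent.H914 Pool.Agent.H914.VarClass Pool.Agent.H914.VarClass.Obj Pool.Agent.W492.BB
  Pool.Agent.W550.Corr Pool.Agent.TH133

variable {k : Type u} [Field k] {𝒱 : VarClass k} {C : TheoryData.{u, v, 0} 𝒱 ℚ} {K : Type w}
  [Field K] (H : WeilTheoryData.{u, v, w} C K)

/-- The variety `N` has a Chow-Kunneth decomposition and the two properties of finite-dimensional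
motives which are used:

* every self-correspondence `γ` of degree zero is algebraic over `ℚ`: some polynomial
  `∑ q i γ^i`, not all `q i = 0`, vanishes (`γ^i` is the `i`-fold composition);
* every homologically trivial self-correspondence of degree zero is nilpotent.

By Kimura and Deninger-Murre this is so for abelian varieties, curves and their products. -/
structure IsFinDim (N : 𝒱.Obj) : Prop where
  ck : ∃ ρ : ℕ → C.A (N.prod N), IsCK H N ρ
  alg : ∀ γ : C.A (N.prod N), C.Deg N.dim γ → ∃ (n : ℕ) (q : ℕ → ℚ), (∃ i ≤ n, q i ≠ 0) ∧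
    ∑ i ∈ Finset.range (n + 1), q i • compList C N (List.replicate i γ) = 0
  nil : ∀ γ : C.A (N.prod N), C.Deg N.dim γ → H.cl γ = 0 →
    ∃ n : ℕ, compList C N (List.replicate n γ) = 0

/-- The self-correspondences of degree zero of `X` which factor through sums of twists of motives of
varieties with the property `IsFinDim`. -/
noncomputable def throughFinDim (X : 𝒱.Obj) : Submodule ℚ (C.A (X.prod X)) :=
  Submodule.span ℚ {z | ∃ (N : 𝒱.Obj) (n : ℤ) (a : C.A (X.prod N)) (b : C.A (N.prod X)),
    IsFinDim H N ∧ C.Deg ((X.dim : ℤ) - n) a ∧ C.Deg ((N.dim : ℤ) + n) b ∧ z = C.comp a b}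

/-- The self-correspondence `p` of `X` is a sum of correspondences which factor through twists of
motives of surfaces and of varieties with the property `IsFinDim`. -/
def IsDominated {X : 𝒱.Obj} (p : C.A (X.prod X)) : Prop :=
  p ∈ Pool.Agent.X308.S.throughSurfaces C X ⊔ throughFinDim H X

/-- A Chow-Kunneth decomposition of the direct summand `(X, p)` of the motive of `X`: orthogonal
idempotents `π 0, …, π (2 dim X)` of degree zero with sum `p`, where `π i` acts as `p` on `H^i(X)`
and as zero on `H^m(X)` for `m ≠ i`. -/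
structure IsCKOf {X : 𝒱.Obj} (p : C.A (X.prod X)) (π : ℕ → C.A (X.prod X)) : Prop where
  deg : ∀ i, C.Deg X.dim (π i)
  out : ∀ i, 2 * X.dim < i → π i = 0
  idem : ∀ i, C.comp (π i) (π i) = π i
  orth : ∀ i j, i ≠ j → C.comp (π i) (π j) = 0
  sum : ∑ i ∈ Finset.range (2 * X.dim + 1), π i = p
  act_self : ∀ (i : ℕ) (a : H.A X), H.Deg i a → H.act (H.cl (π i)) a = H.act (H.cl p) a
  act_ne : ∀ (i : ℕ) (m : ℤ) (a : H.A X), m ≠ i → H.Deg m a → H.act (H.cl (π i)) a = 0

end Pool.Agent.Run7.H634.Mur
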