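import Pool.Agent.Run7.h634.Mur.SDefs

/-!
# A projective line; one graded piece of the filtration: definitions
-/

set_option autoImplicit false

open CategoryTheory AlgebraicGeometry

universe u v w

namespace Pool.Agent.Run7.H634.Mur

open Pool.Agent.H914 Pool.Agent.H914.VarClass Pool.Agent.H914.VarClass.Obj Pool.Agent.W492.BB
  Pool.Agent.W550.Corr Pool.Agent.TH133

variable {k : Type u} [Field k] {𝒱 : VarClass k}

/-- `P` is a curve with a zero-cycle `x` of degree one and `[Δ_P] = x × P + P × x`: the projective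
line and a point. -/
structure IsLine (C : TheoryData.{u, v, 0} 𝒱 ℚ) (P : 𝒱.Obj) (x : C.A P) : Prop where
  dim : P.dim = 1
  deg : C.Deg 1 x
  degree : HasDegree C x 1
  diagonal : dg C P = C.ext x 1 + C.ext 1 x

/-- The member `π l` of the decomposition acts as zero on `CH^(l+1)(X)`, for all `l` with
`l + 1 ≤ dim X / 2`: for `i ≤ dim X / 2` the filtration satisfies
`F^(i+1) CH^i(X) = F^(i+2) CH^i(X)`. -/
def NoJump {C : TheoryData.{u, v, 0} 𝒱 ℚ} {X : 𝒱.Obj} (π : ℕ → C.A (X.prod X)) : Prop :=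
  ∀ (l : ℕ) (x : C.A X), 2 * (l + 1) ≤ X.dim → C.Deg (l + 1) x → C.act (π l) x = 0

end Pool.Agent.Run7.H634.Mur
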