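import Pool.Agent.Run7.h634.Mur.LDefs
import Pool.Agent.Run7.h634.Mur.Strict
import Pool.Agent.Run7.h634.Mur.Codim

/-!
# The product with a projective line
-/

set_option autoImplicit false

open CategoryTheory AlgebraicGeometry

universe u v w

namespace Pool.Agent.Run7.H634.Mur

open Pool.Agent.H914 Pool.Agent.H914.VarClass Pool.Agent.H914.VarClass.Obj Pool.Agent.W492.BB
  Pool.Agent.W550.Corr Pool.Agent.TH133 Pool.Agent.X308.S

set_option linter.unusedSectionVars false

variable {k : Type u} [Field k] {𝒱 : VarClass k} {C : TheoryData.{u, v, 0} 𝒱 ℚ}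
  [hC : IsChowProj C] {K : Type w} [Field K]
  {H : WeilTheoryData.{u, v, w} C K} [hH : IsWeilProj H] {X Y Z W P : 𝒱.Obj} {x : C.A P}

/-- The Chow-Kunneth decomposition of the projective line. -/
noncomputable def lineCK (C : TheoryData.{u, v, 0} 𝒱 ℚ) {P : 𝒱.Obj} (x : C.A P) (i : ℕ) :
    C.A (P.prod P) :=
  if i = 0 then C.ext x 1 else if i = 2 then C.ext 1 x else 0

include hC hH

lemma IsLine.one_degree (h : IsLine C P x) : HasDegree C (1 : C.A P) 0 := by
  intro Y
  have hd := h.dim
  constructor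
  · have h1 : C.push (snd P Y) (C.pull (fst P Y) (1 : C.A P)) ∈ C.gr Y (-1) := by
      have h2 := C.push_mem (snd P Y) (C.pull_mem (fst P Y) (C.one_mem P))
      have e1 : (0 : ℤ) + 1 * ((Y.dim : ℤ) - ((P.prod Y).dim : ℤ)) = -1 := by
        rw [dim_prod, hd]; push_cast; ring
      rwa [e1] at h2
    rw [zero_smul]
    exact zero_of_neg h1 (by norm_num)
  · have h1 : C.push (fst Y P) (C.pull (snd Y P) (1 : C.A P)) ∈ C.gr Y (-1) := by
      have h2 := C.push_mem (fst Y P) (C.pull_mem (snd Y P) (C.one_mem P))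
      have e1 : (0 : ℤ) + 1 * ((Y.dim : ℤ) - ((Y.prod P).dim : ℤ)) = -1 := by
        rw [dim_prod, hd]; push_cast; ring
      rwa [e1] at h2
    rw [zero_smul]
    exact zero_of_neg h1 (by norm_num)

lemma IsLine.sq (h : IsLine C P x) : x * x = 0 := by
  have h1 := C.mul_mem h.deg h.deg
  exact hC.gr_top P _ _ h1 (by rw [h.dim]; norm_num)

lemma hasDegree_zero : HasDegree C (0 : C.A X) 0 := by
  intro Y
  rw [map_zero, map_zero, map_zero, map_zero, zero_smul]
  exact ⟨rfl, rfl⟩

lemma IsLine.comp00 (h : IsLine C P x) :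
    C.comp (C.ext x (1 : C.A P)) (C.ext x (1 : C.A P)) = C.ext x 1 := by
  rw [comp_ext_ext (q := 1) (by rw [one_mul]; exact h.degree), one_smul]

lemma IsLine.comp22 (h : IsLine C P x) :
    C.comp (C.ext (1 : C.A P) x) (C.ext (1 : C.A P) x) = C.ext 1 x := by
  rw [comp_ext_ext (q := 1) (by rw [mul_one]; exact h.degree), one_smul]

lemma IsLine.comp02 (h : IsLine C P x) :
    C.comp (C.ext x (1 : C.A P)) (C.ext (1 : C.A P) x) = 0 := by
  rw [comp_ext_ext (q := 0) (by rw [mul_one]; exact h.one_degree (H := H)), zero_smul]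

lemma IsLine.comp20 (h : IsLine C P x) :
    C.comp (C.ext (1 : C.A P) x) (C.ext x (1 : C.A P)) = 0 := by
  rw [comp_ext_ext (q := 0) (by rw [h.sq (H := H)]; exact hasDegree_zero (H := H)), zero_smul]

lemma IsLine.act0 (h : IsLine C P x) {m : ℤ} {a : H.A P} (ha : a ∈ H.gr P m) (hm : m ≠ 0) :
    H.act (H.cl (C.ext x (1 : C.A P))) a = 0 := by
  by_cases hm0 : m < 0
  · rw [hgr_neg ha hm0, TheoryData.act_map_zero]
  have h1 : H.cl (C.ext x (1 : C.A P)) = H.ext (H.cl x) 1 := by
    simp only [TheoryData.ext, map_mul, H.cl_pull, map_one]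
  have h2 : H.cl x * a ∈ H.gr P (2 * 1 + m) := H.mul_mem (H.cl_mem h.deg) ha
  have h3 : H.cl x * a = 0 := by
    rw [gr_top H (by rw [h.dim]; push_cast; omega)] at h2
    exact (Submodule.mem_bot _).1 h2
  rw [h1, TheoryData.act_apply, TheoryData.ext, map_one, mul_one, ← map_mul, h3, map_zero,
    map_zero]

lemma IsLine.act2 (h : IsLine C P x) {m : ℤ} {a : H.A P} (ha : a ∈ H.gr P m) (hm : m ≠ 2) :
    H.act (H.cl (C.ext (1 : C.A P) x)) a = 0 := by
  by_cases hm2 : 2 < m
  · rw [gr_top H (by rw [h.dim]; push_cast; omega)] at ha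
    rw [(Submodule.mem_bot _).1 ha, TheoryData.act_map_zero]
  have h4 : C.ext (1 : C.A P) x ∈ C.gr (P.prod P) ((P.dim : ℤ) + 0) := by
    have := ext_mem (C := C) (H := H) (C.one_mem P) h.deg
    rw [h.dim]
    exact this
  have h1 : H.cl (C.ext (1 : C.A P) x) = H.pull (snd P P) (H.cl x) := by
    simp only [TheoryData.ext, map_mul, H.cl_pull, map_one, one_mul]
  have h5 : H.push (snd P P) (H.pull (fst P P) a) ∈ H.gr P (m - 2) := by
    have h6 := H.push_mem (snd P P) (H.pull_mem (fst P P) ha)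
    have e1 : m + 2 * ((P.dim : ℤ) - ((P.prod P).dim : ℤ)) = m - 2 := by
      rw [dim_prod, h.dim]; push_cast; ring
    rwa [e1] at h6
  have h7 : H.push (snd P P) (H.pull (fst P P) a) = 0 := hgr_neg h5 (by omega)
  rw [h1, TheoryData.act_apply, H.proj_left, h7, mul_zero]

/-- The decomposition of the projective line. -/
lemma IsLine.ck (h : IsLine C P x) : IsCK H P (lineCK C x) := by
  have e0 : lineCK C x 0 = C.ext x 1 := if_pos rfl
  have e2 : lineCK C x 2 = C.ext 1 x := by
    unfold lineCK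
    rw [if_neg (by norm_num), if_pos rfl]
  have en : ∀ i, i ≠ 0 → i ≠ 2 → lineCK C x i = 0 := fun i h0 h2 => by
    unfold lineCK
    rw [if_neg h0, if_neg h2]
  have hsplit : ∀ a : H.A P, a = H.act (H.cl (C.ext x (1 : C.A P))) a +
      H.act (H.cl (C.ext (1 : C.A P) x)) a := by
    intro a
    rw [← TheoryData.act_add, ← map_add, ← h.diagonal, actH_dg]
  refine ⟨fun i => ?_, fun i hi => ?_, fun i => ?_, fun i j hij => ?_, ?_, fun i a ha => ?_,
    fun i m a hm ha => ?_⟩
  · by_cases h0 : i = 0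
    · rw [h0, e0]
      have := ext_mem (C := C) (H := H) h.deg (C.one_mem P)
      rw [add_zero] at this
      rw [h.dim]
      exact this
    · by_cases h2 : i = 2
      · rw [h2, e2]
        have := ext_mem (C := C) (H := H) (C.one_mem P) h.deg
        rw [zero_add] at this
        rw [h.dim]
        exact this
      · rw [en i h0 h2]
        exact Submodule.zero_mem _
  · rw [h.dim] at hi
    exact en i (by omega) (by omega)
  · by_cases h0 : i = 0
    · rw [h0, e0, h.comp00 (H := H)]
    · by_cases h2 : i = 2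
      · rw [h2, e2, h.comp22 (H := H)]
      · rw [en i h0 h2, zero_comp]
  · by_cases h0 : i = 0
    · subst h0
      by_cases h2 : j = 2
      · rw [e0, h2, e2, h.comp02 (H := H)]
      · rw [en j (Ne.symm hij) h2, comp_zero]
    · by_cases h2 : i = 2
      · subst h2
        by_cases h3 : j = 0
        · rw [e2, h3, e0, h.comp20 (H := H)]
        · rw [en j h3 (Ne.symm hij), comp_zero]
      · rw [en i h0 h2, zero_comp]
  · rw [h.dim, Finset.sum_range_succ, Finset.sum_range_succ, Finset.sum_range_succ,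
      Finset.sum_range_zero, zero_add, e0, e2, en 1 (by norm_num) (by norm_num), add_zero,
      h.diagonal]
  · have h1 : a ∈ H.gr P i := ha
    by_cases h0 : i = 0
    · have h2 := hsplit a
      rw [h.act2 h1 (by omega), add_zero] at h2
      rw [h0, e0]
      exact h2.symm
    · by_cases h2 : i = 2
      · have h3 := hsplit a
        rw [h.act0 h1 (by omega), zero_add] at h3
        rw [h2, e2]
        exact h3.symm
      · have h3 := hsplit a
        rw [h.act0 h1 (by omega), h.act2 h1 (by omega), add_zero] at h3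
        rw [h3, TheoryData.act_map_zero]
  · have h1 : a ∈ H.gr P m := ha
    by_cases h0 : i = 0
    · rw [h0, e0]
      exact h.act0 h1 (by omega)
    · by_cases h2 : i = 2
      · rw [h2, e2]
        exact h.act2 h1 (by omega)
      · rw [en i h0 h2, map_zero, TheoryData.act_zero]

/-- The component of `y × x` on `X × P`. -/
lemma IsLine.step (h : IsLine C P x) {π : ℕ → C.A (X.prod X)} {j : ℕ} {y : C.A X}
    (hy : C.act (prodCK C π (lineCK C x) (j + 2)) (C.ext y x) = 0) : C.act (π j) y = 0 := by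
  have e0 : C.act (lineCK C x 0) x = 0 := by
    have h1 : lineCK C x 0 = C.ext x 1 := if_pos rfl
    rw [h1, act_ext (H := H), h.sq (H := H), map_zero, map_zero, zero_mul]
  have e2 : C.act (lineCK C x 2) x = x := by
    have h1 : lineCK C x 2 = C.ext 1 x := by
      unfold lineCK
      rw [if_neg (by norm_num), if_pos rfl]
    have h2 : C.act (dg C P) x = C.act (C.ext x (1 : C.A P)) x + C.act (C.ext 1 x) x := by
      rw [h.diagonal, TheoryData.act_add]
    rw [act_dg] at h2
    have h3 : lineCK C x 0 = C.ext x 1 := if_pos rfl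
    rw [h3] at e0
    rw [e0, zero_add] at h2
    rw [h1]
    exact h2.symm
  have en : ∀ i, i ≠ 0 → i ≠ 2 → C.act (lineCK C x i) x = 0 := fun i h0 h2 => by
    unfold lineCK
    rw [if_neg h0, if_neg h2, TheoryData.act_zero]
  have h1 : C.act (prodCK C π (lineCK C x) (j + 2)) (C.ext y x) = C.ext (C.act (π j) y) x := by
    unfold prodCK
    rw [act_sum, Finset.sum_eq_single j]
    · rw [act_tens_ext C _ _ (fun f c => ch_comm C _ _), show j + 2 - j = 2 by omega, e2]
    · intro i hi hij
      rw [Finset.mem_range] at hi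
      rw [act_tens_ext C _ _ (fun f c => ch_comm C _ _)]
      by_cases hi2 : j + 2 - i = 0
      · rw [hi2, e0]
        simp only [TheoryData.ext, map_zero, mul_zero]
      · rw [en _ hi2 (by omega)]
        simp only [TheoryData.ext, map_zero, mul_zero]
    · intro h2
      exact absurd (Finset.mem_range.2 (by omega)) h2
  rw [h1] at hy
  have h2 : C.push (fst X P) (C.ext (C.act (π j) y) x) = C.act (π j) y := by
    rw [TheoryData.ext, C.proj_left, (h.degree X).2, one_smul, mul_one]
  rw [← h2, hy, map_zero]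

/-- The component of `y × P` on `X × P`. -/
lemma IsLine.step0 (h : IsLine C P x) {π : ℕ → C.A (X.prod X)} {j : ℕ} {y : C.A X}
    (hy : C.act (prodCK C π (lineCK C x) j) (C.ext y 1) = 0) : C.act (π j) y = 0 := by
  have e0 : C.act (lineCK C x 0) 1 = 1 := by
    have h1 : lineCK C x 0 = C.ext x 1 := if_pos rfl
    rw [h1, act_ext (H := H), mul_one, mul_one, (h.degree P).1, one_smul]
  have e2 : C.act (lineCK C x 2) 1 = 0 := by
    have h1 : lineCK C x 2 = C.ext 1 x := by
      unfold lineCK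
      rw [if_neg (by norm_num), if_pos rfl]
    rw [h1, act_ext (H := H), mul_one, ((h.one_degree (H := H)) P).1, zero_smul, zero_mul]
  have en : ∀ i, i ≠ 0 → C.act (lineCK C x i) 1 = 0 := fun i h0 => by
    by_cases h2 : i = 2
    · rw [h2, e2]
    · unfold lineCK
      rw [if_neg h0, if_neg h2, TheoryData.act_zero]
  have h1 : C.act (prodCK C π (lineCK C x) j) (C.ext y 1) = C.ext (C.act (π j) y) 1 := by
    unfold prodCK
    rw [act_sum, Finset.sum_eq_single j]
    · rw [act_tens_ext C _ _ (fun f c => ch_comm C _ _), show j - j = 0 by omega, e0]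
    · intro i hi hij
      rw [Finset.mem_range] at hi
      rw [act_tens_ext C _ _ (fun f c => ch_comm C _ _), en _ (by omega)]
      simp only [TheoryData.ext, map_zero, mul_zero]
    · intro h2
      exact absurd (Finset.mem_range.2 (by omega)) h2
  rw [h1] at hy
  have h2 : C.push (fst X P) (C.ext (C.act (π j) y) 1 * C.pull (snd X P) x) = C.act (π j) y := by
    have h3 : C.ext (C.act (π j) y) (1 : C.A P) = C.pull (fst X P) (C.act (π j) y) := by
      rw [TheoryData.ext, map_one, mul_one]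
    rw [h3, C.proj_left, (h.degree X).2, one_smul, mul_one]
  rw [← h2, hy, zero_mul, map_zero]

/-- The restriction on the dimension is harmless. -/
lemma noJump_all (h : IsLine C P x)
    (hJ : ∀ (X : 𝒱.Obj) (π : ℕ → C.A (X.prod X)), IsCK H X π → NoJump π) :
    ∀ (n : ℕ) (X : 𝒱.Obj) (π : ℕ → C.A (X.prod X)), IsCK H X π → ∀ l : ℕ,
      2 * (l + 1) ≤ X.dim + n → ∀ y : C.A X, C.Deg (l + 1) y → C.act (π l) y = 0 := by
  intro n
  induction n with
  | zero =>
    intro X π hπ l hl y hy
    exact hJ X π hπ l y hl hy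
  | succ n ih =>
    intro X π hπ l hl y hy
    apply h.step0 (H := H)
    refine ih (X.prod P) _ (hπ.prod (h.ck (H := H))) l (by rw [dim_prod, h.dim]; omega) _ ?_
    have h1 := ext_mem (C := C) (H := H) hy (C.one_mem P)
    rw [add_zero] at h1
    exact h1

/-- All the components of too small weight vanish if the first one does, for all varieties. -/
theorem b1_of_noJump (h : IsLine C P x)
    (hJ : ∀ (X : 𝒱.Obj) (π : ℕ → C.A (X.prod X)), IsCK H X π → NoJump π) :
    ∀ (n : ℕ) (X : 𝒱.Obj) (π : ℕ → C.A (X.prod X)), IsCK H X π → ∀ (i j : ℕ), i = j + 1 + n →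
      ∀ y ∈ C.gr X i, C.act (π j) y = 0 := by
  intro n
  induction n with
  | zero =>
    intro X π hπ i j hij y hy
    refine noJump_all h hJ (2 * (j + 1)) X π hπ j (by omega) y ?_
    have : (i : ℤ) = j + 1 := by omega
    rw [this] at hy
    exact hy
  | succ n ih =>
    intro X π hπ i j hij y hy
    apply h.step (H := H)
    refine ih (X.prod P) _ (hπ.prod (h.ck (H := H))) (i + 1) (j + 2) (by omega) _ ?_
    have h1 := ext_mem (C := C) (H := H) hy h.deg
    push_cast
    exact h1

lemma murreB1_of (hJ : ∀ (X : 𝒱.Obj) (π : ℕ → C.A (X.prod X)), IsCK H X π → NoJump π)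
    (h : IsLine C P x) (X : 𝒱.Obj) : MurreB1 H X := by
  intro π hπ i
  rw [eq_bot_iff]
  intro y hy
  rw [hπ.mem_ckFil] at hy
  rw [Submodule.mem_bot]
  have h1 : y = ∑ j ∈ Finset.range (2 * X.dim + 1), C.act (π j) y := by
    rw [← act_sum, hπ.sum, act_dg]
  rw [h1]
  apply Finset.sum_eq_zero
  intro j _
  by_cases hj : i ≤ j
  · exact hy.2 j (by omega)
  · exact b1_of_noJump h hJ (i - 1 - j) X π hπ i j (by omega) y hy.1

lemma noJump_of_murreB1 (hX : MurreB1 H X) {π : ℕ → C.A (X.prod X)} (hπ : IsCK H X π) :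
    NoJump π := by
  intro l y _ hy
  have hm : C.act (π l) y ∈ C.gr X (l + 1) := act_mem0 C (hπ.deg l) hy
  have h1 : C.act (π l) y ∈ ckFil C π (l + 1) (l + 1 + 1) := by
    rw [hπ.mem_ckFil]
    refine ⟨by exact_mod_cast hm, fun j hj => ?_⟩
    rw [← C.act_comp, hπ.orth l j (by omega), TheoryData.act_zero]
  rw [hX π hπ (l + 1)] at h1
  exact (Submodule.mem_bot _).1 h1

/-- `F^0 = CH` in the middle of the square implies `F^0 = CH` for all the Chow groups of `X`. -/
lemma murreB0_of_middle (hX : ∀ ρ : ℕ → C.A ((X.prod X).prod (X.prod X)),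
    IsCK H (X.prod X) ρ → ckFil C ρ X.dim 0 = C.gr (X.prod X) X.dim) : MurreB0 H X := by
  rw [murreB0_iff]
  intro π hπ l j y hy hj
  by_cases hl : l ≤ X.dim
  swap
  · have h1 : y = 0 := hC.gr_top X l y hy (by omega)
    rw [h1, TheoryData.act_map_zero]
  by_cases hjd : 2 * X.dim < j
  · rw [hπ.out j hjd, TheoryData.act_zero]
  obtain ⟨a, ha, b, hb, hab⟩ := exists_dual_pair (C := C) (H := H) X (l := l) hl
  set α := C.act (π j) y with hα
  have hαm : α ∈ C.gr X l := act_mem0 C (hπ.deg j) hy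
  have hαj : C.act (π j) α = α := by rw [hα, ← C.act_comp, hπ.idem]
  set a' := C.act (π (2 * l)) a with ha'
  have ha'm : a' ∈ C.gr X l := act_mem0 C (hπ.deg (2 * l)) ha
  have hcl : H.cl a' = H.cl a := by
    rw [ha', cl_act]
    exact hπ.act_self (2 * l) _ (by
      have := H.cl_mem ha
      exact_mod_cast this)
  have hdeg : C.push (snd X X) (C.pull (fst X X) (b * a')) = 1 := by
    rw [← hab]
    apply deg_eq_of_cl (H := H)
    · have := C.mul_mem hb ha'm
      rwa [sub_add_cancel] at this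
    · have := C.mul_mem hb ha
      rwa [sub_add_cancel] at this
    · rw [map_mul, map_mul, hcl]
  have hγm : C.ext b α ∈ C.gr (X.prod X) X.dim := by
    have := ext_mem (C := C) (H := H) hb hαm
    rw [sub_add_cancel] at this
    exact this
  have h1 : C.comp (C.comp (π (2 * l)) (C.ext b α)) (π j) = 0 := by
    apply comp_zero_of_prod (H := H) hπ hπ (by omega)
    have hρ := hπ.dual.prod hπ
    have h2 : C.ext b α ∈ ckFil C (prodCK C (dualCK C π) π) X.dim 0 := by
      rw [hX _ hρ]
      exact hγm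
    rw [hρ.mem_ckFil] at h2
    exact h2.2 _ (by omega)
  have h2 : C.act (C.comp (C.comp (π (2 * l)) (C.ext b α)) (π j)) a = α := by
    rw [C.act_comp, C.act_comp, ← ha', act_ext (H := H), hdeg, one_mul, hαj]
  rw [h1, TheoryData.act_zero] at h2
  exact h2.symm

/-- The second half of conjecture (B) for all varieties. -/
theorem murreB1_iff (h : IsLine C P x) :
    (∀ X : 𝒱.Obj, MurreB1 H X) ↔
      ∀ (X : 𝒱.Obj) (π : ℕ → C.A (X.prod X)), IsCK H X π → NoJump π :=
  ⟨fun hB X _ hπ => noJump_of_murreB1 (hB X) hπ, fun hJ X => murreB1_of hJ h X⟩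

/-- Conjecture (B) for all varieties. -/
theorem murreB_iff (h : IsLine C P x) :
    (∀ X : 𝒱.Obj, MurreB0 H X ∧ MurreB1 H X) ↔
      ∀ X : 𝒱.Obj, (∀ ρ : ℕ → C.A ((X.prod X).prod (X.prod X)), IsCK H (X.prod X) ρ →
        ckFil C ρ X.dim 0 = C.gr (X.prod X) X.dim) ∧
        ∀ π : ℕ → C.A (X.prod X), IsCK H X π → NoJump π := by
  constructor
  · intro hB X
    exact ⟨fun ρ hρ => (hB (X.prod X)).1 ρ hρ X.dim,
      fun π hπ => noJump_of_murreB1 (hB X).2 hπ⟩
  · intro hB X
    exact ⟨murreB0_of_middle (hB X).1, murreB1_of (fun Y π hπ => (hB Y).2 π hπ) h X⟩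

/-- All conjectures for all varieties. -/
theorem murre_all_iff (h : IsLine C P x) :
    (∀ X : 𝒱.Obj, (∃ π, IsCK H X π) ∧ MurreB0 H X ∧ MurreB1 H X ∧ MurreC H X ∧ MurreD H X) ↔
      ∀ X : 𝒱.Obj, ∃ π, IsCK H X π ∧ MurreDFor H (squareCK π) X.dim ∧ NoJump π := by
  constructor
  · intro hA X
    obtain ⟨⟨π, hπ⟩, -, hB1, -, -⟩ := hA X
    exact ⟨π, hπ, fun y => (hA (X.prod X)).2.2.2.2 _ (hπ.dual.prod hπ) X.dim y,
      noJump_of_murreB1 hB1 hπ⟩
  · intro hA
    have hs : ∀ (X : 𝒱.Obj) (π : ℕ → C.A (X.prod X)), IsCK H X π → NoJump π := by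
      intro X π' hπ' l y hl hy
      obtain ⟨π, hπ, hD, hJ⟩ := hA X
      let Q : ℕ → Cor C X := π
      let Q' : ℕ → Cor C X := π'
      obtain ⟨u, v, hu, hv, -, -, -, -, hP⟩ :=
        exists_unit (P := Q) (P' := Q') hπ ((strictFor_iff hπ).1 hD) hπ'
      have h1 : actC C X (Q' l) y = 0 := by
        rw [hP l, map_mul, map_mul, Module.End.mul_apply, Module.End.mul_apply]
        have h3 : actC C X (Q l) (actC C X v y) = 0 :=
          hJ l _ hl (actC_mem (H := H) hv hy)
        rw [h3, map_zero]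
      exact h1
    intro X
    obtain ⟨π, hπ, hD, -⟩ := hA X
    have hst := (strictFor_iff hπ).1 hD
    exact ⟨⟨π, hπ⟩, hst.murreB0 hπ, murreB1_of hs h X, hst.murreC hπ, hst.murreD hπ⟩

end Pool.Agent.Run7.H634.Mur
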