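import Pool.Agent.TH133.Defs

/-!
# Strictly lowering Chow-Kunneth decompositions: definitions
-/

set_option autoImplicit false

open CategoryTheory AlgebraicGeometry

universe u v w

namespace Pool.Agent.Run7.H634.Mur

open Pool.Agent.H914 Pool.Agent.H914.VarClass Pool.Agent.H914.VarClass.Obj Pool.Agent.W492.BB
  Pool.Agent.W550.Corr Pool.Agent.TH133

variable {k : Type u} [Field k] {𝒱 : VarClass k} {C : TheoryData.{u, v, 0} 𝒱 ℚ} {K : Type w}
  [Field K] (H : WeilTheoryData.{u, v, w} C K)

/-- Murre's conjecture (D) for the group `CH^l(X)` and the family `π` (a Chow-Kunneth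
decomposition): `F^1 CH^l(X)` is the group of homologically trivial cycles. -/
def MurreDFor {X : 𝒱.Obj} (π : ℕ → C.A (X.prod X)) (l : ℕ) : Prop :=
  ∀ x : C.A X, x ∈ ckFil C π l 1 ↔ C.Deg l x ∧ H.cl x = 0

/-- Homologically trivial self-correspondences of degree zero strictly lower the weights of the
decomposition `π`: the morphisms from `h^a = (X, π a)` to `h^b = (X, π b)` which are zero on the
cohomology are zero if `a ≤ b`. -/
def StrictFor {X : 𝒱.Obj} (π : ℕ → C.A (X.prod X)) : Prop :=
  ∀ γ : C.A (X.prod X), C.Deg X.dim γ → H.cl γ = 0 →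
    ∀ a b : ℕ, a ≤ b → C.comp (C.comp (π a) γ) (π b) = 0

/-- The decomposition of `X × X` which is the product of the dual of `π` (the `i`-th member is the
transpose of `π (2 dim X - i)`) and of `π`. -/
noncomputable def squareCK {X : 𝒱.Obj} (π : ℕ → C.A (X.prod X)) :
    ℕ → C.A ((X.prod X).prod (X.prod X)) :=
  fun n => ∑ i ∈ Finset.range (n + 1),
    C.pull (prodMap (fst X X) (fst X X)) (if i ≤ 2 * X.dim then tp C (π (2 * X.dim - i)) else 0) *
      C.pull (prodMap (snd X X) (snd X X)) (π (n - i))

end Pool.Agent.Run7.H634.Mur
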