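import Pool.Agent.Run7.h634.Mur.SFDefs
import Pool.Agent.Run7.h634.Mur.FD3
import Pool.Agent.TH133.SelfDual

/-!
# Self-dual Chow-Kunneth decompositions: surfaces and finite-dimensional motives
-/

set_option autoImplicit false

open CategoryTheory AlgebraicGeometry

universe u v w

namespace Pool.Agent.Run7.H634.Mur

open Pool.Agent.H914 Pool.Agent.H914.VarClass Pool.Agent.H914.VarClass.Obj Pool.Agent.W492.BB
  Pool.Agent.W550.Corr Pool.Agent.TH133 Pool.Agent.X308.S Pool.Agent.Y148.BB

set_option linter.unusedSectionVars false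

variable {k : Type u} [Field k] {𝒱 : VarClass k} {C : TheoryData.{u, v, 0} 𝒱 ℚ}
  [hC : IsChowProj C] {K : Type w} [Field K]
  {H : WeilTheoryData.{u, v, w} C K} [hH : IsWeilProj H] {X : 𝒱.Obj}

include hC hH

lemma surf_tp {s : Cor C X} (h : (s : C.A (X.prod X)) ∈ throughSurfaces C X) :
    ((tpR C X s : Cor C X) : C.A (X.prod X)) ∈ throughSurfaces C X := by
  have key : ∀ s : C.A (X.prod X), s ∈ throughSurfaces C X → tp C s ∈ throughSurfaces C X := by
    intro s hs
    unfold throughSurfaces at hs
    induction hs using Submodule.span_induction with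
    | mem s hs =>
      obtain ⟨S, n, a, b, hd, ha, hb, rfl⟩ := hs
      apply Submodule.subset_span
      refine ⟨S, X.dim - 2 - n, tp C b, tp C a, hd, ?_, ?_, ?_⟩
      · have := tp_mem C hb
        rwa [show (X.dim : ℤ) - (X.dim - 2 - n) = 2 + n by ring]
      · have := tp_mem C ha
        rwa [show (2 : ℤ) + (X.dim - 2 - n) = X.dim - n by ring]
      · exact tp_comp' a b
    | zero => rw [tp_zero]; exact Submodule.zero_mem _
    | add x y _ _ hx hy =>
      have h1 : tp C (x + y) = tp C x + tp C y := map_add _ _ _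
      rw [h1]
      exact Submodule.add_mem _ hx hy
    | smul q x _ hx =>
      have h1 : tp C (q • x) = q • tp C x := map_smul _ _ _
      rw [h1]
      exact Submodule.smul_mem _ q hx
  exact key s h

/-- The self-dual decomposition of a symmetric idempotent which factors through surfaces. -/
lemma selfDual_surface (hS : SurfaceProperties H) {p : Cor C X} (hpp : p * p = p)
    (htp : tpR C X p = p) (hp : (p : C.A (X.prod X)) ∈ throughSurfaces C X) :
    ∃ q : ℕ → Cor C X, (∀ w, q w ∈ cor0 C X) ∧
      (∀ i j, q i * q j = if i = j then q i else 0) ∧ (∀ w, p * q w = q w ∧ q w * p = q w) ∧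
      (∀ w ≤ 2 * X.dim, tpR C X (q w) = q (2 * X.dim - w)) ∧
      ∀ (i : ℕ) (m : ℤ) (a : H.A X), i ≤ 2 * X.dim → a ∈ H.gr X m →
        actH C X H (q i) a = if m = i then actH C X H p a else 0 := by
  have h1 := through_le hS X hp
  obtain ⟨f, hf, hfs⟩ := (Submodule.mem_iSup_iff_exists_finsupp _ _).1 h1
  have hfs' : ∑ w ∈ f.support, f w = (p : C.A (X.prod X)) := hfs
  have hsub : f.support ⊆ (Finset.Icc 0 (2 * X.dim)).image (fun w : ℕ => (w : ℤ)) := by
    intro w hw
    rw [Finsupp.mem_support_iff] at hw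
    have h2 : 0 ≤ w := by
      by_contra hcon
      exact hw (wt_neg hS (by omega) (hf w))
    have h3 : w ≤ 2 * X.dim := by
      by_contra hcon
      exact hw (wt_big hS (by omega) (hf w))
    obtain ⟨w, rfl⟩ := Int.eq_ofNat_of_zero_le h2
    rw [Finset.mem_image]
    exact ⟨w, Finset.mem_Icc.2 ⟨Nat.zero_le _, by omega⟩, rfl⟩
  let F : ℕ → Cor C X := fun w => f (w : ℤ)
  have hsum : ∑ w ∈ Finset.Icc 0 (0 + 2 * X.dim), F w = p := by
    rw [zero_add]
    have h2 : ∑ w ∈ Finset.Icc 0 (2 * X.dim), (f (w : ℤ) : C.A (X.prod X)) =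
        (p : C.A (X.prod X)) := by
      rw [← hfs', Finset.sum_subset hsub, Finset.sum_image (fun x _ y _ hxy => by simpa using hxy)]
      intro w _ hw
      rwa [Finsupp.notMem_support_iff] at hw
    exact h2
  have hI : TriIdeals (A := Cor C X) (cor0 C X).toSubring
      (fun w : ℕ => (wt H X (w : ℤ)).toAddSubgroup) :=
    { le := fun w x hx => (triIdeals hS X).le w x hx
      left := fun w a x ha hx => (triIdeals hS X).left w a x ha hx
      right := fun w a x ha hx => (triIdeals hS X).right w a x ha hx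
      tri := fun w w' x y hlt hx hy => (triIdeals hS X).tri w w' x y (by exact_mod_cast hlt) hx hy }
  obtain ⟨q, h2, h3, h4, h5, h5', h6⟩ := exists_selfDual (A := Cor C X) hI
    (fun w r x hx => Submodule.smul_mem (wt H X (w : ℤ)) r hx)
    (tpR C X) (fun r a => tpR_smul r a) (fun a => tpR_tpR a)
    (fun a b => tpR_mul a b) X.dim 0 p F (surf_mem (H := H) hp) hpp
    htp (fun w _ => hf w) (fun w hw x hx => by
      rw [Finset.mem_Icc] at hw
      exact wt_tp (w := (w : ℤ)) (w' := ((2 * 0 + 2 * X.dim - w : ℕ) : ℤ)) hx (by omega)) hsum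
  have hsumq : ∑ i ∈ Finset.range (2 * X.dim + 1), q i = p := by
    rw [← h5]
    apply Finset.sum_congr _ (fun _ _ => rfl)
    ext i
    rw [Finset.mem_range, Finset.mem_Icc]
    omega
  refine ⟨q, fun w => wt_mem (h2 w), h4, h5', fun w hw => ?_, fun i m a hi ha => ?_⟩
  · have h7 := h6 w (Finset.mem_Icc.2 (by omega))
    simp only [mul_zero, zero_add] at h7
    exact h7
  · split_ifs with hm
    · rw [← hsumq, map_sum, LinearMap.sum_apply]
      symm
      apply Finset.sum_eq_single i
      · intro j _ hj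
        exact wt_actH (h2 j) ha (by omega)
      · intro h8
        exact absurd (Finset.mem_range.2 (by omega)) h8
    · exact wt_actH (h2 i) ha hm

/-- The adjoint of an endomorphism which is zero on `H^(2d - m)` is zero on `H^m`. -/
lemma actH_tp_zero {z : Cor C X} (hz : z ∈ cor0 C X) {m : ℤ}
    (h : ∀ a ∈ H.gr X (2 * X.dim - m), actH C X H z a = 0) :
    ∀ b ∈ H.gr X m, actH C X H (tpR C X z) b = 0 := by
  intro b hb
  apply H.nondeg
  have h2 : H.tr X ∘ₗ LinearMap.mulLeft K (actH C X H (tpR C X z) b) = 0 := by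
    apply ext_gr H
    intro n a ha
    rw [LinearMap.comp_apply, LinearMap.mulLeft_apply, LinearMap.zero_apply]
    have h3 : H.tr X (H.act (H.cl (tp C (X := X) (Y := X) z)) b * a) =
        H.tr X (b * H.act (H.cl (X := X.prod X) z) a) := tr_act' H z a b
    have h4 : H.act (X := X) (Y := X) (H.cl (X := X.prod X) z) a = actH C X H z a := rfl
    refine h3.trans ?_
    rw [h4]
    by_cases hn : n = 2 * X.dim - m
    · rw [h a (by rw [← hn]; exact ha), mul_zero, map_zero]
    · exact tr_zero H (H.mul_mem hb (actH_mem0 hz ha)) (by omega)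
  exact fun a => LinearMap.congr_fun h2 a

end Pool.Agent.Run7.H634.Mur
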