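import Pool.Agent.Run7.h634.Mur.SF

/-!
# Self-dual Chow-Kunneth decompositions: the finite-dimensional part and the theorem
-/

set_option autoImplicit false

open CategoryTheory AlgebraicGeometry

universe u v w

namespace Pool.Agent.Run7.H634.Mur

open Pool.Agent.H914 Pool.Agent.H914.VarClass Pool.Agent.H914.VarClass.Obj Pool.Agent.W492.BB
  Pool.Agent.W550.Corr Pool.Agent.TH133 Pool.Agent.X308.S Pool.Agent.Y148.BB

set_option linter.unusedSectionVars false

variable {k : Type u} [Field k] {𝒱 : VarClass k} {C : TheoryData.{u, v, 0} 𝒱 ℚ}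
  [hC : IsChowProj C] {K : Type w} [Field K]
  {H : WeilTheoryData.{u, v, w} C K} [hH : IsWeilProj H] {X : 𝒱.Obj}

include hC

lemma aeval_of_sum {γ : Cor C X} {n : ℕ} {q : ℕ → ℚ} {i : ℕ} (hi : i ≤ n) (hqi : q i ≠ 0)
    (h : ∑ i ∈ Finset.range (n + 1), q i • compList C X (List.replicate i γ) = 0) :
    ∃ f : Polynomial ℚ, f ≠ 0 ∧ Polynomial.aeval γ f = 0 := by
  refine ⟨∑ i ∈ Finset.range (n + 1), Polynomial.C (q i) * Polynomial.X ^ i, ?_, ?_⟩
  · intro h0
    apply hqi
    have h1 := congrArg (fun p => Polynomial.coeff p i) h0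
    simp only [Polynomial.finset_sum_coeff, Polynomial.coeff_C_mul, Polynomial.coeff_X_pow,
      Polynomial.coeff_zero] at h1
    rw [Finset.sum_eq_single i] at h1
    · simpa using h1
    · intro j _ hj
      rw [if_neg (Ne.symm hj), mul_zero]
    · intro h2
      exact absurd (Finset.mem_range.2 (by omega)) h2
  · have h1 : ∑ i ∈ Finset.range (n + 1), q i • γ ^ i = (0 : Cor C X) := by
      have h2 : ∀ i, q i • γ ^ i = (q i • (compList C X (List.replicate i γ)) : Cor C X) :=
        fun i => by rw [compList_replicate]; rfl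
      simp_rw [h2]
      exact h
    rw [map_sum, ← h1]
    apply Finset.sum_congr rfl
    intro i _
    rw [map_mul, map_pow, Polynomial.aeval_X, Polynomial.aeval_C, Algebra.smul_def]

include hH

variable {J : Submodule ℚ (C.A (X.prod X))}

/-- Membership in the ideal, for elements of the ring. -/
def InJ (J : Submodule ℚ (C.A (X.prod X))) (x : Cor C X) : Prop := (x : C.A (X.prod X)) ∈ J

lemma InJ.mem0 (hJ : IsFinIdeal H J) {x : Cor C X} (hx : InJ J x) : x ∈ cor0 C X := hJ.deg x hx

lemma InJ.mul_right (hJ : IsFinIdeal H J) {x y : Cor C X} (hx : InJ J x) (hy : y ∈ cor0 C X) :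
    InJ J (x * y) := hJ.left y x hy hx

lemma InJ.mul_left (hJ : IsFinIdeal H J) {x y : Cor C X} (hx : InJ J x) (hy : y ∈ cor0 C X) :
    InJ J (y * x) := hJ.right y x hy hx

lemma InJ.tp (hJ : IsFinIdeal H J) {x : Cor C X} (hx : InJ J x) : InJ J (tpR C X x) :=
  hJ.transpose x hx

lemma InJ.alg (hJ : IsFinIdeal H J) {x : Cor C X} (hx : InJ J x) :
    ∃ f : Polynomial ℚ, f ≠ 0 ∧ Polynomial.aeval x f = 0 := by
  obtain ⟨n, q, ⟨i, hi, hqi⟩, h⟩ := hJ.alg x hx
  exact aeval_of_sum hi hqi h

lemma InJ.nil (hJ : IsFinIdeal H J) {x : Cor C X} (hx : InJ J x) (h : actH C X H x = 0) :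
    IsNilpotent x := by
  have h1 : H.cl (X := X.prod X) x = 0 := by
    apply hom_zero_of_act
    intro a
    exact LinearMap.congr_fun h a
  obtain ⟨n, hn⟩ := hJ.nil x hx h1
  exact ⟨n, by rw [← compList_replicate]; exact hn⟩

/-- Idempotents of the ideal which act as zero vanish. -/
lemma InJ.zero (hJ : IsFinIdeal H J) {x : Cor C X} (hx : InJ J x) (hxx : x * x = x)
    (h : actH C X H x = 0) : x = 0 := by
  obtain ⟨m, hm⟩ := hx.nil hJ h
  have h9 : IsIdempotentElem x := hxx
  by_cases hm0 : m = 0
  · subst hm0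
    rw [pow_zero] at hm
    calc x = 1 * x := (one_mul _).symm
      _ = 0 := by rw [hm, zero_mul]
  · rw [← h9.pow_eq hm0]
    exact hm

lemma inJ_zero : InJ J (0 : Cor C X) := J.zero_mem

lemma InJ.add {x y : Cor C X} (hx : InJ J x) (hy : InJ J y) : InJ J (x + y) := J.add_mem hx hy

lemma InJ.sub {x y : Cor C X} (hx : InJ J x) (hy : InJ J y) : InJ J (x - y) := J.sub_mem hx hy

lemma InJ.smul {x : Cor C X} (hx : InJ J x) (q : ℚ) : InJ J (q • x) := J.smul_mem q hx

lemma InJ.sum {ι : Type*} (s : Finset ι) {f : ι → Cor C X} (h : ∀ i ∈ s, InJ J (f i)) :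
    InJ J (∑ i ∈ s, f i) := by
  classical
  induction s using Finset.induction_on with
  | empty => rw [Finset.sum_empty]; exact inJ_zero (H := H)
  | insert i s hi ih =>
    rw [Finset.sum_insert hi]
    exact InJ.add (H := H) (h i (Finset.mem_insert_self _ _))
      (ih fun j hj => h j (Finset.mem_insert_of_mem hj))

/-- The action of the scalar `q`. -/
noncomputable def sc (H : WeilTheoryData.{u, v, w} C K) [IsWeilProj H] (X : 𝒱.Obj) (q : ℚ) :
    Module.End K (H.A X) := actH C X H (algebraMap ℚ (Cor C X) q)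

lemma sc_zero : sc H X 0 = 0 := by
  unfold sc
  rw [map_zero, map_zero]

lemma sc_one : sc H X 1 = 1 := by
  unfold sc
  rw [map_one, map_one]

lemma sc_mul (p q : ℚ) : sc H X (p * q) = sc H X p * sc H X q := by
  unfold sc
  rw [map_mul, map_mul]

lemma sc_add (p q : ℚ) : sc H X (p + q) = sc H X p + sc H X q := by
  unfold sc
  rw [map_add, map_add]

lemma sc_comm (q : ℚ) (x : Cor C X) : sc H X q * actH C X H x = actH C X H x * sc H X q := by
  unfold sc
  rw [← map_mul, ← map_mul, Algebra.commutes]

lemma actH_smul (q : ℚ) (x : Cor C X) : actH C X H (q • x) = sc H X q * actH C X H x := by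
  rw [Algebra.smul_def, map_mul]
  rfl

/-- The half of the self-dual decomposition in the ideal `J`. -/
lemma fin_part (hJ : IsFinIdeal H J) {e : Cor C X} (he : InJ J e) (hee : e * e = e)
    (hte : tpR C X e = e) :
    ∃ g : ℕ → Cor C X, (∀ n, InJ J (g n)) ∧ (∀ n, e * g n = g n ∧ g n * e = g n) ∧
      (∀ m n, m < X.dim → n < X.dim → g m * g n = if m = n then g m else 0) ∧
      (∀ m n, m < X.dim → n < X.dim → g m * tpR C X (g n) = 0) ∧
      (∀ m n, m < X.dim → n < X.dim → tpR C X (g m) * g n = 0) ∧
      (∀ (n : ℕ) (m : ℤ) (a : H.A X), n < X.dim → a ∈ H.gr X m →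
        actH C X H (g n) a = if m = n then actH C X H e a else 0) ∧
      ∀ (n : ℕ) (m : ℤ) (a : H.A X), n < X.dim → a ∈ H.gr X m →
        actH C X H (tpR C X (g n)) a = if m = (2 * X.dim - n : ℕ) then actH C X H e a else 0 := by
  classical
  set d := X.dim with hd
  choose y hyJ hy1 hy2 using hJ.weights e he
  let Y : ℕ → Cor C X := y
  have hYJ : ∀ m, InJ J (Y m) := hyJ
  have hYact : ∀ (j : ℕ) (m : ℤ) (a : H.A X), a ∈ H.gr X m →
      actH C X H (Y j) a = if m = j then actH C X H e a else 0 := by
    intro j m a ha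
    split_ifs with hm
    · subst hm
      exact hy1 j a ha
    · exact hy2 j m a hm ha
  let lam : ℤ → ℚ := fun m => (m : ℚ) - d
  -- the operator with eigenvalue `m - d` in degree `m`
  let s₁ : Cor C X := ∑ j ∈ Finset.range (2 * d + 1), lam j • Y j
  have hs₁J : InJ J s₁ := InJ.sum (H := H) _ fun j _ => (hYJ j).smul (H := H) _
  have hs₁act : ∀ (m : ℤ) (a : H.A X), a ∈ H.gr X m → 0 ≤ m → m ≤ 2 * d →
      actH C X H s₁ a = sc H X (lam m) (actH C X H e a) := by
    intro m a ha hm0 hm2
    change actH C X H (∑ j ∈ Finset.range (2 * d + 1), lam j • Y j) a = _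
    rw [map_sum, LinearMap.sum_apply, Finset.sum_eq_single m.toNat]
    · rw [actH_smul, Module.End.mul_apply, hYact _ m a ha, if_pos (by omega)]
      have h1 : ((m.toNat : ℕ) : ℤ) = m := by omega
      rw [h1]
    · intro j _ hj
      rw [actH_smul, Module.End.mul_apply, hYact _ m a ha, if_neg (by omega), map_zero]
    · intro h2
      exact absurd (Finset.mem_range.2 (by omega)) h2
  have hs₁tact : ∀ (m : ℤ) (a : H.A X), a ∈ H.gr X m → 0 ≤ m → m ≤ 2 * d →
      actH C X H (tpR C X s₁) a = sc H X (-lam m) (actH C X H e a) := by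
    intro m a ha hm0 hm2
    have hz : (s₁ - lam (2 * d - m) • e) ∈ cor0 C X :=
      (cor0 C X).sub_mem (hs₁J.mem0 hJ) ((cor0 C X).smul_mem (he.mem0 hJ) _)
    have h1 := actH_tp_zero (H := H) hz (m := m) (by
      intro b hb
      rw [← hd] at hb
      rw [map_sub, LinearMap.sub_apply, hs₁act _ b hb (by omega) (by omega), actH_smul,
        Module.End.mul_apply, sub_self]) a ha
    rw [map_sub, tpR_smul, hte, map_sub, LinearMap.sub_apply, sub_eq_zero] at h1
    rw [h1, actH_smul, Module.End.mul_apply]
    have h2 : lam (2 * d - m) = -lam m := by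
      simp only [lam]
      push_cast
      ring
    rw [h2]
  let s₂ : Cor C X := (1 / 2 : ℚ) • (s₁ - tpR C X s₁)
  have hs₂J : InJ J s₂ := (hs₁J.sub (H := H) (hs₁J.tp hJ)).smul (H := H) _
  have hs₂t : tpR C X s₂ = -s₂ := by
    change tpR C X ((1 / 2 : ℚ) • (s₁ - tpR C X s₁)) = -((1 / 2 : ℚ) • (s₁ - tpR C X s₁))
    rw [tpR_smul, map_sub, tpR_tpR, ← smul_neg, neg_sub]
  have hs₂act : ∀ (m : ℤ) (a : H.A X), a ∈ H.gr X m → 0 ≤ m → m ≤ 2 * d →
      actH C X H s₂ a = sc H X (lam m) (actH C X H e a) := by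
    intro m a ha hm0 hm2
    change actH C X H ((1 / 2 : ℚ) • (s₁ - tpR C X s₁)) a = _
    rw [actH_smul, Module.End.mul_apply, map_sub, LinearMap.sub_apply, hs₁act m a ha hm0 hm2,
      hs₁tact m a ha hm0 hm2, ← LinearMap.sub_apply]
    have h1 : sc H X (lam m) - sc H X (-lam m) = sc H X (2 * lam m) := by
      have h2 : sc H X (lam m) = sc H X (2 * lam m) + sc H X (-lam m) := by
        rw [← sc_add]
        congr 1
        ring
      rw [h2, add_sub_cancel_right]
    rw [h1, ← Module.End.mul_apply, ← sc_mul]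
    congr 2
    ring
  let s : Cor C X := e * s₂ * e
  have hem : e ∈ cor0 C X := he.mem0 hJ
  have hsJ : InJ J s := (hs₂J.mul_left hJ hem).mul_right hJ hem
  have hst : tpR C X s = -s := by
    change tpR C X (e * s₂ * e) = -(e * s₂ * e)
    rw [tpR_mul, tpR_mul, hte, hs₂t, ← mul_assoc, mul_neg, neg_mul]
  have hse : s * e = s := by
    change e * s₂ * e * e = e * s₂ * e
    rw [mul_assoc, hee]
  have hes : e * s = s := by
    change e * (e * s₂ * e) = e * s₂ * e
    rw [← mul_assoc, ← mul_assoc, hee]
  have heact : ∀ a : H.A X, actH C X H e (actH C X H e a) = actH C X H e a := by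
    intro a
    rw [← Module.End.mul_apply, ← map_mul, hee]
  have hsact : ∀ (m : ℤ) (a : H.A X), a ∈ H.gr X m → 0 ≤ m → m ≤ 2 * d →
      actH C X H s a = sc H X (lam m) (actH C X H e a) := by
    intro m a ha hm0 hm2
    change actH C X H (e * s₂ * e) a = _
    rw [map_mul, map_mul, Module.End.mul_apply, Module.End.mul_apply,
      hs₂act m _ (actH_mem0 hem ha) hm0 hm2, heact, ← Module.End.mul_apply, ← sc_comm,
      Module.End.mul_apply, heact]
  -- polynomials in `s`
  have hpoly : ∀ (f : Polynomial ℚ) (m : ℤ) (a : H.A X), a ∈ H.gr X m → 0 ≤ m → m ≤ 2 * d →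
      actH C X H (Polynomial.aeval s f * e) a = sc H X (f.eval (lam m)) (actH C X H e a) := by
    intro f m a ha hm0 hm2
    induction f using Polynomial.induction_on with
    | C q =>
      rw [Polynomial.aeval_C, map_mul, Module.End.mul_apply, Polynomial.eval_C]
      rfl
    | add f g hf hg =>
      rw [map_add, add_mul, map_add, LinearMap.add_apply, hf, hg, Polynomial.eval_add, sc_add,
        LinearMap.add_apply]
    | monomial n q h =>
      have h1 : (Polynomial.aeval s) (Polynomial.C q * Polynomial.X ^ (n + 1)) * e =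
          (Polynomial.aeval s) (Polynomial.C q * Polynomial.X ^ n) * e * s := by
        rw [pow_succ, ← mul_assoc, map_mul, Polynomial.aeval_X, mul_assoc _ s e, hse,
          mul_assoc _ e s, hes]
      have h2 : actH C X H ((Polynomial.aeval s) (Polynomial.C q * Polynomial.X ^ n) * e * s) a =
          sc H X (lam m) (actH C X H
            ((Polynomial.aeval s) (Polynomial.C q * Polynomial.X ^ n) * e) a) := by
        rw [map_mul, Module.End.mul_apply, hsact m a ha hm0 hm2, ← Module.End.mul_apply,
          ← sc_comm, Module.End.mul_apply]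
        congr 1
        rw [← Module.End.mul_apply, ← map_mul, mul_assoc, hee]
      rw [h1, h2, h, ← Module.End.mul_apply, ← sc_mul]
      congr 2
      rw [Polynomial.eval_mul, Polynomial.eval_mul, Polynomial.eval_pow, Polynomial.eval_pow,
        Polynomial.eval_X, pow_succ]
      ring
  -- the commutative algebra generated by `s` and `e`
  let B : Subalgebra ℚ (Cor C X) := Algebra.adjoin ℚ {s, e}
  have hBcomm : ∀ x ∈ B, ∀ z ∈ B, x * z = z * x := by
    intro x hx z hz
    have h2 := Algebra.isMulCommutative_adjoin ℚ (s := ({s, e} : Set (Cor C X)))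
      (by
        rintro a (rfl | ha) b (rfl | hb)
        · rfl
        · rw [Set.mem_singleton_iff.1 hb, hse, hes]
        · rw [Set.mem_singleton_iff.1 ha, hse, hes]
        · rw [Set.mem_singleton_iff.1 ha, Set.mem_singleton_iff.1 hb])
    have h3 := h2.is_comm.comm (⟨x, hx⟩ : Algebra.adjoin ℚ {s, e}) ⟨z, hz⟩
    exact congrArg Subtype.val h3
  have hsB : s ∈ B := Algebra.subset_adjoin (Set.mem_insert _ _)
  have heB : e ∈ B := Algebra.subset_adjoin (Set.mem_insert_of_mem _ rfl)
  have hBt : ∀ x ∈ B, tpR C X x ∈ B := by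
    intro x hx
    induction hx using Algebra.adjoin_induction with
    | mem x hx =>
      rcases hx with rfl | hx
      · rw [hst]
        exact B.neg_mem hsB
      · rw [Set.mem_singleton_iff.1 hx, hte]
        exact heB
    | algebraMap q =>
      rw [Algebra.algebraMap_eq_smul_one, tpR_smul, tpR_one]
      exact B.smul_mem B.one_mem q
    | add x z _ _ hx hz => rw [map_add]; exact B.add_mem hx hz
    | mul x z _ _ hx hz => rw [tpR_mul]; exact B.mul_mem hz hx
  -- Lagrange polynomials
  let S : Finset ℕ := Finset.range (2 * d + 1)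
  let v : ℕ → ℚ := fun m => lam m
  have hv : Set.InjOn v S := by
    intro m _ n _ h
    simp only [v, lam] at h
    have : (m : ℚ) = n := by
      have h' : ((m : ℤ) : ℚ) - d = ((n : ℤ) : ℚ) - d := h
      push_cast at h'
      linarith
    exact_mod_cast this
  let x : ℕ → Cor C X := fun n => Polynomial.aeval s (Lagrange.basis S v n) * e
  have hxB : ∀ n, x n ∈ B := fun n => B.mul_mem
    (Algebra.adjoin_mono (Set.singleton_subset_iff.2 (Set.mem_insert _ _))
      (Polynomial.aeval_mem_adjoin_singleton ℚ s)) heB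
  have hpm : ∀ f : Polynomial ℚ, Polynomial.aeval s f ∈ cor0 C X := fun f =>
    Algebra.adjoin_le (Set.singleton_subset_iff.2 (hsJ.mem0 hJ))
      (Polynomial.aeval_mem_adjoin_singleton ℚ s)
  have hxJ : ∀ n, InJ J (x n) := fun n => he.mul_left hJ (hpm _)
  have hxact : ∀ (n : ℕ) (m : ℤ) (a : H.A X), n < 2 * d + 1 → a ∈ H.gr X m →
      actH C X H (x n) a = if m = n then actH C X H e a else 0 := by
    intro n m a hn ha
    by_cases hm0 : m < 0
    · rw [hgr_neg ha hm0, map_zero, map_zero]
      split_ifs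
      · rfl
      · rfl
    by_cases hm2 : 2 * (d : ℤ) < m
    · rw [gr_top H hm2] at ha
      rw [(Submodule.mem_bot _).1 ha, map_zero, map_zero]
      split_ifs
      · rfl
      · rfl
    have h1 : ((m.toNat : ℕ) : ℤ) = m := by omega
    change actH C X H (Polynomial.aeval s (Lagrange.basis S v n) * e) a = _
    rw [hpoly _ m a ha (by omega) (by omega)]
    by_cases hm : m = n
    · rw [if_pos hm]
      have h2 : Polynomial.eval (lam m) (Lagrange.basis S v n) = 1 := by
        have h3 := Lagrange.eval_basis_self hv (Finset.mem_range.2 hn)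
        rw [hm]
        exact h3
      rw [h2, sc_one]
      rfl
    · rw [if_neg hm]
      have h2 : Polynomial.eval (lam m) (Lagrange.basis S v n) = 0 := by
        have h3 := Lagrange.eval_basis_of_ne (s := S) (v := v) (i := n) (j := m.toNat)
          (by omega) (Finset.mem_range.2 (by omega))
        simp only [v] at h3
        rw [h1] at h3
        exact h3
      rw [h2, sc_zero]
      rfl
  -- the idempotents
  have hg : ∀ n, n < 2 * d + 1 → ∃ g : Cor C X, g ∈ B ∧ InJ J g ∧ g * g = g ∧ e * g = g ∧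
      actH C X H g = actH C X H (x n) := by
    intro n hn
    obtain ⟨f, hf, hfx⟩ := (hxJ n).alg hJ
    obtain ⟨g, r, r', hg, hr, hr', hgg, hgr, hgr'⟩ := exists_idem_of_alg (x n) hf hfx
    have hadB : ∀ z ∈ Algebra.adjoin ℚ {x n}, z ∈ B := fun z hz =>
      Algebra.adjoin_le (Set.singleton_subset_iff.2 (hxB n)) hz
    have hadm : ∀ z ∈ Algebra.adjoin ℚ {x n}, z ∈ cor0 C X := fun z hz =>
      Algebra.adjoin_le (Set.singleton_subset_iff.2 ((hxJ n).mem0 hJ)) hz
    have hxx : actH C X H (x n) * actH C X H (x n) = actH C X H (x n) := by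
      apply ext_gr H
      intro m a ha
      rw [Module.End.mul_apply, hxact n m a hn ha]
      split_ifs with hm
      · rw [hxact n m _ hn (actH_mem0 hem ha), if_pos hm, heact]
      · rw [map_zero]
    refine ⟨g, hadB g hg, ?_, hgg, ?_, ?_⟩
    · rw [hgr]
      exact (hxJ n).mul_right hJ (hadm r hr)
    · rw [hgr, ← mul_assoc]
      congr 1
      rw [hBcomm e heB (x n) (hxB n)]
      change Polynomial.aeval s (Lagrange.basis S v n) * e * e = _
      rw [mul_assoc, hee]
    · have h1 : actH C X H (x n) * actH C X H g = actH C X H g := by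
        have h0 : actH C X H (x n * r) = actH C X H (x n) * actH C X H r := map_mul _ _ _
        rw [hgr, h0, ← mul_assoc, hxx]
      have h2 : actH C X H (x n) * (1 - actH C X H g) = 0 := by
        have h3 : (1 : Module.End K (H.A X)) - actH C X H g =
            (1 - actH C X H (x n)) * actH C X H r' := by
          rw [← map_one (actH C X H), ← map_sub, hgr', map_mul, map_sub]
        rw [h3, ← mul_assoc, mul_sub, mul_one, hxx, sub_self, zero_mul]
      rw [mul_sub, mul_one, h1, sub_eq_zero] at h2
      exact h2.symm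
  choose! g hgB hgJ hgg heg hgact using hg
  let G : ℕ → Cor C X := fun n => if n < 2 * d + 1 then g n else 0
  have hG : ∀ n, n < 2 * d + 1 → G n = g n := fun n hn => if_pos hn
  have hGB : ∀ n, G n ∈ B := by
    intro n
    by_cases hn : n < 2 * d + 1
    · rw [hG n hn]; exact hgB n hn
    · have : G n = 0 := if_neg hn
      rw [this]; exact B.zero_mem
  have hGJ : ∀ n, InJ J (G n) := by
    intro n
    by_cases hn : n < 2 * d + 1
    · rw [hG n hn]; exact hgJ n hn
    · have : G n = 0 := if_neg hn
      rw [this]; exact inJ_zero (H := H)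
  have hGG : ∀ n, G n * G n = G n := by
    intro n
    by_cases hn : n < 2 * d + 1
    · rw [hG n hn]; exact hgg n hn
    · have : G n = 0 := if_neg hn
      rw [this, mul_zero]
  have hGe : ∀ n, e * G n = G n := by
    intro n
    by_cases hn : n < 2 * d + 1
    · rw [hG n hn]; exact heg n hn
    · have : G n = 0 := if_neg hn
      rw [this, mul_zero]
  have hGact : ∀ (n : ℕ) (m : ℤ) (a : H.A X), n < d → a ∈ H.gr X m →
      actH C X H (G n) a = if m = n then actH C X H e a else 0 := by
    intro n m a hn ha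
    rw [hG n (by omega), hgact n (by omega)]
    exact hxact n m a (by omega) ha
  have hGtact : ∀ (n : ℕ) (m : ℤ) (a : H.A X), n < d → a ∈ H.gr X m →
      actH C X H (tpR C X (G n)) a = if m = (2 * d - n : ℕ) then actH C X H e a else 0 := by
    intro n m a hn ha
    by_cases hm : m = (2 * d - n : ℕ)
    · rw [if_pos hm]
      have hz : G n - e ∈ cor0 C X := (cor0 C X).sub_mem ((hGJ n).mem0 hJ) hem
      have h1 := actH_tp_zero (H := H) hz (m := m) (by
        intro b hb
        rw [← hd] at hb
        rw [map_sub, LinearMap.sub_apply, hGact n _ b hn hb, if_pos (by omega), sub_self]) a ha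
      rw [map_sub, hte, map_sub, LinearMap.sub_apply, sub_eq_zero] at h1
      exact h1
    · rw [if_neg hm]
      exact actH_tp_zero (H := H) ((hGJ n).mem0 hJ) (m := m) (by
        intro b hb
        rw [← hd] at hb
        rw [hGact n _ b hn hb, if_neg (by omega)]) a ha
  -- products of commuting idempotents
  have hprod : ∀ y z : Cor C X, y ∈ B → z ∈ B → InJ J y → InJ J z → y * y = y → z * z = z →
      actH C X H y * actH C X H z = 0 → y * z = 0 := by
    intro y z hy hz hyJ hzJ hyy hzz h
    apply (hyJ.mul_right hJ (hzJ.mem0 hJ)).zero hJ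
    · calc y * z * (y * z) = y * (z * y) * z := by simp only [mul_assoc]
        _ = y * (y * z) * z := by rw [hBcomm z hz y hy]
        _ = (y * y) * (z * z) := by simp only [mul_assoc]
        _ = y * z := by rw [hyy, hzz]
    · rw [map_mul, h]
  have htGG : ∀ n, tpR C X (G n) * tpR C X (G n) = tpR C X (G n) := fun n => by
    rw [← tpR_mul, hGG]
  have hortho : ∀ (y z : Cor C X) (i j : ℤ), i ≠ j →
      (∀ (m : ℤ) (a : H.A X), a ∈ H.gr X m →
        actH C X H y a = if m = i then actH C X H e a else 0) →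
      (∀ (m : ℤ) (a : H.A X), a ∈ H.gr X m →
        actH C X H z a = if m = j then actH C X H e a else 0) →
      actH C X H y * actH C X H z = 0 := by
    intro y z i j hij hy hz
    apply ext_gr H
    intro m a ha
    rw [Module.End.mul_apply, hz m a ha, LinearMap.zero_apply]
    split_ifs with hm
    · rw [hy m _ (actH_mem0 hem ha), if_neg (by omega)]
    · rw [map_zero]
  refine ⟨G, hGJ, fun n => ⟨hGe n, ?_⟩, fun m n hm hn => ?_, fun m n hm hn => ?_,
    fun m n hm hn => ?_, hGact, hGtact⟩
  · rw [hBcomm _ (hGB n) e heB, hGe]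
  · by_cases hmn : m = n
    · rw [if_pos hmn, ← hmn, hGG]
    · rw [if_neg hmn]
      exact hprod _ _ (hGB m) (hGB n) (hGJ m) (hGJ n) (hGG m) (hGG n)
        (hortho _ _ m n (by exact_mod_cast hmn) (fun i a ha => hGact m i a hm ha)
          (fun i a ha => hGact n i a hn ha))
  · exact hprod _ _ (hGB m) (hBt _ (hGB n)) (hGJ m) ((hGJ n).tp hJ) (hGG m) (htGG n)
      (hortho _ _ m (2 * d - n : ℕ) (by omega) (fun i a ha => hGact m i a hm ha)
        (fun i a ha => hGtact n i a hn ha))
  · exact hprod _ _ (hBt _ (hGB m)) (hGB n) ((hGJ m).tp hJ) (hGJ n) (htGG m) (hGG n)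
      (hortho _ _ (2 * d - m : ℕ) n (by omega) (fun i a ha => hGtact m i a hm ha)
        (fun i a ha => hGact n i a hn ha))

end Pool.Agent.Run7.H634.Mur
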