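import Pool.Agent.Run7.h634.Mur.SF2

/-!
# Self-dual Chow-Kunneth decompositions: the theorem
-/

set_option autoImplicit false

open CategoryTheory AlgebraicGeometry

universe u v w

namespace Pool.Agent.Run7.H634.Mur

open Pool.Agent.H914 Pool.Agent.H914.VarClass Pool.Agent.H914.VarClass.Obj Pool.Agent.W492.BB
  Pool.Agent.W550.Corr Pool.Agent.TH133 Pool.Agent.X308.S Pool.Agent.Y148.BB

set_option linter.unusedSectionVars false

variable {k : Type u} [Field k] {𝒱 : VarClass k} {C : TheoryData.{u, v, 0} 𝒱 ℚ}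
  [hC : IsChowProj C] {K : Type w} [Field K]
  {H : WeilTheoryData.{u, v, w} C K} [hH : IsWeilProj H] {X : 𝒱.Obj}
  {J : Submodule ℚ (C.A (X.prod X))}

include hC hH

/-- A symmetric splitting of the diagonal. -/
lemma exists_split (hJ : IsFinIdeal H J) (hX : IsMixed J) :
    ∃ e : Cor C X, InJ J e ∧ e * e = e ∧ tpR C X e = e ∧
      ((1 - e : Cor C X) : C.A (X.prod X)) ∈ throughSurfaces C X := by
  obtain ⟨s₀, hs₀, t₀, ht₀, hst⟩ := Submodule.mem_sup.1 hX
  let s' : Cor C X := s₀
  let t' : Cor C X := t₀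
  have hsum : s' + t' = 1 := hst
  let s : Cor C X := (1 / 2 : ℚ) • (s' + tpR C X s')
  let t : Cor C X := (1 / 2 : ℚ) • (t' + tpR C X t')
  have hsS : (s : C.A (X.prod X)) ∈ throughSurfaces C X :=
    Submodule.smul_mem _ _ (Submodule.add_mem _ hs₀ (surf_tp (H := H) (s := s') hs₀))
  have htJ : InJ J t := (InJ.add (H := H) (x := t') ht₀
    (InJ.tp hJ (x := t') ht₀)).smul (H := H) _
  have hs1 : s + t = 1 := by
    change (1 / 2 : ℚ) • (s' + tpR C X s') + (1 / 2 : ℚ) • (t' + tpR C X t') = 1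
    rw [← smul_add]
    have h1 : s' + tpR C X s' + (t' + tpR C X t') = (s' + t') + tpR C X (s' + t') := by
      rw [map_add]; abel
    rw [h1, hsum, tpR_one, ← two_smul ℚ (1 : Cor C X), smul_smul]
    norm_num
  have htt : tpR C X t = t := by
    change tpR C X ((1 / 2 : ℚ) • (t' + tpR C X t')) = (1 / 2 : ℚ) • (t' + tpR C X t')
    rw [tpR_smul, map_add, tpR_tpR, add_comm]
  obtain ⟨f, hf, hft⟩ := htJ.alg hJ
  obtain ⟨e, r, r', he, hr, hr', hee, her, her'⟩ := exists_idem_of_alg t hf hft
  have hadm : ∀ z ∈ Algebra.adjoin ℚ {t}, z ∈ cor0 C X := fun z hz =>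
    Algebra.adjoin_le (Set.singleton_subset_iff.2 (htJ.mem0 hJ)) hz
  have hcomm : ∀ x ∈ Algebra.adjoin ℚ {t}, ∀ y ∈ Algebra.adjoin ℚ {t}, x * y = y * x := by
    intro x hx y hy
    have h2 := Algebra.isMulCommutative_adjoin ℚ (s := ({t} : Set (Cor C X)))
      (by
        intro a ha b hb
        rw [Set.mem_singleton_iff.1 ha, Set.mem_singleton_iff.1 hb])
    have h3 := h2.is_comm.comm (⟨x, hx⟩ : Algebra.adjoin ℚ {t}) ⟨y, hy⟩
    exact congrArg Subtype.val h3
  have hsym : ∀ z ∈ Algebra.adjoin ℚ {t}, tpR C X z = z := by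
    intro z hz
    induction hz using Algebra.adjoin_induction with
    | mem x hx => rw [Set.mem_singleton_iff.1 hx, htt]
    | algebraMap q => rw [Algebra.algebraMap_eq_smul_one, tpR_smul, tpR_one]
    | add x z _ _ hx hz => rw [map_add, hx, hz]
    | mul x z hx' hz' hx hz => rw [tpR_mul, hx, hz, hcomm z hz' x hx']
  refine ⟨e, ?_, hee, hsym e he, ?_⟩
  · rw [her]
    exact htJ.mul_right hJ (hadm r hr)
  · have h1 : (1 : Cor C X) - e = 1 * s * r' := by
      rw [her', one_mul]
      congr 1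
      rw [← hs1]
      abel
    rw [h1]
    exact surf_mul (H := H) hsS (cor0 C X).one_mem (hadm r' hr')

/-- **Self-dual decompositions.** -/
theorem selfDual_mixed (hS : SurfaceProperties H) (hJ : IsFinIdeal H J) (hX : IsMixed J) :
    ∃ π : ℕ → C.A (X.prod X), IsCK H X π ∧ IsSelfDual C π := by
  obtain ⟨e, heJ, hee, hte, hp⟩ := exists_split hJ hX
  set d := X.dim with hd
  set p : Cor C X := 1 - e with hpd
  have hpp : p * p = p := by
    rw [hpd, mul_sub, mul_one, sub_mul, one_mul, hee, sub_self, sub_zero]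
  have htp : tpR C X p = p := by rw [hpd, map_sub, tpR_one, hte]
  have hpe : p * e = 0 := by rw [hpd, sub_mul, one_mul, hee, sub_self]
  have hep : e * p = 0 := by rw [hpd, mul_sub, mul_one, hee, sub_self]
  obtain ⟨q, q1, q2, q3, q4, q5⟩ := selfDual_surface hS hpp htp hp
  obtain ⟨g, g1, g2, g3, g4, g5, g6, g7⟩ := fin_part hJ heJ hee hte
  have hqg : ∀ m n, q m * g n = 0 := fun m n => by
    rw [← (q3 m).2, ← (g2 n).1, mul_assoc, ← mul_assoc p, hpe, zero_mul, mul_zero]
  have hgq : ∀ m n, g m * q n = 0 := fun m n => by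
    rw [← (g2 m).2, ← (q3 n).1, mul_assoc, ← mul_assoc e, hep, zero_mul, mul_zero]
  have hge' : ∀ n, e * tpR C X (g n) = tpR C X (g n) ∧ tpR C X (g n) * e = tpR C X (g n) := by
    intro n
    constructor
    · calc e * tpR C X (g n) = tpR C X e * tpR C X (g n) := by rw [hte]
        _ = tpR C X (g n * e) := (tpR_mul _ _).symm
        _ = tpR C X (g n) := by rw [(g2 n).2]
    · calc tpR C X (g n) * e = tpR C X (g n) * tpR C X e := by rw [hte]
        _ = tpR C X (e * g n) := (tpR_mul _ _).symm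
        _ = tpR C X (g n) := by rw [(g2 n).1]
  have hqtg : ∀ m n, q m * tpR C X (g n) = 0 := fun m n => by
    rw [← (q3 m).2, ← (hge' n).1, mul_assoc, ← mul_assoc p, hpe, zero_mul, mul_zero]
  have htgq : ∀ m n, tpR C X (g m) * q n = 0 := fun m n => by
    rw [← (hge' m).2, ← (q3 n).1, mul_assoc, ← mul_assoc e, hep, zero_mul, mul_zero]
  have hpe1 : ∀ a : H.A X, actH C X H p a + actH C X H e a = a := by
    intro a
    rw [← LinearMap.add_apply, ← map_add, hpd, sub_add_cancel, map_one]
    rfl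
  let Q : ℕ → Cor C X := fun n => if n < d then q n + g n else 0
  have hQ : ∀ n, n < d → Q n = q n + g n := fun n hn => if_pos hn
  have hQ0 : ∀ n, ¬ n < d → Q n = 0 := fun n hn => if_neg hn
  have hQt : ∀ n, n < d → tpR C X (Q n) = q (2 * d - n) + tpR C X (g n) := fun n hn => by
    rw [hQ n hn, map_add, q4 n (by omega)]
  apply selfDual_of_half Q
  · intro n
    by_cases hn : n < d
    · rw [hQ n hn]
      exact (cor0 C X).add_mem (q1 n) ((g1 n).mem0 hJ)
    · rw [hQ0 n hn]
      exact (cor0 C X).zero_mem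
  · intro n hn
    exact hQ0 n (by omega)
  · intro m n
    by_cases hm : m < d
    · by_cases hn : n < d
      · rw [hQ m hm, hQ n hn, add_mul, mul_add, mul_add, hqg, hgq, q2, g3 m n hm hn]
        split_ifs
        · abel
        · abel
      · rw [hQ0 n hn, mul_zero, if_neg (by omega)]
    · rw [hQ0 m hm, zero_mul]
      split_ifs
      · rfl
      · rfl
  · intro m n
    by_cases hm : m < d
    · by_cases hn : n < d
      · rw [hQ m hm, hQt n hn, add_mul, mul_add, mul_add, hqtg, hgq, g4 m n hm hn, q2,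
          if_neg (by omega)]
        abel
      · rw [hQ0 n hn, map_zero, mul_zero]
    · rw [hQ0 m hm, zero_mul]
  · intro m n
    by_cases hm : m < d
    · by_cases hn : n < d
      · rw [hQ n hn, hQt m hm, add_mul, mul_add, mul_add, hqg, htgq, g5 m n hm hn, q2,
          if_neg (by omega)]
        abel
      · rw [hQ0 n hn, mul_zero]
    · rw [hQ0 m hm, map_zero, zero_mul]
  · intro n m a hn ha
    rw [hQ n hn, map_add, LinearMap.add_apply, q5 n m a (by omega) ha, g6 n m a hn ha]
    split_ifs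
    · exact hpe1 a
    · exact add_zero _
  · intro n m a hn ha
    rw [hQt n hn, map_add, LinearMap.add_apply, q5 (2 * d - n) m a (by omega) ha,
      g7 n m a hn ha]
    split_ifs
    · exact hpe1 a
    · exact add_zero _

end Pool.Agent.Run7.H634.Mur
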