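import Pool.Agent.X308.S.Defs

/-!
# Ideals of finite-dimensional correspondences: definitions
-/

set_option autoImplicit false

open CategoryTheory AlgebraicGeometry

universe u v w

namespace Pool.Agent.Run7.H634.Mur

open Pool.Agent.H914 Pool.Agent.H914.VarClass Pool.Agent.H914.VarClass.Obj Pool.Agent.W492.BB
  Pool.Agent.W550.Corr Pool.Agent.TH133

variable {k : Type u} [Field k] {𝒱 : VarClass k} {C : TheoryData.{u, v, 0} 𝒱 ℚ} {K : Type w}
  [Field K] (H : WeilTheoryData.{u, v, w} C K)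

/-- The `ℚ`-subspaces of `CH(X × X)`. -/
abbrev CorSub (C : TheoryData.{u, v, 0} 𝒱 ℚ) (X : 𝒱.Obj) : Type v :=
  Submodule ℚ (C.A (X.prod X))

/-- `J` is a two-sided ideal of the ring of self-correspondences of degree zero of `X`, stable under
transposition. -/
def IsIdealTp (C : TheoryData.{u, v, 0} 𝒱 ℚ) {X : 𝒱.Obj} (J : CorSub C X) : Prop :=
  (∀ x ∈ J, C.Deg X.dim x ∧ tp C x ∈ J) ∧
    ∀ γ x : C.A (X.prod X), C.Deg X.dim γ → x ∈ J → C.comp γ x ∈ J ∧ C.comp x γ ∈ J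

/-- `x` is algebraic over `ℚ`: a polynomial `∑ q i x^i`, not all `q i = 0`, vanishes. -/
def IsAlgCor (C : TheoryData.{u, v, 0} 𝒱 ℚ) {X : 𝒱.Obj} (x : C.A (X.prod X)) : Prop :=
  ∃ (n : ℕ) (q : ℕ → ℚ), (∃ i ≤ n, q i ≠ 0) ∧
    ∑ i ∈ Finset.range (n + 1), q i • compList C X (List.replicate i x) = 0

/-- For `x ∈ J` and every `m` some `y ∈ J` acts as `x` on `H^m(X)` and as zero on `H^i(X)`,
`i ≠ m`. -/
def HasComponents {X : 𝒱.Obj} (J : CorSub C X) : Prop :=
  ∀ x ∈ J, ∀ m : ℕ, ∃ y ∈ J,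
    (∀ a : H.A X, H.Deg m a → H.act (H.cl y) a = H.act (H.cl x) a) ∧
      ∀ (i : ℤ) (a : H.A X), i ≠ m → H.Deg i a → H.act (H.cl y) a = 0

/-- A two-sided ideal `J` of the ring of self-correspondences of degree zero of `X`, stable under
transposition, with the following properties:

* every `x ∈ J` is algebraic over `ℚ`;
* every homologically trivial `x ∈ J` is nilpotent;
* the Kunneth components of the elements of `J` are in `J`.

The correspondences which factor through finite-dimensional motives with a Chow-Kunneth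
decomposition are an example. -/
structure IsFinIdeal {X : 𝒱.Obj} (J : CorSub C X) : Prop where
  ideal : IsIdealTp C J
  alg' : ∀ x ∈ J, IsAlgCor C x
  nil : ∀ x ∈ J, H.cl x = 0 → ∃ n : ℕ, compList C X (List.replicate n x) = 0
  weights' : HasComponents H J

variable {H}

theorem IsFinIdeal.deg {X : 𝒱.Obj} {J : Submodule ℚ (C.A (X.prod X))} (h : IsFinIdeal H J) :
    ∀ x ∈ J, C.Deg X.dim x := fun x hx => (h.ideal.1 x hx).1

theorem IsFinIdeal.left {X : 𝒱.Obj} {J : Submodule ℚ (C.A (X.prod X))} (h : IsFinIdeal H J) :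
    ∀ γ x : C.A (X.prod X), C.Deg X.dim γ → x ∈ J → C.comp γ x ∈ J :=
  fun γ x hγ hx => (h.ideal.2 γ x hγ hx).1

theorem IsFinIdeal.right {X : 𝒱.Obj} {J : Submodule ℚ (C.A (X.prod X))} (h : IsFinIdeal H J) :
    ∀ γ x : C.A (X.prod X), C.Deg X.dim γ → x ∈ J → C.comp x γ ∈ J :=
  fun γ x hγ hx => (h.ideal.2 γ x hγ hx).2

theorem IsFinIdeal.transpose {X : 𝒱.Obj} {J : Submodule ℚ (C.A (X.prod X))}
    (h : IsFinIdeal H J) : ∀ x ∈ J, tp C x ∈ J := fun x hx => (h.ideal.1 x hx).2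

theorem IsFinIdeal.alg {X : 𝒱.Obj} {J : Submodule ℚ (C.A (X.prod X))} (h : IsFinIdeal H J) :
    ∀ x ∈ J, ∃ (n : ℕ) (q : ℕ → ℚ), (∃ i ≤ n, q i ≠ 0) ∧
    ∑ i ∈ Finset.range (n + 1), q i • compList C X (List.replicate i x) = 0 := h.alg'

theorem IsFinIdeal.weights {X : 𝒱.Obj} {J : Submodule ℚ (C.A (X.prod X))}
    (h : IsFinIdeal H J) : ∀ x ∈ J, ∀ m : ℕ, ∃ y ∈ J,
    (∀ a : H.A X, H.Deg m a → H.act (H.cl y) a = H.act (H.cl x) a) ∧
      ∀ (i : ℤ) (a : H.A X), i ≠ m → H.Deg i a → H.act (H.cl y) a = 0 := h.weights'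

/-- The diagonal of `X` is the sum of a correspondence which factors through twists of motives of
surfaces, and of one in the ideal `J`. -/
def IsMixed {X : 𝒱.Obj} (J : CorSub C X) : Prop :=
  dg C X ∈ Pool.Agent.X308.S.throughSurfaces C X ⊔ J

end Pool.Agent.Run7.H634.Mur
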