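import Pool.Agent.Run7.h634.Mur.Strict
import Pool.Agent.Run7.h634.Mur.Codim

/-!
# Conjecture (D) for all varieties and the middle-dimensional cycles of the squares
-/

set_option autoImplicit false

open CategoryTheory AlgebraicGeometry

universe u v w

namespace Pool.Agent.Run7.H634.Mur

open Pool.Agent.H914 Pool.Agent.H914.VarClass Pool.Agent.H914.VarClass.Obj Pool.Agent.W492.BB
  Pool.Agent.W550.Corr Pool.Agent.TH133 Pool.Agent.X308.S

set_option linter.unusedSectionVars false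

variable {k : Type u} [Field k] {𝒱 : VarClass k} {C : TheoryData.{u, v, 0} 𝒱 ℚ}
  [hC : IsChowProj C] {K : Type w} [Field K]
  {H : WeilTheoryData.{u, v, w} C K} [hH : IsWeilProj H] {X Y Z W : 𝒱.Obj}

include hC hH

theorem strict_main :
    (∀ (X : 𝒱.Obj) (π : ℕ → C.A (X.prod X)), IsCK H X π →
      (MurreDFor H (squareCK π) X.dim ↔ StrictFor H π)) ∧
    (∀ (X : 𝒱.Obj) (π : ℕ → C.A (X.prod X)), IsCK H X π → StrictFor H π →
      MurreD H X ∧ MurreB0 H X ∧ MurreC H X ∧ UniqueUpToConjugation H X ∧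
        NilpotentOfIndex H X (2 * X.dim + 1)) ∧
    ((∀ X : 𝒱.Obj, (∃ π, IsCK H X π) ∧ MurreD H X) ↔
      ∀ X : 𝒱.Obj, ∃ π, IsCK H X π ∧ MurreDFor H (squareCK π) X.dim) := by
  refine ⟨fun X π h => strictFor_iff h, fun X π h hs =>
    ⟨hs.murreD h, hs.murreB0 h, hs.murreC h, hs.unique h, hs.nilpotent h⟩, ?_, ?_⟩
  · intro hA X
    obtain ⟨⟨π, h⟩, -⟩ := hA X
    exact ⟨π, h, fun x => (hA (X.prod X)).2 _ (h.dual.prod h) X.dim x⟩
  · intro hA X
    obtain ⟨π, h, hD⟩ := hA X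
    exact ⟨⟨π, h⟩, ((strictFor_iff h).1 hD).murreD h⟩

end Pool.Agent.Run7.H634.Mur
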