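import Pool.Agent.Run7.h634.Mur.Codim
import Pool.Agent.X308.S.Good

/-!
# Murre's conjecture (D) in one codimension, for varieties whose motive comes from surfaces
-/

set_option autoImplicit false

open CategoryTheory AlgebraicGeometry

universe u v w

namespace Pool.Agent.Run7.H634.Mur

open Pool.Agent.H914 Pool.Agent.H914.VarClass Pool.Agent.H914.VarClass.Obj Pool.Agent.W492.BB
  Pool.Agent.W550.Corr Pool.Agent.TH133 Pool.Agent.X308.S

variable {k : Type u} [Field k] {𝒱 : VarClass k} {C : TheoryData.{u, v, 0} 𝒱 ℚ}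
  [hC : IsChowProj C] {K : Type w} [Field K]
  {H : WeilTheoryData.{u, v, w} C K} [hH : IsWeilProj H]

/-- Let the motive of `X` be a direct summand of a finite sum of twists of motives of surfaces.

(1) `X` has a self-dual Chow-Kunneth decomposition whose filtration satisfies (D), (B) and
`F^3 = 0`.

(2) For every `l` and every `n` with `2 l - 2 dim X < n ≤ 2 l` the following are equivalent: (D) for
`CH^l(X)` and all Chow-Kunneth decompositions; the one step `F^n CH^l(X)` is the same for all of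
them; all steps `F^m CH^l(X)` are; `F^(l+1) CH^l(X) = 0` for all of them; the phantoms of `X`
(idempotent self-correspondences which are zero on the cohomology) act as zero on `CH^l(X)`.

(3) For `l < dim X` also `F^0 CH^l(X) = CH^l(X)` for all of them is equivalent to these.

(4) They all hold for all `l` if Bloch's conjecture for correspondences between surfaces does. -/
theorem surface_one_step (hS : SurfaceProperties H) (X : 𝒱.Obj) (hX : OfSurfaceType C X) :
    (∃ π : ℕ → C.A (X.prod X), IsCK H X π ∧ IsSelfDual C π ∧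
      ∀ l : ℕ, (∀ x : C.A X, x ∈ ckFil C π l 1 ↔ C.Deg l x ∧ H.cl x = 0) ∧
        ckFil C π l 0 = C.gr X l ∧ ckFil C π l (l + 1) = ⊥ ∧ ckFil C π l 3 = ⊥) ∧
    (∀ l n : ℕ, 2 * l < n + 2 * X.dim → n ≤ 2 * l →
      List.TFAE [MurreDIn H X l, StepIndep H X l n, ∀ m, StepIndep H X l m, MurreB1In H X l,
        PhantomsZeroOn H X l]) ∧
    (∀ l : ℕ, l < X.dim → (MurreB0In H X l ↔ MurreDIn H X l)) ∧
    (BlochCorrespondences H → MurreD H X ∧ MurreC H X ∧ MurreB0 H X ∧ MurreB1 H X) := by
  obtain ⟨P, h1, h2, h3⟩ := exists_selfDual_CK hS hX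
  have hT : NoRaising C P := noRaising_of_wt hS h3
  have hB0 := B0_of_wt (H := H) h1 h3
  have hB1 := B1_of_wt hS h1 h3
  have hD := D_of_wt hS h1 h3
  have hB2 : ∀ l : ℕ, ckFil C P l 3 = ⊥ := by
    intro l
    rw [eq_bot_iff]
    intro x hx
    rw [h1.mem_ckFil] at hx
    rw [Submodule.mem_bot]
    have h4 : x = ∑ j ∈ Finset.range (2 * X.dim + 1), C.act (P j) x := by
      rw [← act_sum, h1.sum, act_dg]
    rw [h4]
    apply Finset.sum_eq_zero
    intro j _
    by_cases hj : 2 * l - 2 ≤ j
    · exact hx.2 j (by omega)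
    · exact wt_B2 (w := j) (l := l) (by omega) (h3 j) hx.1
  have hD1 : ∀ l, MurreDIn H X l ↔ StepIndep H X l 1 := by
    intro l
    constructor
    · intro h π π' hπ hπ'
      ext x
      rw [h π hπ, h π' hπ']
    · intro h π hπ x
      rw [h π P hπ h1]
      exact hD l x
  have hB1' : ∀ l, MurreB1In H X l ↔ StepIndep H X l (l + 1) := by
    intro l
    constructor
    · intro h π π' hπ hπ'
      rw [h π hπ, h π' hπ']
    · intro h π hπ
      rw [h π P hπ h1]
      exact hB1 l
  have hB0' : ∀ l, MurreB0In H X l ↔ StepIndep H X l 0 := by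
    intro l
    constructor
    · intro h π π' hπ hπ'
      rw [h π hπ, h π' hπ']
    · intro h π hπ
      rw [h π P hπ h1]
      exact hB0 l
  have hall : ∀ l, PhantomsZeroOn H X l → ∀ m, StepIndep H X l m := by
    intro l hph m π π' hπ hπ'
    rw [← le_of_phantomsOn h1 hT hph hπ m]
    exact le_of_phantomsOn h1 hT hph hπ' m
  -- codimensions above the dimension, and codimension zero
  have htriv : ∀ l, X.dim < l ∨ l = 0 → PhantomsZeroOn H X l := by
    intro l hl p hp hpp hcl x hx
    have hm : C.act p x ∈ C.gr X l := act_mem0 C (i := (l : ℤ)) hp hx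
    rcases hl with hl | hl
    · exact hC.gr_top X l _ hm (by exact_mod_cast hl)
    · subst hl
      exact gr_zero_eq (H := H) (by exact_mod_cast hm)
        (cl_act_zero (e := (p : Cor C X)) hcl x)
  have h1' : ∀ l, StepIndep H X l 1 → PhantomsZeroOn H X l := by
    intro l hl
    by_cases hl2 : X.dim < l ∨ l = 0
    · exact htriv l hl2
    · exact phantomsOn_of_step h1 hT (by omega) (by omega) hl
  have hl1' : ∀ l, StepIndep H X l (l + 1) → PhantomsZeroOn H X l := by
    intro l hl
    by_cases hl2 : X.dim < l ∨ l = 0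
    · exact htriv l hl2
    · exact phantomsOn_of_step h1 hT (by omega) (by omega) hl
  refine ⟨⟨P, h1, h2, fun l => ⟨hD l, hB0 l, hB1 l, hB2 l⟩⟩, fun l n hn1 hn2 => ?_,
    fun l hl2 => ?_, fun hB => ?_⟩
  · tfae_have 1 ↔ 5 := ⟨fun h => h1' l ((hD1 l).1 h), fun h => (hD1 l).2 (hall l h 1)⟩
    tfae_have 2 ↔ 5 := stepIndep_iff h1 hT hn1 hn2
    tfae_have 3 ↔ 5 := ⟨fun h => phantomsOn_of_step h1 hT hn1 hn2 (h n), hall l⟩
    tfae_have 4 ↔ 5 := ⟨fun h => hl1' l ((hB1' l).1 h), fun h => (hB1' l).2 (hall l h (l + 1))⟩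
    tfae_finish
  · rw [hB0', stepIndep_iff h1 hT (by omega) (by omega), hD1]
    exact ⟨fun h => hall l h 1, h1' l⟩
  · have hst : ∀ l m, StepIndep H X l m := by
      intro l m π π' hπ hπ'
      have hF := isBB_of_bloch (H := H) hS hB
      rw [← hF.eq_ckFil hX hπ l m, ← hF.eq_ckFil hX hπ' l m]
    exact ⟨fun π hπ l => (hD1 l).2 (hst l 1) π hπ, fun π π' hπ hπ' l n => hst l n π π' hπ hπ',
      fun π hπ l => (hB0' l).2 (hst l 0) π hπ, fun π hπ l => (hB1' l).2 (hst l (l + 1)) π hπ⟩

end Pool.Agent.Run7.H634.Mur
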